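import Mathlib

/-!
Weights for the Hilbert transform on functions of mean zero: definitions.
-/

set_option autoImplicit false

open MeasureTheory Filter Topology
open scoped ENNReal NNReal

namespace Pool.Agent.Y247.Hil

/-- The Hilbert transform `(1/π) lim_{δ ↓ 0} ∫_{|y - x| > δ} f(y) / (x - y) dy`. -/
noncomputable def hilbert (f : ℝ → ℂ) (x : ℝ) : ℂ :=
  limUnder (𝓝[>] (0 : ℝ)) fun δ : ℝ =>
    (1 / (Real.pi : ℂ)) * ∫ y in {y : ℝ | δ < |y - x|}, f y / ((x : ℂ) - y)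

/-- A weight: nonnegative, locally integrable, not almost everywhere zero. -/
structure IsWeight (U : ℝ → ℝ) : Prop where
  nonneg : ∀ x, 0 ≤ U x
  locInt : LocallyIntegrable U volume
  ne_zero : ¬ U =ᵐ[volume] 0

/-- The mean value of a nonnegative function over the interval `[a, b]`. -/
noncomputable def mean (g : ℝ → ℝ≥0∞) (a b : ℝ) : ℝ≥0∞ :=
  (∫⁻ x in Set.Icc a b, g x) / ENNReal.ofReal (b - a)

/-- The class `A_p`. -/
def MemAp (p : ℝ) (W : ℝ → ℝ) : Prop :=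
  IsWeight W ∧ ∃ K : ℝ≥0, ∀ a b : ℝ, a < b →
    mean (fun x => ENNReal.ofReal (W x)) a b *
      mean (fun x => ENNReal.ofReal (W x) ^ (-1 / (p - 1))) a b ^ (p - 1) ≤ K

/-- `U` is admissible: `∫ |Hf|^p U ≤ C ∫ |f|^p U` for all integrable `f` with `∫ f = 0`. -/
def Admissible (p : ℝ) (U : ℝ → ℝ) : Prop :=
  ∃ C : ℝ≥0, ∀ f : ℝ → ℂ, Integrable f → ∫ x, f x = 0 →
    ∫⁻ x, ‖hilbert f x‖ₑ ^ p * ENNReal.ofReal (U x) ≤
      C * ∫⁻ x, ‖f x‖ₑ ^ p * ENNReal.ofReal (U x)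

end Pool.Agent.Y247.Hil
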