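import Pool.Agent.Y247.Hil.Pv2
import Pool.Agent.Y247.Hil.Defs

/-!
Weighted bound of the maximal truncated Hilbert transform on the line for `A_p` weights.
-/

set_option autoImplicit false

namespace Pool.Agent.Y247.Hil

open MeasureTheory Metric Filter Topology
open scoped ENNReal NNReal
open Pool.Agent.H433R3.Sep (IsCZO el)
open Pool.Agent.H433R3.Ml (WM sg WData OneSup AV)
open Pool.Agent.TH279.RI (TS)

lemma IsWeight.aem {U : ℝ → ℝ} (hU : IsWeight U) : AEMeasurable U volume :=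
  hU.locInt.aestronglyMeasurable.aemeasurable

/-- the integral of a weight over large intervals is positive -/
lemma IsWeight.exists_pos {U : ℝ → ℝ} (hU : IsWeight U) :
    ∃ n : ℕ, ∀ m : ℕ, n ≤ m → ∫⁻ x in Set.Icc (-(m:ℝ)) m, ENNReal.ofReal (U x) ≠ 0 := by
  by_contra hcon
  push Not at hcon
  apply hU.ne_zero
  have h1 : ∀ n : ℕ, ∫⁻ x in Set.Icc (-(n:ℝ)) n, ENNReal.ofReal (U x) = 0 := by
    intro n
    obtain ⟨m, hm, h⟩ := hcon n
    refine le_antisymm ?_ bot_le
    rw [← h]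
    apply lintegral_mono_set
    have : (n:ℝ) ≤ m := by exact_mod_cast hm
    exact Set.Icc_subset_Icc (by linarith) this
  have h2 : ∫⁻ x, ENNReal.ofReal (U x) = 0 := by
    have h3 : (⋃ n : ℕ, Set.Icc (-(n:ℝ)) n) = Set.univ := by
      apply Set.eq_univ_of_forall
      intro x
      obtain ⟨n, hn⟩ := exists_nat_ge |x|
      exact Set.mem_iUnion.2 ⟨n, abs_le.1 hn⟩
    rw [← setLIntegral_univ, ← h3]
    refine le_antisymm ((lintegral_iUnion_le _ _).trans ?_) bot_le
    simp [h1]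
  rw [lintegral_eq_zero_iff' hU.aem.ennreal_ofReal] at h2
  filter_upwards [h2] with x hx
  have h4 : ENNReal.ofReal (U x) = 0 := hx
  rw [ENNReal.ofReal_eq_zero] at h4
  exact le_antisymm h4 (hU.nonneg x)

/-- `A_p` weights are positive almost everywhere -/
lemma MemAp.pos {p : ℝ} (hp : 1 < p) {W : ℝ → ℝ} (hW : MemAp p W) : ∀ᵐ x, 0 < W x := by
  obtain ⟨hw, K, hK⟩ := hW
  obtain ⟨n₀, hn₀⟩ := hw.exists_pos
  by_contra hcon
  have h1 : volume {x | W x = 0} ≠ 0 := by
    intro h0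
    apply hcon
    have : ∀ᵐ x, W x ≠ 0 := by
      rw [ae_iff]; simpa using h0
    filter_upwards [this] with x hx
    exact lt_of_le_of_ne (hw.nonneg x) (Ne.symm hx)
  have h2 : ∃ n : ℕ, volume ({x | W x = 0} ∩ Set.Icc (-(n:ℝ)) n) ≠ 0 := by
    by_contra hc
    push Not at hc
    apply h1
    have h3 : {x | W x = 0} = ⋃ n : ℕ, ({x | W x = 0} ∩ Set.Icc (-(n:ℝ)) n) := by
      rw [← Set.inter_iUnion]
      symm
      apply Set.inter_eq_left.2
      intro x _
      obtain ⟨n, hn⟩ := exists_nat_ge |x|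
      exact Set.mem_iUnion.2 ⟨n, abs_le.1 hn⟩
    rw [h3]
    exact measure_iUnion_null hc
  obtain ⟨n₁, hn₁⟩ := h2
  set m : ℕ := max (max n₀ n₁) 1 with hm
  have hm1 : (1:ℝ) ≤ m := by exact_mod_cast le_max_right _ _
  have hab : -(m:ℝ) < m := by linarith
  have h4 := hK (-(m:ℝ)) m hab
  have h5 : ∫⁻ x in Set.Icc (-(m:ℝ)) m, ENNReal.ofReal (W x) ^ (-1 / (p - 1)) = ∞ := by
    apply lintegral_eq_top_of_measure_eq_top_ne_zero
    · exact (hw.aem.ennreal_ofReal.pow_const _).restrict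
    · intro h0
      apply hn₁
      have hsub : {x | W x = 0} ∩ Set.Icc (-(n₁:ℝ)) n₁ ⊆
          {x | ENNReal.ofReal (W x) ^ (-1 / (p - 1)) = ∞} ∩ Set.Icc (-(m:ℝ)) m := by
        rintro x ⟨hx1, hx2⟩
        refine ⟨?_, ?_⟩
        · have hx1' : W x = 0 := hx1
          show ENNReal.ofReal (W x) ^ (-1 / (p - 1)) = ∞
          rw [hx1', ENNReal.ofReal_zero, ENNReal.zero_rpow_of_neg]
          apply div_neg_of_neg_of_pos (by norm_num) (by linarith)
        · have : (n₁:ℝ) ≤ m := by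
            exact_mod_cast (le_max_right n₀ n₁).trans (le_max_left _ _)
          exact Set.Icc_subset_Icc (by linarith) this hx2
      refine measure_mono_null hsub ?_
      rw [Measure.restrict_apply' measurableSet_Icc] at h0
      exact h0
  have h6 : ∫⁻ x in Set.Icc (-(m:ℝ)) m, ENNReal.ofReal (W x) ≠ 0 :=
    hn₀ m ((le_max_left n₀ n₁).trans (le_max_left _ _))
  have h7 : ENNReal.ofReal ((m:ℝ) - -(m:ℝ)) ≠ ∞ := ENNReal.ofReal_ne_top
  unfold mean at h4
  rw [h5, ENNReal.top_div_of_ne_top h7, ENNReal.top_rpow_of_pos (by linarith), ENNReal.mul_top] at h4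
  · exact absurd h4 (by simp)
  · exact (ENNReal.div_pos h6 h7).ne'

/-- positivity of the integral of an `A_p` weight over an interval -/
lemma MemAp.int_pos {p : ℝ} (hp : 1 < p) {W : ℝ → ℝ} (hW : MemAp p W) {a b : ℝ} (hab : a < b) :
    ∫⁻ x in Set.Icc a b, ENNReal.ofReal (W x) ≠ 0 := by
  intro h0
  rw [lintegral_eq_zero_iff' hW.1.aem.ennreal_ofReal.restrict] at h0
  have h1 : ∀ᵐ x ∂(volume.restrict (Set.Icc a b)), False := by
    filter_upwards [h0, ae_restrict_of_ae (hW.pos hp)] with x h2 h3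
    have h4 : ENNReal.ofReal (W x) = 0 := h2
    rw [ENNReal.ofReal_eq_zero] at h4
    linarith
  rw [ae_iff] at h1
  simp only [not_false_eq_true, Set.ofPred_true, Measure.restrict_apply_univ,
    Real.volume_Icc] at h1
  rw [ENNReal.ofReal_eq_zero] at h1
  linarith

lemma WM_lint {w : (Fin 1 → ℝ) → ℝ} (hw : Measurable w) (F : (Fin 1 → ℝ) → ℝ≥0∞) :
    ∫⁻ x, F x ∂(WM w) = ∫⁻ x, ENNReal.ofReal (w x) * F x := by
  unfold WM
  rw [lintegral_withDensity_eq_lintegral_mul_non_measurable _ hw.ennreal_ofReal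
    (ae_of_all _ fun _ => ENNReal.ofReal_lt_top)]
  rfl

lemma e1_lint (F : ℝ → ℝ≥0∞) : ∫⁻ x : Fin 1 → ℝ, F (e1 x) = ∫⁻ y, F y :=
  e1_mp.lintegral_comp_emb e1.measurableEmbedding F

/-- weighted bound for maximal truncations on the line -/
theorem Hs_bound {p : ℝ} (hp : 1 < p) {W : ℝ → ℝ} (hW : MemAp p W) :
    ∃ C : ℝ≥0, ∀ h : ℝ → ℂ, AEStronglyMeasurable h volume →
      ∫⁻ x, ENNReal.ofReal (W x) * Hs h x ^ p ≤
        C * ∫⁻ x, ENNReal.ofReal (W x) * ‖h x‖ₑ ^ p := by
  have hp0 : 0 < p := by linarith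
  have hp1 : 0 < p - 1 := by linarith
  set q : ℝ := p / (p - 1) with hq
  have hpq : p.HolderConjugate q := Real.HolderConjugate.conjExponent hp
  have hq1 : 1 - q = -1 / (p - 1) := by rw [hq]; field_simp; ring
  have hpp : (p - 1) * (q - 1) = 1 := by rw [hq]; field_simp; ring
  obtain ⟨hw, K, hK⟩ := id hW
  have hpos := hW.pos hp
  obtain ⟨v, hv, hWv⟩ := hw.aem
  -- everywhere positive measurable version
  set w' : ℝ → ℝ := fun x => if 0 < v x then v x else 1 with hw'
  have hw'm : Measurable w' := Measurable.ite (measurableSet_lt measurable_const hv) hv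
    measurable_const
  have hw'0 : ∀ x, 0 < w' x := by
    intro x
    simp only [hw']
    split_ifs with h
    · exact h
    · exact one_pos
  have hww : W =ᵐ[volume] w' := by
    filter_upwards [hWv, hpos] with x hx hx2
    rw [hx] at hx2
    simp only [hw']
    rw [if_pos hx2, hx]
  set w : (Fin 1 → ℝ) → ℝ := fun x => w' (e1 x) with hwdef
  have hwm : Measurable w := hw'm.comp e1.measurable
  have hsg : ∀ x, sg q w x = w' (e1 x) ^ (-1 / (p - 1)) := by
    intro x; unfold sg; rw [hq1]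
  -- cubes are intervals
  have hcube : ∀ (c : Fin 1 → ℝ) (l : ℝ), Pool.Agent.H433R3.Sep.cube c l =
      e1 ⁻¹' (Set.Ico (c 0) (c 0 + l)) := by
    intro c l
    ext x
    simp only [Pool.Agent.H433R3.Sep.cube, Set.mem_ofPred_eq, Set.mem_preimage, Set.mem_Ico]
    constructor
    · intro h; exact h 0
    · intro h i; rw [Subsingleton.elim i 0]; exact h
  have hlintc : ∀ (F : ℝ → ℝ≥0∞) (c : Fin 1 → ℝ) (l : ℝ),
      ∫⁻ x in Pool.Agent.H433R3.Sep.cube c l, F (e1 x) = ∫⁻ y in Set.Icc (c 0) (c 0 + l), F y := by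
    intro F c l
    rw [hcube, e1_mp.setLIntegral_comp_preimage_emb e1.measurableEmbedding,
      setLIntegral_congr Ico_ae_eq_Icc]
  -- finiteness of the two integrals
  have hfin1 : ∀ a b : ℝ, ∫⁻ x in Set.Icc a b, ENNReal.ofReal (w' x) < ∞ := by
    intro a b
    have h1 : IntegrableOn W (Set.Icc a b) := hw.locInt.integrableOn_isCompact isCompact_Icc
    have h2 := h1.2
    rw [hasFiniteIntegral_iff_ofReal (ae_of_all _ hw.nonneg)] at h2
    rw [← lintegral_congr_ae (μ := volume.restrict (Set.Icc a b))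
      (f := fun x => ENNReal.ofReal (W x))]
    · exact h2
    · filter_upwards [ae_restrict_of_ae hww] with x hx
      rw [hx]
  have hmean1 : ∀ a b, mean (fun x => ENNReal.ofReal (W x)) a b =
      mean (fun x => ENNReal.ofReal (w' x)) a b := by
    intro a b
    unfold mean
    congr 1
    apply lintegral_congr_ae
    filter_upwards [ae_restrict_of_ae hww] with x hx
    rw [hx]
  have hmean2 : ∀ a b, mean (fun x => ENNReal.ofReal (W x) ^ (-1 / (p - 1))) a b =
      mean (fun x => ENNReal.ofReal (w' x ^ (-1 / (p - 1)))) a b := by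
    intro a b
    unfold mean
    congr 1
    apply lintegral_congr_ae
    filter_upwards [ae_restrict_of_ae hww] with x hx
    rw [hx, ENNReal.ofReal_rpow_of_pos (hw'0 x)]
  have hfin2 : ∀ a b : ℝ, a < b → ∫⁻ x in Set.Icc a b, ENNReal.ofReal (w' x ^ (-1 / (p - 1))) < ∞ := by
    intro a b hab
    have h1 := hK a b hab
    rw [hmean2] at h1
    by_contra hcon
    rw [not_lt, top_le_iff] at hcon
    unfold mean at h1
    rw [hcon, ENNReal.top_div_of_ne_top ENNReal.ofReal_ne_top, ENNReal.top_rpow_of_pos hp1,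
      ENNReal.mul_top] at h1
    · exact absurd h1 (by simp)
    · exact (ENNReal.div_pos (hW.int_pos hp hab) ENNReal.ofReal_ne_top).ne'
  have hWD : WData q w := by
    refine ⟨hwm, fun x => hw'0 _, ?_, ?_⟩
    · intro c l hl
      refine ⟨hwm.aestronglyMeasurable, ?_⟩
      rw [hasFiniteIntegral_iff_ofReal (ae_of_all _ fun x => (hw'0 _).le), hlintc
        (fun y => ENNReal.ofReal (w' y))]
      exact hfin1 _ _
    · intro c l hl
      have hm : Measurable (sg q w) := by unfold sg; exact hwm.pow_const _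
      refine ⟨hm.aestronglyMeasurable, ?_⟩
      rw [hasFiniteIntegral_iff_ofReal (ae_of_all _ fun x => by
        rw [hsg]; exact Real.rpow_nonneg (hw'0 _).le _)]
      simp_rw [hsg]
      rw [hlintc (fun y => ENNReal.ofReal (w' y ^ (-1 / (p - 1))))]
      exact hfin2 _ _ (by linarith)
  -- averages
  have hAV : ∀ (g : ℝ → ℝ), Measurable g → (∀ y, 0 ≤ g y) → ∀ (c : Fin 1 → ℝ) (l : ℝ), 0 < l →
      ∫⁻ x in Set.Icc (c 0) (c 0 + l), ENNReal.ofReal (g x) < ∞ →
      ENNReal.ofReal (AV (fun x => g (e1 x)) (Pool.Agent.H433R3.Sep.cube c l)) =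
        mean (fun y => ENNReal.ofReal (g y)) (c 0) (c 0 + l) := by
    intro g hg hg0 c l hl hfin
    unfold AV mean
    have hvol : volume (Pool.Agent.H433R3.Sep.cube c l) = ENNReal.ofReal l := by
      rw [hcube, e1_mp.measure_preimage_equiv, Real.volume_Ico]
      congr 1; ring
    have hint : ∫ x in Pool.Agent.H433R3.Sep.cube c l, g (e1 x) =
        (∫⁻ x in Set.Icc (c 0) (c 0 + l), ENNReal.ofReal (g x)).toReal := by
      rw [integral_eq_lintegral_of_nonneg_ae (ae_of_all _ fun x => hg0 _)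
        (hg.comp e1.measurable).aestronglyMeasurable, hlintc (fun y => ENNReal.ofReal (g y))]
    rw [hint, hvol, ENNReal.toReal_ofReal hl.le, ENNReal.ofReal_mul (by positivity),
      ENNReal.ofReal_toReal hfin.ne, ENNReal.ofReal_inv_of_pos hl, mul_comm, ← div_eq_mul_inv]
    congr 2
    ring
  have hAVnn : ∀ (g : ℝ → ℝ), (∀ y, 0 ≤ g y) → ∀ Q : Set (Fin 1 → ℝ),
      0 ≤ AV (fun x => g (e1 x)) Q := by
    intro g hg0 Q
    unfold AV
    apply mul_nonneg (by positivity)
    exact integral_nonneg fun x => hg0 _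
  have hsgm : Measurable (fun y => w' y ^ (-1 / (p - 1))) := hw'm.pow_const _
  have hprod : ∀ (c : Fin 1 → ℝ) (l : ℝ), 0 < l →
      AV w (Pool.Agent.H433R3.Sep.cube c l) *
        AV (sg q w) (Pool.Agent.H433R3.Sep.cube c l) ^ (p - 1) ≤ K := by
    intro c l hl
    have h1 := hK (c 0) (c 0 + l) (by linarith)
    rw [hmean1, hmean2] at h1
    have h2 := hAV w' hw'm (fun y => (hw'0 y).le) c l hl (hfin1 _ _)
    have h3 := hAV _ hsgm (fun y => Real.rpow_nonneg (hw'0 y).le _) c l hl (hfin2 _ _ (by linarith))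
    rw [← h2, ← h3, ENNReal.ofReal_rpow_of_nonneg (hAVnn _ (fun y => Real.rpow_nonneg (hw'0 y).le _) _)
      hp1.le, ← ENNReal.ofReal_mul (hAVnn _ (fun y => (hw'0 y).le) _)] at h1
    have h4 : sg q w = fun x => w' (e1 x) ^ (-1 / (p - 1)) := funext hsg
    rw [h4]
    have h5 : (K : ℝ≥0∞) = ENNReal.ofReal (K : ℝ) := by simp
    rw [h5] at h1
    exact (ENNReal.ofReal_le_ofReal_iff K.coe_nonneg).1 h1
  have hone : OneSup p 1 K w (sg q w) := by
    intro c l hl
    rw [Real.rpow_one, sub_self, Real.rpow_zero, mul_one]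
    exact hprod c l hl
  have hone' : OneSup q 1 ((K : ℝ) ^ (q - 1)) (sg q w) w := by
    intro c l hl
    rw [Real.rpow_one, sub_self, Real.rpow_zero, mul_one]
    have h4 : sg q w = fun x => w' (e1 x) ^ (-1 / (p - 1)) := funext hsg
    have h6 : 0 ≤ AV (sg q w) (Pool.Agent.H433R3.Sep.cube c l) := by
      rw [h4]; exact hAVnn _ (fun y => Real.rpow_nonneg (hw'0 y).le _) _
    have h7 : 0 ≤ AV w (Pool.Agent.H433R3.Sep.cube c l) := hAVnn _ (fun y => (hw'0 y).le) _
    have h8 := Real.rpow_le_rpow (by positivity) (hprod c l hl) hpq.symm.sub_one_pos.le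
    rw [Real.mul_rpow h7 (by positivity), ← Real.rpow_mul h6, hpp, Real.rpow_one, mul_comm] at h8
    exact h8
  obtain ⟨C, hC⟩ := genAp (d := 1) one_pos hpq isCZO
  set Kq : ℝ := (K : ℝ) ^ (q - 1) with hKq
  have hKq0 : 0 ≤ Kq := Real.rpow_nonneg K.coe_nonneg _
  refine ⟨C * (((K : ℝ) + Kq) ^ p).toNNReal + 1, ?_⟩
  intro h₀ hh₀
  obtain ⟨h, hh, hhh⟩ := hh₀.aemeasurable
  have e2 : ∫⁻ x, ENNReal.ofReal (W x) * Hs h₀ x ^ p = ∫⁻ x, ENNReal.ofReal (w' x) * Hs h x ^ p := by
    apply lintegral_congr_ae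
    filter_upwards [hww] with x hx
    rw [hx, Hs_congr hhh]
  have e3 : ∫⁻ x, ENNReal.ofReal (W x) * ‖h₀ x‖ₑ ^ p = ∫⁻ x, ENNReal.ofReal (w' x) * ‖h x‖ₑ ^ p := by
    apply lintegral_congr_ae
    filter_upwards [hww, hhh] with x hx hx2
    rw [hx, hx2]
  rw [e2, e3]
  by_cases hfin : ∫⁻ x, ENNReal.ofReal (w' x) * ‖h x‖ₑ ^ p = ∞
  · rw [hfin, ENNReal.mul_top]
    · exact le_top
    · positivity
  have h1 := hC w hWD K K.coe_nonneg hone Kq hKq0 hone' (fun x => h (e1 x))
    (hh.comp e1.measurable) (by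
      rw [WM_lint hwm, e1_lint (fun y => ENNReal.ofReal (w' y) * ‖h y‖ₑ ^ p)]
      exact hfin)
  rw [WM_lint hwm, WM_lint hwm, e1_lint (fun y => ENNReal.ofReal (w' y) * ‖h y‖ₑ ^ p)] at h1
  have h2 : ∫⁻ x : Fin 1 → ℝ, ENNReal.ofReal (w x) * TS KK (fun x => h (e1 x)) x ^ p =
      ∫⁻ y, ENNReal.ofReal (w' y) * Hs h y ^ p := by
    rw [← e1_lint (fun y => ENNReal.ofReal (w' y) * Hs h y ^ p)]
    apply lintegral_congr
    intro x
    rw [Hs_eq]
  rw [h2] at h1
  refine h1.trans ?_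
  apply mul_le_mul' _ le_rfl
  rw [ENNReal.coe_add, ENNReal.coe_mul]
  exact le_self_add

end Pool.Agent.Y247.Hil
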