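import Pool.Agent.Y247.Hil.Suff

/-!
Necessity: testing functions.
-/

set_option autoImplicit false

namespace Pool.Agent.Y247.Hil

open MeasureTheory Metric Filter Topology
open scoped ENNReal NNReal

/-- the Hilbert transform off the support -/
lemma hilbert_off (F : ℝ → ℝ) (x : ℝ) {δ₀ : ℝ} (hδ₀ : 0 < δ₀)
    (hoff : ∀ y, F y ≠ 0 → δ₀ ≤ |y - x|) :
    hilbert (fun y => (F y : ℂ)) x = ((1 / Real.pi * ∫ y, F y / (x - y) : ℝ) : ℂ) := by
  apply hilbert_eq
  apply tendsto_const_nhds.congr'
  have h2 : ∀ᶠ δ in 𝓝[>] (0:ℝ), δ < δ₀ := nhdsWithin_le_nhds (eventually_lt_nhds hδ₀)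
  filter_upwards [h2] with δ hδ
  unfold trunc
  rw [← integral_indicator (far_meas δ x)]
  have h3 : ∀ y, {y : ℝ | δ < |y - x|}.indicator (fun y : ℝ => (F y : ℂ) / ((x : ℂ) - y)) y =
      ((F y / (x - y) : ℝ) : ℂ) := by
    intro y
    by_cases hy : δ < |y - x|
    · rw [Set.indicator_of_mem (show y ∈ {y : ℝ | δ < |y - x|} from hy)]
      push_cast; rfl
    · rw [Set.indicator_of_notMem (show y ∉ {y : ℝ | δ < |y - x|} from hy)]
      have h4 : F y = 0 := by
        by_contra h5
        exact hy (lt_of_lt_of_le hδ (hoff y h5))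
      rw [h4]; simp
  simp_rw [h3]
  rw [integral_complex_ofReal]
  push_cast
  rfl

lemma div_int {k : ℝ → ℝ} (hk : Integrable k) (x : ℝ) {δ₀ : ℝ} (hδ₀ : 0 < δ₀)
    (hoff : ∀ y, k y ≠ 0 → δ₀ ≤ |y - x|) : Integrable (fun y => k y / (x - y)) := by
  refine Integrable.mono' (hk.norm.const_mul (1 / δ₀)) ?_ (ae_of_all _ fun y => ?_)
  · exact (hk.1.aemeasurable.div (by fun_prop)).aestronglyMeasurable
  · by_cases hy : k y = 0
    · rw [hy]; simp
    · have h1 := hoff y hy
      rw [norm_div, Real.norm_eq_abs (x - y), abs_sub_comm, div_eq_mul_inv, mul_comm, one_div]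
      apply mul_le_mul_of_nonneg_right _ (norm_nonneg _)
      exact inv_anti₀ hδ₀ h1

/-- the testing inequality -/
theorem test {p : ℝ} (hp : 1 < p) {U : ℝ → ℝ} (hU0 : ∀ x, 0 ≤ U x) (hUm : AEMeasurable U)
    {C : ℝ≥0}
    (hC : ∀ f : ℝ → ℂ, Integrable f → ∫ x, f x = 0 →
      ∫⁻ x, ‖hilbert f x‖ₑ ^ p * ENNReal.ofReal (U x) ≤
        C * ∫⁻ x, ‖f x‖ₑ ^ p * ENNReal.ofReal (U x))
    (A₁ A₀ : ℝ) {η : ℝ} (hη : 0 < η) {h g : ℝ → ℝ} (hh : Integrable h) (hh0 : ∀ y, 0 ≤ h y)
    (hg : Integrable g) (hg0 : ∀ y, 0 ≤ g y) (hg1 : ∫ y, g y = 1)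
    (hα : ∀ y, h y ≠ 0 → η ≤ |A₁ * y + A₀|) (hdisj : ∀ y, h y = 0 ∨ g y = 0)
    {S : Set ℝ} (hS : MeasurableSet S) {D ρ s : ℝ} (hD : 0 < D) (hs : |s| = 1)
    (hoff : ∀ x ∈ S, ∃ δ > 0, ∀ y, (h y ≠ 0 ∨ g y ≠ 0) → δ ≤ |y - x|)
    (hsxy : ∀ x ∈ S, ∀ y, h y ≠ 0 → 0 < s * (x - y) ∧ s * (x - y) ≤ D)
    (hcorr : ∀ x ∈ S, s * (∫ y, h y / (A₁ * y + A₀)) * (∫ y, (A₁ * y + A₀) * g y / (x - y)) ≤ ρ) :
    ENNReal.ofReal (((∫ y, h y) / D - ρ) / Real.pi) ^ p *
        ∫⁻ x in S, ENNReal.ofReal (U x / |A₁ * x + A₀| ^ p) ≤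
      C * ((∫⁻ x, ENNReal.ofReal (h x) ^ p * ENNReal.ofReal (U x / |A₁ * x + A₀| ^ p)) +
        ENNReal.ofReal |∫ y, h y / (A₁ * y + A₀)| ^ p *
          ∫⁻ x, ENNReal.ofReal (g x) ^ p * ENNReal.ofReal (U x)) := by
  have hp0 : 0 < p := by linarith
  set α : ℝ → ℝ := fun y => A₁ * y + A₀ with hαdef
  have hαc : Continuous α := by simp only [hαdef]; fun_prop
  set f : ℝ → ℝ := fun y => h y / α y with hf
  set m : ℝ := ∫ y, f y with hm
  have hfint : Integrable f := by
    refine Integrable.mono' (hh.const_mul (1 / η)) ?_ (ae_of_all _ fun y => ?_)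
    · exact (hh.1.aemeasurable.div hαc.aemeasurable).aestronglyMeasurable
    · by_cases hy : h y = 0
      · simp only [hf, hy]; simp
      · simp only [hf]
        rw [norm_div, Real.norm_eq_abs, Real.norm_eq_abs, abs_of_nonneg (hh0 y), div_eq_mul_inv,
          mul_comm, one_div]
        apply mul_le_mul_of_nonneg_right _ (hh0 y)
        exact inv_anti₀ hη (hα y hy)
  set F : ℝ → ℝ := fun y => f y - m * g y with hF
  have hFint : Integrable F := hfint.sub (hg.const_mul m)
  have hF0 : ∫ y, F y = 0 := by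
    simp only [hF]
    rw [integral_sub hfint (hg.const_mul m), integral_const_mul, hg1, ← hm]; ring
  have hmain := hC (fun y => (F y : ℂ)) hFint.ofReal (by rw [integral_complex_ofReal, hF0]; simp)
  have hf0 : ∀ y, f y ≠ 0 → h y ≠ 0 := by
    intro y hy hcon
    apply hy; simp only [hf, hcon]; simp
  -- pointwise lower bound on S
  set lam : ℝ := ((∫ y, h y) / D - ρ) / Real.pi with hlam
  have hlow : ∀ x ∈ S, ENNReal.ofReal lam ≤ ENNReal.ofReal |α x| *
      ‖hilbert (fun y => (F y : ℂ)) x‖ₑ := by
    intro x hx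
    obtain ⟨δ, hδ, hδ2⟩ := hoff x hx
    have hFoff : ∀ y, F y ≠ 0 → δ ≤ |y - x| := by
      intro y hy
      apply hδ2
      by_contra hcon
      push Not at hcon
      apply hy
      simp only [hF, hf, hcon.1, hcon.2]; simp
    rw [hilbert_off F x hδ hFoff]
    have i1 : Integrable (fun y => f y / (x - y)) :=
      div_int hfint x hδ fun y hy => hδ2 y (Or.inl (hf0 y hy))
    have i2 : Integrable (fun y => g y / (x - y)) :=
      div_int hg x hδ fun y hy => hδ2 y (Or.inr hy)
    have i3 : Integrable (fun y => h y / (x - y)) :=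
      div_int hh x hδ fun y hy => hδ2 y (Or.inl hy)
    have e1 : α x * ∫ y, F y / (x - y) =
        (∫ y, h y / (x - y)) - m * ∫ y, α y * g y / (x - y) := by
      have e2 : ∀ y, α x * (f y / (x - y)) = h y / (x - y) + A₁ * f y := by
        intro y
        by_cases hy : h y = 0
        · simp only [hf, hy]; simp
        · have h1 := hδ2 y (Or.inl hy)
          have h2 : x - y ≠ 0 := by
            intro h0
            have : y - x = 0 := by linarith
            rw [this, abs_zero] at h1; linarith
          have h3 : A₁ * y + A₀ ≠ 0 := by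
            intro h0
            have := hα y hy
            rw [h0, abs_zero] at this; linarith
          simp only [hf, hαdef]
          field_simp
          ring
      have e3 : ∀ y, α x * (g y / (x - y)) = α y * g y / (x - y) + A₁ * g y := by
        intro y
        by_cases hy : g y = 0
        · rw [hy]; simp
        · have h1 := hδ2 y (Or.inr hy)
          have h2 : x - y ≠ 0 := by
            intro h0
            have : y - x = 0 := by linarith
            rw [this, abs_zero] at h1; linarith
          simp only [hαdef]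
          field_simp
          ring
      have i4 : Integrable (fun y => α y * g y / (x - y)) := by
        have : (fun y => α y * g y / (x - y)) = fun y => α x * (g y / (x - y)) - A₁ * g y := by
          funext y; rw [e3 y]; ring
        rw [this]
        exact (i2.const_mul _).sub (hg.const_mul _)
      have e4 : ∫ y, F y / (x - y) = (∫ y, f y / (x - y)) - m * ∫ y, g y / (x - y) := by
        rw [← integral_const_mul, ← integral_sub i1 (i2.const_mul m)]
        congr 1; funext y
        simp only [hF]; ring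
      have e5 : α x * ∫ y, f y / (x - y) = (∫ y, h y / (x - y)) + A₁ * m := by
        rw [← integral_const_mul, hm, ← integral_const_mul, ← integral_add i3 (hfint.const_mul _)]
        congr 1; funext y; exact e2 y
      have e6 : α x * ∫ y, g y / (x - y) = (∫ y, α y * g y / (x - y)) + A₁ := by
        have : A₁ = ∫ y, A₁ * g y := by rw [integral_const_mul, hg1, mul_one]
        rw [← integral_const_mul]
        conv_rhs => rw [this]
        rw [← integral_add i4 (hg.const_mul _)]
        congr 1; funext y; exact e3 y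
      rw [e4, mul_sub, e5]
      linear_combination (-m) * e6
    have e7 : (∫ y, h y) / D ≤ s * ∫ y, h y / (x - y) := by
      rw [← integral_const_mul, ← integral_div]
      apply integral_mono (hh.div_const D) (i3.const_mul s)
      intro y
      simp only
      by_cases hy : h y = 0
      · rw [hy]; simp
      · obtain ⟨h1, h2⟩ := hsxy x hx y hy
        have hs2 : s * s = 1 := by
          rw [← abs_mul_abs_self, hs]; norm_num
        have h3 : s * (h y / (x - y)) = h y / (s * (x - y)) := by
          have h4 : x - y ≠ 0 := by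
            intro h0; rw [h0, mul_zero] at h1; exact lt_irrefl _ h1
          have h5 : s ≠ 0 := by
            intro h0; rw [h0, zero_mul] at hs2; exact zero_ne_one hs2
          field_simp
          linear_combination hs2
        rw [h3]
        exact div_le_div_of_nonneg_left (hh0 y) h1 h2
    have e8 := hcorr x hx
    have e9 : (∫ y, h y) / D - ρ ≤ |α x * ∫ y, F y / (x - y)| := by
      rw [e1]
      have h6 : s * ((∫ y, h y / (x - y)) - m * ∫ y, α y * g y / (x - y)) ≤
          |(∫ y, h y / (x - y)) - m * ∫ y, α y * g y / (x - y)| := by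
        refine (le_abs_self _).trans ?_
        rw [abs_mul, hs, one_mul]
      have h7 : s * ((∫ y, h y / (x - y)) - m * ∫ y, α y * g y / (x - y)) =
          s * (∫ y, h y / (x - y)) - s * m * (∫ y, α y * g y / (x - y)) := by ring
      have h8 : s * m * (∫ y, α y * g y / (x - y)) ≤ ρ := e8
      linarith
    rw [← ofReal_norm, Complex.norm_real, Real.norm_eq_abs, ← ENNReal.ofReal_mul (abs_nonneg _)]
    apply ENNReal.ofReal_le_ofReal
    rw [hlam]
    have hpi := Real.pi_pos
    rw [div_le_iff₀ hpi]
    refine e9.trans (le_of_eq ?_)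
    rw [abs_mul, abs_mul, abs_of_pos (by positivity : 0 < 1 / Real.pi)]
    field_simp
  -- the two sides
  have hV : ∀ x, ENNReal.ofReal (U x / |α x| ^ p) * ENNReal.ofReal |α x| ^ p ≤
      ENNReal.ofReal (U x) := by
    intro x
    rw [ENNReal.ofReal_rpow_of_nonneg (abs_nonneg _) hp0.le,
      ← ENNReal.ofReal_mul (div_nonneg (hU0 x) (Real.rpow_nonneg (abs_nonneg _) _))]
    apply ENNReal.ofReal_le_ofReal
    by_cases hz : α x = 0
    · rw [hz, abs_zero, Real.zero_rpow hp0.ne', div_zero, zero_mul]; exact hU0 x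
    · rw [div_mul_cancel₀]
      exact (Real.rpow_pos_of_pos (abs_pos.2 hz) _).ne'
  calc ENNReal.ofReal lam ^ p * ∫⁻ x in S, ENNReal.ofReal (U x / |α x| ^ p)
      ≤ ∫⁻ x in S, ENNReal.ofReal lam ^ p * ENNReal.ofReal (U x / |α x| ^ p) := by
        rw [lintegral_const_mul' _ _ (ENNReal.rpow_ne_top_of_nonneg hp0.le ENNReal.ofReal_ne_top)]
    _ ≤ ∫⁻ x in S, ‖hilbert (fun y => (F y : ℂ)) x‖ₑ ^ p * ENNReal.ofReal (U x) := by
        apply setLIntegral_mono_ae' hS
        apply ae_of_all
        intro x hx
        calc ENNReal.ofReal lam ^ p * ENNReal.ofReal (U x / |α x| ^ p)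
            ≤ (ENNReal.ofReal |α x| * ‖hilbert (fun y => (F y : ℂ)) x‖ₑ) ^ p *
              ENNReal.ofReal (U x / |α x| ^ p) := by
              apply mul_le_mul' _ le_rfl
              exact ENNReal.rpow_le_rpow (hlow x hx) hp0.le
          _ = ‖hilbert (fun y => (F y : ℂ)) x‖ₑ ^ p *
              (ENNReal.ofReal (U x / |α x| ^ p) * ENNReal.ofReal |α x| ^ p) := by
              rw [ENNReal.mul_rpow_of_nonneg _ _ hp0.le]; ring
          _ ≤ _ := mul_le_mul' le_rfl (hV x)
    _ ≤ ∫⁻ x, ‖hilbert (fun y => (F y : ℂ)) x‖ₑ ^ p * ENNReal.ofReal (U x) :=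
        setLIntegral_le_lintegral _ _
    _ ≤ C * ∫⁻ x, ‖(F x : ℂ)‖ₑ ^ p * ENNReal.ofReal (U x) := hmain
    _ ≤ _ := by
        apply mul_le_mul' le_rfl
        have h9 : ∀ x, ‖(F x : ℂ)‖ₑ ^ p * ENNReal.ofReal (U x) ≤
            ENNReal.ofReal (h x) ^ p * ENNReal.ofReal (U x / |α x| ^ p) +
              ENNReal.ofReal |m| ^ p * (ENNReal.ofReal (g x) ^ p * ENNReal.ofReal (U x)) := by
          intro x
          rw [← ofReal_norm, Complex.norm_real, Real.norm_eq_abs]
          rcases hdisj x with hx | hx
          · have : F x = - (m * g x) := by simp only [hF, hf, hx]; simp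
            rw [this, abs_neg, abs_mul, abs_of_nonneg (hg0 x), ENNReal.ofReal_mul (abs_nonneg _),
              ENNReal.mul_rpow_of_nonneg _ _ hp0.le, mul_assoc]
            exact le_add_self
          · by_cases hx2 : h x = 0
            · have : F x = 0 := by simp only [hF, hf, hx2, hx]; simp
              rw [this, abs_zero, ENNReal.ofReal_zero, ENNReal.zero_rpow_of_pos hp0, zero_mul]
              exact bot_le
            · have h10 : α x ≠ 0 := by
                intro h0
                have h11 := hα x hx2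
                have h12 : A₁ * x + A₀ = 0 := h0
                rw [h12, abs_zero] at h11; linarith
              have h13 : 0 < |α x| := abs_pos.2 h10
              have : F x = h x / α x := by simp only [hF, hf, hx]; simp
              rw [this, abs_div, abs_of_nonneg (hh0 x)]
              refine le_trans (le_of_eq ?_) le_self_add
              rw [ENNReal.ofReal_rpow_of_nonneg (by have := hh0 x; positivity) hp0.le,
                ← ENNReal.ofReal_mul (by have := hh0 x; positivity),
                ENNReal.ofReal_rpow_of_nonneg (hh0 x) hp0.le,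
                ← ENNReal.ofReal_mul (Real.rpow_nonneg (hh0 x) _),
                Real.div_rpow (hh0 x) h13.le]
              congr 1
              ring
        refine (lintegral_mono h9).trans ?_
        rw [lintegral_add_left']
        · rw [lintegral_const_mul' _ _ (ENNReal.rpow_ne_top_of_nonneg hp0.le ENNReal.ofReal_ne_top)]
        · apply AEMeasurable.mul
          · exact hh.1.aemeasurable.ennreal_ofReal.pow_const _
          · exact (hUm.div (hαc.abs.measurable.pow_const _).aemeasurable).ennreal_ofReal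

end Pool.Agent.Y247.Hil
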