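import Pool.Agent.Y247.Hil.Nec1

/-!
Necessity: extremal functions.
-/

set_option autoImplicit false

namespace Pool.Agent.Y247.Hil

open MeasureTheory Metric Filter Topology
open scoped ENNReal NNReal

/-- truncations -/
noncomputable def kf (τ : ℝ → ℝ≥0∞) (E : Set ℝ) (N : ℕ) : ℝ → ℝ≥0∞ :=
  (E ∩ Set.Icc (-(N:ℝ)) N).indicator (fun x => min (τ x) N)

lemma kf_meas {τ : ℝ → ℝ≥0∞} (hτ : Measurable τ) {E : Set ℝ} (hE : MeasurableSet E) (N : ℕ) :
    Measurable (kf τ E N) :=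
  (hτ.min measurable_const).indicator (hE.inter measurableSet_Icc)

lemma kf_le (τ : ℝ → ℝ≥0∞) (E : Set ℝ) (N : ℕ) (x : ℝ) : kf τ E N x ≤ N := by
  unfold kf
  by_cases hx : x ∈ E ∩ Set.Icc (-(N:ℝ)) N
  · rw [Set.indicator_of_mem hx]; exact min_le_right _ _
  · rw [Set.indicator_of_notMem hx]; exact bot_le

lemma kf_ne_top (τ : ℝ → ℝ≥0∞) (E : Set ℝ) (N : ℕ) (x : ℝ) : kf τ E N x ≠ ∞ :=
  ne_top_of_le_ne_top (ENNReal.natCast_ne_top N) (kf_le τ E N x)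

lemma kf_supp {τ : ℝ → ℝ≥0∞} {E : Set ℝ} {N : ℕ} {x : ℝ} (h : kf τ E N x ≠ 0) : x ∈ E := by
  by_contra hx
  apply h
  unfold kf
  rw [Set.indicator_of_notMem]
  exact fun h2 => hx h2.1

lemma kf_lint_ne_top (τ : ℝ → ℝ≥0∞) {E : Set ℝ} (hE : MeasurableSet E) (N : ℕ) :
    ∫⁻ x, kf τ E N x ≠ ∞ := by
  unfold kf
  rw [lintegral_indicator (hE.inter measurableSet_Icc)]
  refine ne_top_of_le_ne_top ?_ (lintegral_mono (fun x => min_le_right _ _))
  rw [setLIntegral_const]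
  apply ENNReal.mul_ne_top (ENNReal.natCast_ne_top N)
  refine ne_top_of_le_ne_top ?_ (measure_mono Set.inter_subset_right)
  rw [Real.volume_Icc]
  exact ENNReal.ofReal_ne_top

lemma kf_mono (τ : ℝ → ℝ≥0∞) (E : Set ℝ) : Monotone (kf τ E) := by
  intro N M hNM x
  unfold kf
  have h1 : (N : ℝ) ≤ M := by exact_mod_cast hNM
  by_cases hx : x ∈ E ∩ Set.Icc (-(N:ℝ)) N
  · have hx2 : x ∈ E ∩ Set.Icc (-(M:ℝ)) M :=
      ⟨hx.1, Set.Icc_subset_Icc (by linarith) h1 hx.2⟩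
    rw [Set.indicator_of_mem hx, Set.indicator_of_mem hx2]
    apply min_le_min_left
    exact_mod_cast hNM
  · rw [Set.indicator_of_notMem hx]; exact bot_le

lemma kf_iSup (τ : ℝ → ℝ≥0∞) (E : Set ℝ) (x : ℝ) :
    ⨆ N, kf τ E N x = E.indicator τ x := by
  by_cases hx : x ∈ E
  · rw [Set.indicator_of_mem hx]
    apply le_antisymm
    · apply iSup_le
      intro N
      unfold kf
      by_cases hx2 : x ∈ E ∩ Set.Icc (-(N:ℝ)) N
      · rw [Set.indicator_of_mem hx2]; exact min_le_left _ _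
      · rw [Set.indicator_of_notMem hx2]; exact bot_le
    · apply le_of_forall_lt
      intro c hc
      obtain ⟨n, hn⟩ := exists_nat_ge |x|
      obtain ⟨m, hm⟩ := ENNReal.exists_nat_gt (ne_top_of_lt hc)
      rw [lt_iSup_iff]
      refine ⟨max n m, ?_⟩
      have h1 : (n : ℝ) ≤ (max n m : ℕ) := by exact_mod_cast le_max_left _ _
      have h2 : x ∈ E ∩ Set.Icc (-((max n m : ℕ):ℝ)) (max n m : ℕ) :=
        ⟨hx, abs_le.1 (hn.trans h1)⟩
      unfold kf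
      rw [Set.indicator_of_mem h2]
      apply lt_min hc
      refine hm.trans_le ?_
      exact_mod_cast le_max_right n m
  · rw [Set.indicator_of_notMem hx]
    rw [← bot_eq_zero, iSup_eq_bot]
    intro N
    unfold kf
    rw [Set.indicator_of_notMem]
    · rfl
    · exact fun h2 => hx h2.1

lemma kf_sup {τ : ℝ → ℝ≥0∞} (hτ : Measurable τ) {E : Set ℝ} (hE : MeasurableSet E) :
    ⨆ N, ∫⁻ x, kf τ E N x = ∫⁻ x in E, τ x := by
  rw [← lintegral_iSup (fun N => kf_meas hτ hE N) (kf_mono τ E), ← lintegral_indicator hE]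
  apply lintegral_congr
  intro x
  exact kf_iSup τ E x

lemma kf_pow {p : ℝ} (hp : 1 < p) (v : ℝ → ℝ≥0∞) (E : Set ℝ) (N : ℕ) (x : ℝ) :
    kf (fun x => v x ^ (-1 / (p - 1))) E N x ^ p * v x ≤ kf (fun x => v x ^ (-1 / (p - 1))) E N x := by
  set k := kf (fun x => v x ^ (-1 / (p - 1))) E N x with hk
  have hp1 : 0 < p - 1 := by linarith
  by_cases h0 : k = 0
  · rw [h0, ENNReal.zero_rpow_of_pos (by linarith), zero_mul]
  have hkt : k ≠ ∞ := kf_ne_top _ _ _ _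
  have h1 : k ^ p = k * k ^ (p - 1) := by
    conv_lhs => rw [show p = 1 + (p - 1) by ring]
    rw [ENNReal.rpow_add _ _ h0 hkt, ENNReal.rpow_one]
  have h2 : k ≤ v x ^ (-1 / (p - 1)) := by
    rw [hk]
    unfold kf
    by_cases hx : x ∈ E ∩ Set.Icc (-(N:ℝ)) N
    · rw [Set.indicator_of_mem hx]; exact min_le_left _ _
    · rw [Set.indicator_of_notMem hx]; exact bot_le
  have h3 : k ^ (p - 1) * v x ≤ 1 := by
    calc k ^ (p - 1) * v x ≤ (v x ^ (-1 / (p - 1))) ^ (p - 1) * v x :=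
          mul_le_mul' (ENNReal.rpow_le_rpow h2 hp1.le) le_rfl
      _ = (v x)⁻¹ * v x := by
          rw [← ENNReal.rpow_mul, div_mul_cancel₀ _ hp1.ne', ENNReal.rpow_neg_one]
      _ ≤ 1 := ENNReal.inv_mul_le_one _
  calc k ^ p * v x = k * (k ^ (p - 1) * v x) := by rw [h1, mul_assoc]
    _ ≤ k * 1 := mul_le_mul' le_rfl h3
    _ = k := mul_one _

/-- `toReal` of the truncations -/
lemma kf_toReal {τ : ℝ → ℝ≥0∞} (hτ : Measurable τ) {E : Set ℝ} (hE : MeasurableSet E) (N : ℕ) :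
    Integrable (fun x => (kf τ E N x).toReal) ∧
      ∫ x, (kf τ E N x).toReal = (∫⁻ x, kf τ E N x).toReal := by
  refine ⟨integrable_toReal_of_lintegral_ne_top (kf_meas hτ hE N).aemeasurable
    (kf_lint_ne_top τ hE N), ?_⟩
  exact integral_toReal (kf_meas hτ hE N).aemeasurable
    (ae_of_all _ fun x => lt_of_le_of_ne le_top (kf_ne_top _ _ _ _))

/-- extremal functions -/
lemma extremal {p : ℝ} (hp : 1 < p) {v : ℝ → ℝ≥0∞} (hv : Measurable v) {E : Set ℝ}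
    (hE : MeasurableSet E) {c A : ℝ≥0∞}
    (H : ∀ h : ℝ → ℝ, Measurable h → Integrable h → (∀ y, 0 ≤ h y) → (∀ y, h y ≠ 0 → y ∈ E) →
      c * ENNReal.ofReal (∫ y, h y) ^ p ≤ A * ∫⁻ x, ENNReal.ofReal (h x) ^ p * v x) :
    c * (∫⁻ x in E, v x ^ (-1 / (p - 1))) ^ (p - 1) ≤ A := by
  have hp1 : 0 < p - 1 := by linarith
  set τ : ℝ → ℝ≥0∞ := fun x => v x ^ (-1 / (p - 1)) with hτ
  have hτm : Measurable τ := hv.pow_const _
  have key : ∀ N, c * (∫⁻ x, kf τ E N x) ^ (p - 1) ≤ A := by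
    intro N
    set I := ∫⁻ x, kf τ E N x with hI
    have hIt : I ≠ ∞ := kf_lint_ne_top τ hE N
    by_cases hI0 : I = 0
    · rw [hI0, ENNReal.zero_rpow_of_pos hp1, mul_zero]; exact bot_le
    obtain ⟨h1, h2⟩ := kf_toReal hτm hE N
    have h3 := H (fun x => (kf τ E N x).toReal) (kf_meas hτm hE N).ennreal_toReal h1
      (fun y => ENNReal.toReal_nonneg) (fun y hy => by
        apply kf_supp (τ := τ) (N := N)
        intro h0; apply hy; rw [h0]; rfl)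
    rw [h2, ENNReal.ofReal_toReal hIt] at h3
    have h4 : ∫⁻ x, ENNReal.ofReal (kf τ E N x).toReal ^ p * v x ≤ I := by
      apply lintegral_mono
      intro x
      simp only
      rw [ENNReal.ofReal_toReal (kf_ne_top _ _ _ _)]
      exact kf_pow hp v E N x
    have h5 : c * I ^ (p - 1) * I ≤ A * I := by
      calc c * I ^ (p - 1) * I = c * I ^ p := by
            rw [mul_assoc]
            congr 1
            conv_rhs => rw [show p = (p - 1) + 1 by ring]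
            rw [ENNReal.rpow_add _ _ hI0 hIt, ENNReal.rpow_one]
        _ ≤ A * I := h3.trans (mul_le_mul' le_rfl h4)
    exact (ENNReal.mul_le_mul_iff_left hI0 hIt).1 h5
  rw [← kf_sup hτm hE]
  have h6 : (⨆ N, ∫⁻ x, kf τ E N x) ^ (p - 1) = ⨆ N, (∫⁻ x, kf τ E N x) ^ (p - 1) := by
    refine Monotone.map_iSup_of_continuousAt (f := fun x : ℝ≥0∞ => x ^ (p - 1)) ?_
      (ENNReal.monotone_rpow_of_nonneg hp1.le) ?_
    · exact ENNReal.continuous_rpow_const.continuousAt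
    · exact ENNReal.zero_rpow_of_pos hp1
  rw [h6, ENNReal.mul_iSup]
  exact iSup_le key

/-- cheap functions of integral one -/
lemma cheap {p : ℝ} (hp : 1 < p) {v : ℝ → ℝ≥0∞} (hv : Measurable v) {E : Set ℝ}
    (hE : MeasurableSet E) (hinf : ∫⁻ x in E, v x ^ (-1 / (p - 1)) = ∞) {ε : ℝ≥0∞} (hε : ε ≠ 0) :
    ∃ g : ℝ → ℝ, Integrable g ∧ (∀ y, 0 ≤ g y) ∧ (∫ y, g y = 1) ∧ (∀ y, g y ≠ 0 → y ∈ E) ∧
      ∫⁻ x, ENNReal.ofReal (g x) ^ p * v x ≤ ε := by
  have hp1 : 0 < p - 1 := by linarith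
  set τ : ℝ → ℝ≥0∞ := fun x => v x ^ (-1 / (p - 1)) with hτ
  have hτm : Measurable τ := hv.pow_const _
  obtain ⟨ε', hε'0, hε'⟩ : ∃ ε' : ℝ≥0∞, ε' ≠ 0 ∧ ε' ≤ ε ∧ ε' ≠ ∞ :=
    ⟨min ε 1, by simp [hε], min_le_left _ _, ne_top_of_le_ne_top ENNReal.one_ne_top (min_le_right _ _)⟩
  obtain ⟨hε'ε, hε't⟩ := hε'
  set M : ℝ≥0∞ := ε' ^ (-1 / (p - 1)) with hM
  have hMt : M < ∞ := by
    rw [hM]
    apply lt_of_le_of_ne le_top
    apply ENNReal.rpow_ne_top_of_ne_zero hε'0 hε't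
  have h1 : M < ⨆ N, ∫⁻ x, kf τ E N x := by
    rw [kf_sup hτm hE, hinf]; exact hMt
  obtain ⟨N, hN⟩ := lt_iSup_iff.1 h1
  set I := ∫⁻ x, kf τ E N x with hI
  have hIt : I ≠ ∞ := kf_lint_ne_top τ hE N
  have hI0 : I ≠ 0 := (bot_le.trans_lt hN).ne'
  obtain ⟨h2, h3⟩ := kf_toReal hτm hE N
  refine ⟨fun x => (kf τ E N x).toReal / I.toReal, h2.div_const _,
    fun y => div_nonneg ENNReal.toReal_nonneg ENNReal.toReal_nonneg, ?_, ?_, ?_⟩
  · rw [integral_div, h3]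
    exact div_self (ENNReal.toReal_ne_zero.2 ⟨hI0, hIt⟩)
  · intro y hy
    apply kf_supp (τ := τ) (N := N)
    intro h0; apply hy; simp [h0]
  · have h4 : ∀ x, ENNReal.ofReal ((kf τ E N x).toReal / I.toReal) ^ p * v x ≤
        I⁻¹ ^ p * kf τ E N x := by
      intro x
      rw [ENNReal.ofReal_div_of_pos (ENNReal.toReal_pos hI0 hIt),
        ENNReal.ofReal_toReal (kf_ne_top _ _ _ _), ENNReal.ofReal_toReal hIt, div_eq_mul_inv,
        ENNReal.mul_rpow_of_nonneg _ _ (by linarith), mul_comm (kf τ E N x ^ p), mul_assoc]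
      exact mul_le_mul' le_rfl (kf_pow hp v E N x)
    refine (lintegral_mono h4).trans ?_
    rw [lintegral_const_mul _ (kf_meas hτm hE N), ← hI, ENNReal.inv_rpow]
    have h5 : (I ^ p)⁻¹ * I = (I ^ (p - 1))⁻¹ := by
      rw [← ENNReal.rpow_neg, ← ENNReal.rpow_neg]
      conv_lhs => rw [← ENNReal.rpow_one I, ← ENNReal.rpow_mul, one_mul, ← ENNReal.rpow_add _ _ hI0 hIt]
      congr 1; ring
    rw [h5]
    refine le_trans ?_ hε'ε
    rw [ENNReal.inv_le_iff_inv_le]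
    calc ε'⁻¹ = M ^ (p - 1) := by
          rw [hM, ← ENNReal.rpow_mul, div_mul_cancel₀ _ hp1.ne', ENNReal.rpow_neg_one]
      _ ≤ I ^ (p - 1) := ENNReal.rpow_le_rpow hN.le hp1.le

end Pool.Agent.Y247.Hil
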