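import Pool.Agent.Y247.Hil.Nec2

/-!
Necessity: the general two-set inequality.
-/

set_option autoImplicit false

namespace Pool.Agent.Y247.Hil

open MeasureTheory Metric Filter Topology
open scoped ENNReal NNReal

/-- the weight `U / |A₁ x + A₀|^p` -/
noncomputable def Vw (p : ℝ) (U : ℝ → ℝ) (A₁ A₀ : ℝ) (x : ℝ) : ℝ≥0∞ :=
  ENNReal.ofReal (U x / |A₁ * x + A₀| ^ p)

lemma Vw_meas {p : ℝ} {U : ℝ → ℝ} (hUm : Measurable U) (A₁ A₀ : ℝ) : Measurable (Vw p U A₁ A₀) := by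
  unfold Vw
  exact (hUm.div ((by fun_prop : Measurable fun x : ℝ => |A₁ * x + A₀|).pow_const _)).ennreal_ofReal

/-- the hypothesis of admissibility -/
def Adm (p : ℝ) (U : ℝ → ℝ) (C : ℝ≥0) : Prop :=
  ∀ f : ℝ → ℂ, Integrable f → ∫ x, f x = 0 →
      ∫⁻ x, ‖hilbert f x‖ₑ ^ p * ENNReal.ofReal (U x) ≤
        C * ∫⁻ x, ‖f x‖ₑ ^ p * ENNReal.ofReal (U x)

theorem testB {p : ℝ} (hp : 1 < p) {U : ℝ → ℝ} (hU0 : ∀ x, 0 ≤ U x) (hUm : Measurable U)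
    {C : ℝ≥0} (hC : Adm p U C) (A₁ A₀ : ℝ) {η : ℝ} (hη : 0 < η) {E S : Set ℝ}
    (hE : MeasurableSet E) (hS : MeasurableSet S) {D s : ℝ} (hD : 0 < D) (hs : |s| = 1) {B : ℝ≥0}
    (hα : ∀ y ∈ E, η ≤ |A₁ * y + A₀|)
    (hoff : ∀ x ∈ S, ∃ δ > 0, ∀ y ∈ E, δ ≤ |y - x|)
    (hsxy : ∀ x ∈ S, ∀ y ∈ E, 0 < s * (x - y) ∧ s * (x - y) ≤ D)
    (Hg : ∀ h : ℝ → ℝ, Measurable h → Integrable h → (∀ y, 0 ≤ h y) → (∀ y, h y ≠ 0 → y ∈ E) →
      ∀ ε : ℝ≥0∞, ε ≠ 0 → ∃ g : ℝ → ℝ, Integrable g ∧ (∀ y, 0 ≤ g y) ∧ (∫ y, g y = 1) ∧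
        (∀ y, g y ≠ 0 → y ∉ E) ∧ (∀ x ∈ S, ∃ δ > 0, ∀ y, g y ≠ 0 → δ ≤ |y - x|) ∧
        (∀ x ∈ S, s * (∫ y, h y / (A₁ * y + A₀)) * (∫ y, (A₁ * y + A₀) * g y / (x - y)) ≤
          (∫ y, h y) / (2 * D)) ∧
        ENNReal.ofReal |∫ y, h y / (A₁ * y + A₀)| ^ p *
          ∫⁻ x, ENNReal.ofReal (g x) ^ p * ENNReal.ofReal (U x) ≤
            B * (∫⁻ x, ENNReal.ofReal (h x) ^ p * Vw p U A₁ A₀ x) + ε) :
    (∫⁻ x in S, Vw p U A₁ A₀ x) * (∫⁻ x in E, Vw p U A₁ A₀ x ^ (-1 / (p - 1))) ^ (p - 1) ≤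
      C * (1 + B) * ENNReal.ofReal (2 * Real.pi * D) ^ p := by
  have hp0 : 0 < p := by linarith
  have hpi := Real.pi_pos
  apply extremal hp (Vw_meas hUm A₁ A₀) hE
  intro h hhm hh hh0 hhE
  set X := ∫⁻ x, ENNReal.ofReal (h x) ^ p * Vw p U A₁ A₀ x with hX
  have key : ∀ ε : ℝ≥0∞, ε ≠ 0 →
      ENNReal.ofReal (((∫ y, h y) / D - (∫ y, h y) / (2 * D)) / Real.pi) ^ p *
        ∫⁻ x in S, Vw p U A₁ A₀ x ≤ C * (X + (B * X + ε)) := by
    intro ε hε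
    obtain ⟨g, hg, hg0, hg1, hgE, hgoff, hcorr, hgp⟩ := Hg h hhm hh hh0 hhE ε hε
    have h1 := test hp hU0 hUm.aemeasurable hC A₁ A₀ hη hh hh0 hg hg0 hg1
      (fun y hy => hα y (hhE y hy)) (fun y => by
        by_cases hy : h y = 0
        · exact Or.inl hy
        · right
          by_contra hgy
          exact hgE y hgy (hhE y hy)) hS hD hs (fun x hx => by
        obtain ⟨δ₁, hδ₁, h2⟩ := hoff x hx
        obtain ⟨δ₂, hδ₂, h3⟩ := hgoff x hx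
        refine ⟨min δ₁ δ₂, lt_min hδ₁ hδ₂, fun y hy => ?_⟩
        rcases hy with hy | hy
        · exact (min_le_left _ _).trans (h2 y (hhE y hy))
        · exact (min_le_right _ _).trans (h3 y hy)) (fun x hx y hy => hsxy x hx y (hhE y hy)) hcorr
    refine h1.trans ?_
    apply mul_le_mul' le_rfl
    exact add_le_add le_rfl hgp
  have key2 : ENNReal.ofReal (((∫ y, h y) / D - (∫ y, h y) / (2 * D)) / Real.pi) ^ p *
        ∫⁻ x in S, Vw p U A₁ A₀ x ≤ C * (1 + B) * X := by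
    apply ENNReal.le_of_forall_pos_le_add
    intro ε hε hfin
    by_cases hC0 : C = 0
    · have := key 1 one_ne_zero
      rw [hC0] at this ⊢
      simpa using le_trans this (by simp)
    have h2 := key ((ε : ℝ≥0∞) / C) (by
      apply (ENNReal.div_pos _ ENNReal.coe_ne_top).ne'
      exact_mod_cast hε.ne')
    refine h2.trans (le_of_eq ?_)
    have h3 : (C : ℝ≥0∞) * ((ε : ℝ≥0∞) / C) = ε :=
      ENNReal.mul_div_cancel (by exact_mod_cast hC0) ENNReal.coe_ne_top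
    calc (C : ℝ≥0∞) * (X + (B * X + (ε : ℝ≥0∞) / C)) =
        C * (1 + B) * X + C * ((ε : ℝ≥0∞) / C) := by ring
      _ = _ := by rw [h3]
  have hI0 : 0 ≤ ∫ y, h y := integral_nonneg hh0
  have e1 : ENNReal.ofReal (2 * Real.pi * D) ^ p *
      ENNReal.ofReal (((∫ y, h y) / D - (∫ y, h y) / (2 * D)) / Real.pi) ^ p =
        ENNReal.ofReal (∫ y, h y) ^ p := by
    rw [← ENNReal.mul_rpow_of_nonneg _ _ hp0.le, ← ENNReal.ofReal_mul (by positivity)]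
    congr 2
    field_simp
    ring
  calc (∫⁻ x in S, Vw p U A₁ A₀ x) * ENNReal.ofReal (∫ y, h y) ^ p
      = ENNReal.ofReal (2 * Real.pi * D) ^ p *
        (ENNReal.ofReal (((∫ y, h y) / D - (∫ y, h y) / (2 * D)) / Real.pi) ^ p *
        ∫⁻ x in S, Vw p U A₁ A₀ x) := by rw [← mul_assoc, e1, mul_comm]
    _ ≤ ENNReal.ofReal (2 * Real.pi * D) ^ p * (C * (1 + B) * X) := mul_le_mul' le_rfl key2
    _ = _ := by ring

/-- the correction is small when the carrier of the compensating mass is far away, relative to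
the size of the factor -/
theorem testFar {p : ℝ} (hp : 1 < p) {U : ℝ → ℝ} (hU0 : ∀ x, 0 ≤ U x) (hUm : Measurable U)
    {C : ℝ≥0} (hC : Adm p U C) (A₁ A₀ : ℝ) {η : ℝ} (hη : 0 < η) {E S : Set ℝ}
    (hE : MeasurableSet E) (hS : MeasurableSet S) {D s : ℝ} (hD : 0 < D) (hs : |s| = 1)
    (hα : ∀ y ∈ E, η ≤ |A₁ * y + A₀|)
    (hoff : ∀ x ∈ S, ∃ δ > 0, ∀ y ∈ E, δ ≤ |y - x|)
    (hsxy : ∀ x ∈ S, ∀ y ∈ E, 0 < s * (x - y) ∧ s * (x - y) ≤ D)
    (Hg : ∀ ρ : ℝ, 0 < ρ → ∃ G : Set ℝ, MeasurableSet G ∧ Disjoint G E ∧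
      (∃ δ > 0, ∀ x ∈ S, ∀ y ∈ G, δ ≤ |y - x| ∧ |A₁ * y + A₀| ≤ ρ * |x - y|) ∧
      ∫⁻ x in G, ENNReal.ofReal (U x) ^ (-1 / (p - 1)) = ∞) :
    (∫⁻ x in S, Vw p U A₁ A₀ x) * (∫⁻ x in E, Vw p U A₁ A₀ x ^ (-1 / (p - 1))) ^ (p - 1) ≤
      C * ENNReal.ofReal (2 * Real.pi * D) ^ p := by
  have hp0 : 0 < p := by linarith
  have h0 := testB hp hU0 hUm hC A₁ A₀ hη hE hS hD hs (B := 0) hα hoff hsxy ?_
  · simpa using h0
  intro h hhm hh hh0 hhE ε hε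
  set ρ : ℝ := η / (2 * D) with hρ
  have hρ0 : 0 < ρ := by positivity
  obtain ⟨G, hG, hGE, ⟨δ, hδ, hGS⟩, hinf⟩ := Hg ρ hρ0
  set m : ℝ := ∫ y, h y / (A₁ * y + A₀) with hm
  have hmle : |m| ≤ (∫ y, h y) / η := by
    rw [hm, ← integral_div]
    refine abs_integral_le_integral_abs.trans ?_
    apply integral_mono_of_nonneg (ae_of_all _ fun y => abs_nonneg _) (hh.div_const _)
    apply ae_of_all
    intro y
    simp only
    by_cases hy : h y = 0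
    · rw [hy]; simp
    · rw [abs_div, abs_of_nonneg (hh0 y)]
      exact div_le_div_of_nonneg_left (hh0 y) hη (hα y (hhE y hy))
  set ε' : ℝ≥0∞ := ε / (ENNReal.ofReal |m| ^ p + 1) with hε'
  have hden : ENNReal.ofReal |m| ^ p + 1 ≠ ∞ := by
    apply ENNReal.add_ne_top.2
    exact ⟨ENNReal.rpow_ne_top_of_nonneg hp0.le ENNReal.ofReal_ne_top, ENNReal.one_ne_top⟩
  have hε'0 : ε' ≠ 0 := (ENNReal.div_pos hε hden).ne'
  obtain ⟨g, hg, hg0, hg1, hgG, hgp⟩ := cheap hp hUm.ennreal_ofReal hG hinf hε'0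
  refine ⟨g, hg, hg0, hg1, fun y hy hyE => Set.disjoint_left.1 hGE (hgG y hy) hyE,
    fun x hx => ⟨δ, hδ, fun y hy => (hGS x hx y (hgG y hy)).1⟩, ?_, ?_⟩
  · intro x hx
    have h1 : |∫ y, (A₁ * y + A₀) * g y / (x - y)| ≤ ρ := by
      have h2 : ∫ y, ρ * g y = ρ := by rw [integral_const_mul, hg1, mul_one]
      rw [← h2]
      refine abs_integral_le_integral_abs.trans ?_
      apply integral_mono_of_nonneg (ae_of_all _ fun y => abs_nonneg _) (hg.const_mul _)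
      apply ae_of_all
      intro y
      simp only
      by_cases hy : g y = 0
      · rw [hy]; simp
      · obtain ⟨h3, h4⟩ := hGS x hx y (hgG y hy)
        have h5 : 0 < |x - y| := by rw [abs_sub_comm]; linarith
        rw [abs_div, abs_mul, abs_of_nonneg (hg0 y), div_le_iff₀ h5]
        have := mul_le_mul_of_nonneg_right h4 (hg0 y)
        linarith
    have h6 : s * m * (∫ y, (A₁ * y + A₀) * g y / (x - y)) ≤
        |s * m * (∫ y, (A₁ * y + A₀) * g y / (x - y))| := le_abs_self _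
    refine h6.trans ?_
    rw [abs_mul, abs_mul, hs, one_mul]
    calc |m| * |∫ y, (A₁ * y + A₀) * g y / (x - y)| ≤ ((∫ y, h y) / η) * ρ := by
          apply mul_le_mul hmle h1 (abs_nonneg _)
          exact div_nonneg (integral_nonneg hh0) hη.le
      _ = (∫ y, h y) / (2 * D) := by
          rw [hρ]; field_simp
  · rw [ENNReal.coe_zero, zero_mul, zero_add]
    calc ENNReal.ofReal |m| ^ p * ∫⁻ x, ENNReal.ofReal (g x) ^ p * ENNReal.ofReal (U x)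
        ≤ (ENNReal.ofReal |m| ^ p + 1) * ε' := mul_le_mul' le_self_add hgp
      _ ≤ ε := by rw [hε']; exact ENNReal.mul_div_le

end Pool.Agent.Y247.Hil
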