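import Pool.Agent.Y247.Hil.Nec3

/-!
Necessity: from adjacent intervals to the class `A_p`.
-/

set_option autoImplicit false

namespace Pool.Agent.Y247.Hil

open MeasureTheory Metric Filter Topology
open scoped ENNReal NNReal

/-- Hölder's inequality -/
lemma holder {p : ℝ} (hp : 1 < p) {v : ℝ → ℝ≥0∞} (hv : Measurable v) (h0 : ∀ᵐ x, v x ≠ 0)
    (ht : ∀ᵐ x, v x ≠ ∞) (E : Set ℝ) :
    volume E ^ p ≤ (∫⁻ x in E, v x) * (∫⁻ x in E, v x ^ (-1 / (p - 1))) ^ (p - 1) := by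
  have hp0 : 0 < p := by linarith
  have hp1 : 0 < p - 1 := by linarith
  set q : ℝ := p / (p - 1) with hq
  have hpq : p.HolderConjugate q := Real.HolderConjugate.conjExponent hp
  have h1 := ENNReal.lintegral_mul_le_Lp_mul_Lq (volume.restrict E) hpq
    (f := fun x => v x ^ (1 / p)) (g := fun x => v x ^ (-1 / p))
    (hv.pow_const _).aemeasurable (hv.pow_const _).aemeasurable
  have h2 : ∫⁻ x in E, ((fun x => v x ^ (1 / p)) * (fun x => v x ^ (-1 / p))) x = volume E := by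
    rw [← setLIntegral_one]
    apply lintegral_congr_ae
    filter_upwards [ae_restrict_of_ae h0, ae_restrict_of_ae ht] with x hx0 hxt
    simp only [Pi.mul_apply]
    rw [← ENNReal.rpow_add _ _ hx0 hxt, show 1 / p + -1 / p = 0 by ring, ENNReal.rpow_zero]
  have h3 : ∀ x, (v x ^ (1 / p)) ^ p = v x := by
    intro x
    rw [← ENNReal.rpow_mul, one_div, inv_mul_cancel₀ hp0.ne', ENNReal.rpow_one]
  have h4 : ∀ x, (v x ^ (-1 / p)) ^ q = v x ^ (-1 / (p - 1)) := by
    intro x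
    rw [← ENNReal.rpow_mul]
    congr 1
    rw [hq]; field_simp
  rw [h2] at h1
  simp only [h3, h4] at h1
  have h5 := ENNReal.rpow_le_rpow h1 hp0.le
  rw [ENNReal.mul_rpow_of_nonneg _ _ hp0.le, ← ENNReal.rpow_mul, ← ENNReal.rpow_mul, one_div,
    inv_mul_cancel₀ hp0.ne', ENNReal.rpow_one] at h5
  have h6 : 1 / q * p = p - 1 := by rw [hq]; field_simp
  rwa [h6] at h5

/-- the product of the two one-sided estimates -/
lemma self_imp {p : ℝ} (hp : 1 < p) {v : ℝ → ℝ≥0∞} (hv : Measurable v) (h0 : ∀ᵐ x, v x ≠ 0)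
    (ht : ∀ᵐ x, v x ≠ ∞) {I J : Set ℝ} {l A : ℝ≥0∞} (hl0 : l ≠ 0) (hlt : l ≠ ∞)
    (hJ : l ≤ volume J)
    (h1 : (∫⁻ x in J, v x) * (∫⁻ x in I, v x ^ (-1 / (p - 1))) ^ (p - 1) ≤ A * l ^ p)
    (h2 : (∫⁻ x in I, v x) * (∫⁻ x in J, v x ^ (-1 / (p - 1))) ^ (p - 1) ≤ A * l ^ p) :
    (∫⁻ x in I, v x) * (∫⁻ x in I, v x ^ (-1 / (p - 1))) ^ (p - 1) ≤ A ^ 2 * l ^ p := by
  have hp0 : 0 < p := by linarith
  have hp1 : 0 < p - 1 := by linarith
  have hlp0 : l ^ p ≠ 0 := by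
    rw [ne_eq, ENNReal.rpow_eq_zero_iff]
    push Not
    exact ⟨fun h => absurd h hl0, fun h => absurd h hlt⟩
  have hlpt : l ^ p ≠ ∞ := ENNReal.rpow_ne_top_of_nonneg hp0.le hlt
  have h3 := (ENNReal.rpow_le_rpow hJ hp0.le).trans (holder hp hv h0 ht J)
  refine (ENNReal.mul_le_mul_iff_right hlp0 hlpt).1 ?_
  set a := ∫⁻ x in I, v x
  set b := ∫⁻ x in J, v x
  set c := (∫⁻ x in I, v x ^ (-1 / (p - 1))) ^ (p - 1)
  set d := (∫⁻ x in J, v x ^ (-1 / (p - 1))) ^ (p - 1)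
  calc l ^ p * (a * c) ≤ (b * d) * (a * c) := mul_le_mul' h3 le_rfl
    _ = (b * c) * (a * d) := by ring
    _ ≤ (A * l ^ p) * (A * l ^ p) := mul_le_mul' h1 h2
    _ = l ^ p * (A ^ 2 * l ^ p) := by ring

lemma rpow_top_of {p : ℝ} (hp : 1 < p) {v : ℝ → ℝ≥0∞} (hv : Measurable v) {E : Set ℝ}
    (h0 : ∫⁻ x in E, v x = 0) (hE : volume E ≠ 0) :
    ∫⁻ x in E, v x ^ (-1 / (p - 1)) = ∞ := by
  rw [lintegral_eq_zero_iff hv] at h0
  have h1 : ∫⁻ x in E, v x ^ (-1 / (p - 1)) = ∫⁻ x in E, ∞ := by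
    apply lintegral_congr_ae
    filter_upwards [h0] with x hx
    have hx' : v x = 0 := hx
    rw [hx', ENNReal.zero_rpow_of_neg]
    apply div_neg_of_neg_of_pos (by norm_num) (by linarith)
  rw [h1, setLIntegral_const, ENNReal.top_mul hE]

lemma pos_of_rpow {p : ℝ} (hp : 1 < p) {v : ℝ → ℝ≥0∞} (hv : Measurable v)
    (ht : ∀ᵐ x, v x ≠ ∞) {E : Set ℝ} (hE : volume E ≠ 0) :
    ∫⁻ x in E, v x ^ (-1 / (p - 1)) ≠ 0 := by
  intro h0
  rw [lintegral_eq_zero_iff (hv.pow_const _)] at h0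
  have h1 : ∀ᵐ x ∂(volume.restrict E), False := by
    filter_upwards [h0, ae_restrict_of_ae ht] with x hx hx2
    have hx' : v x ^ (-1 / (p - 1)) = 0 := hx
    rw [ENNReal.rpow_eq_zero_iff] at hx'
    rcases hx' with h3 | h3
    · have : -1 / (p - 1) < 0 := div_neg_of_neg_of_pos (by norm_num) (by linarith)
      linarith [h3.2]
    · exact hx2 h3.1
  rw [ae_iff] at h1
  simp only [not_false_eq_true, Set.ofPred_true, Measure.restrict_apply_univ] at h1
  exact hE h1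

/-- from the estimates for adjacent intervals to `A_p` -/
theorem adj_Ap {p : ℝ} (hp : 1 < p) {W : ℝ → ℝ} (hW0 : ∀ x, 0 ≤ W x) (hWm : Measurable W)
    (hne : ¬ W =ᵐ[volume] 0) {A : ℝ≥0}
    (hr : ∀ a b : ℝ, a < b → (∫⁻ x in Set.Ioc b (2 * b - a), ENNReal.ofReal (W x)) *
      (∫⁻ x in Set.Icc a b, ENNReal.ofReal (W x) ^ (-1 / (p - 1))) ^ (p - 1) ≤
        A * ENNReal.ofReal (b - a) ^ p)
    (hl : ∀ a b : ℝ, a < b → (∫⁻ x in Set.Ico (2 * a - b) a, ENNReal.ofReal (W x)) *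
      (∫⁻ x in Set.Icc a b, ENNReal.ofReal (W x) ^ (-1 / (p - 1))) ^ (p - 1) ≤
        A * ENNReal.ofReal (b - a) ^ p) : MemAp p W := by
  have hp0 : 0 < p := by linarith
  have hp1 : 0 < p - 1 := by linarith
  set v : ℝ → ℝ≥0∞ := fun x => ENNReal.ofReal (W x) with hv
  have hvm : Measurable v := hWm.ennreal_ofReal
  have hvt : ∀ᵐ x, v x ≠ ∞ := ae_of_all _ fun x => ENNReal.ofReal_ne_top
  set τ : Set ℝ → ℝ≥0∞ := fun E => ∫⁻ x in E, v x ^ (-1 / (p - 1)) with hτ
  have hbnd : ∀ a b : ℝ, (A : ℝ≥0∞) * ENNReal.ofReal (b - a) ^ p ≠ ∞ := fun a b =>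
    ENNReal.mul_ne_top ENNReal.coe_ne_top (ENNReal.rpow_ne_top_of_nonneg hp0.le ENNReal.ofReal_ne_top)
  -- if τ is infinite on an interval then v vanishes off the interval
  have hclaim : ∀ a b : ℝ, a < b → τ (Set.Icc a b) = ∞ →
      (∫⁻ x in Set.Iio a, v x = 0) ∧ ∫⁻ x in Set.Ioi b, v x = 0 := by
    intro a b hab hinf
    have hz : ∀ x y : ℝ≥0∞, x * y ^ (p - 1) ≠ ∞ → y = ∞ → x = 0 := by
      intro x y h1 h2
      by_contra h3
      apply h1
      rw [h2, ENNReal.top_rpow_of_pos hp1, ENNReal.mul_top h3]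
    constructor
    · have h1 : ∀ n : ℕ, ∫⁻ x in Set.Ico (a - (b - a) - n) a, v x = 0 := by
        intro n
        have h2 := hl a (b + n) (by have : (0:ℝ) ≤ n := n.cast_nonneg; linarith)
        have h3 : 2 * a - (b + n) = a - (b - a) - n := by ring
        rw [h3] at h2
        apply hz _ (τ (Set.Icc a (b + n)))
        · exact ne_top_of_le_ne_top (hbnd _ _) h2
        · rw [eq_top_iff, ← hinf]
          apply lintegral_mono_set
          apply Set.Icc_subset_Icc le_rfl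
          have : (0:ℝ) ≤ n := n.cast_nonneg
          linarith
      have h2 : Set.Iio a ⊆ ⋃ n : ℕ, Set.Ico (a - (b - a) - n) a := by
        intro x hx
        obtain ⟨n, hn⟩ := exists_nat_ge (a - x)
        refine Set.mem_iUnion.2 ⟨n, ?_, hx⟩
        linarith
      refine le_antisymm ((lintegral_mono_set h2).trans ((lintegral_iUnion_le _ _).trans ?_)) bot_le
      simp [h1]
    · have h1 : ∀ n : ℕ, ∫⁻ x in Set.Ioc b (b + (b - a) + n), v x = 0 := by
        intro n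
        have h2 := hr (a - n) b (by have : (0:ℝ) ≤ n := n.cast_nonneg; linarith)
        have h3 : 2 * b - (a - n) = b + (b - a) + n := by ring
        rw [h3] at h2
        apply hz _ (τ (Set.Icc (a - n) b))
        · exact ne_top_of_le_ne_top (hbnd _ _) h2
        · rw [eq_top_iff, ← hinf]
          apply lintegral_mono_set
          apply Set.Icc_subset_Icc _ le_rfl
          have : (0:ℝ) ≤ n := n.cast_nonneg
          linarith
      have h2 : Set.Ioi b ⊆ ⋃ n : ℕ, Set.Ioc b (b + (b - a) + n) := by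
        intro x hx
        obtain ⟨n, hn⟩ := exists_nat_ge (x - b)
        refine Set.mem_iUnion.2 ⟨n, hx, ?_⟩
        linarith
      refine le_antisymm ((lintegral_mono_set h2).trans ((lintegral_iUnion_le _ _).trans ?_)) bot_le
      simp [h1]
  -- τ is finite on intervals
  have hτfin : ∀ a b : ℝ, a < b → τ (Set.Icc a b) ≠ ∞ := by
    intro a b hab hinf
    obtain ⟨h1, h2⟩ := hclaim a b hab hinf
    have h3 : τ (Set.Icc (b + 1) (b + 2)) = ∞ := by
      apply rpow_top_of hp hvm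
      · refine le_antisymm ?_ bot_le
        rw [← h2]
        apply lintegral_mono_set
        intro x hx
        have := hx.1
        show b < x
        linarith
      · rw [Real.volume_Icc]; simp
    obtain ⟨h4, h5⟩ := hclaim (b + 1) (b + 2) (by linarith) h3
    apply hne
    have h6 : ∫⁻ x, v x = 0 := by
      rw [← setLIntegral_univ]
      have h7 : (Set.univ : Set ℝ) ⊆ Set.Iio (b + 1) ∪ Set.Ioi b := by
        intro x _
        rcases lt_or_ge x (b + 1) with h | h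
        · exact Or.inl h
        · right
          show b < x
          linarith
      refine le_antisymm ((lintegral_mono_set h7).trans ((lintegral_union_le _ _ _).trans ?_)) bot_le
      rw [h4, h2, add_zero]
    rw [lintegral_eq_zero_iff hvm] at h6
    filter_upwards [h6] with x hx
    have hx' : ENNReal.ofReal (W x) = 0 := hx
    rw [ENNReal.ofReal_eq_zero] at hx'
    exact le_antisymm hx' (hW0 x)
  -- v is positive almost everywhere
  have hv0 : ∀ᵐ x, v x ≠ 0 := by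
    have h1 : ∀ n : ℕ, ∀ᵐ x ∂(volume.restrict (Set.Icc (-(n:ℝ) - 1) (n + 1))), v x ≠ 0 := by
      intro n
      have h2 := hτfin (-(n:ℝ) - 1) (n + 1) (by have : (0:ℝ) ≤ n := n.cast_nonneg; linarith)
      have h3 := ae_lt_top (hvm.pow_const _) h2
      filter_upwards [h3] with x hx h0
      rw [h0, ENNReal.zero_rpow_of_neg] at hx
      · exact lt_irrefl _ hx
      · apply div_neg_of_neg_of_pos (by norm_num) (by linarith)
    rw [← Measure.restrict_univ (μ := (volume : Measure ℝ))]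
    have h4 : (Set.univ : Set ℝ) = ⋃ n : ℕ, Set.Icc (-(n:ℝ) - 1) (n + 1) := by
      symm
      apply Set.eq_univ_of_forall
      intro x
      obtain ⟨n, hn⟩ := exists_nat_ge |x|
      have := abs_le.1 hn
      exact Set.mem_iUnion.2 ⟨n, by linarith, by linarith⟩
    rw [h4, ae_restrict_iUnion_iff]
    exact h1
  -- v is locally integrable
  have hvfin : ∀ a b : ℝ, a < b → ∫⁻ x in Set.Icc a b, v x ≠ ∞ := by
    intro a b hab h0
    have h1 := hr (2 * a - b) a (by linarith)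
    rw [show 2 * a - (2 * a - b) = b by ring] at h1
    have h2 : ∫⁻ x in Set.Ioc a b, v x = ∞ := by
      rw [← h0]; exact setLIntegral_congr Ioc_ae_eq_Icc
    have h3 : τ (Set.Icc (2 * a - b) a) ^ (p - 1) ≠ 0 := by
      rw [ne_eq, ENNReal.rpow_eq_zero_iff]
      push Not
      refine ⟨fun h => absurd h (pos_of_rpow hp hvm hvt ?_), fun h => absurd h (hτfin _ _ (by linarith))⟩
      rw [Real.volume_Icc, ne_eq, ENNReal.ofReal_eq_zero]
      linarith
    rw [h2, ENNReal.top_mul h3] at h1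
    exact hbnd _ _ (top_le_iff.1 h1)
  refine ⟨⟨hW0, ?_, hne⟩, (A ^ 2 : ℝ≥0), ?_⟩
  · intro x
    refine ⟨Set.Icc (x - 1) (x + 1), Icc_mem_nhds (by linarith) (by linarith), hWm.aestronglyMeasurable, ?_⟩
    rw [hasFiniteIntegral_iff_ofReal (ae_of_all _ hW0)]
    exact lt_of_le_of_ne le_top (hvfin _ _ (by linarith))
  · intro a b hab
    have hl0 : ENNReal.ofReal (b - a) ≠ 0 := by
      rw [ne_eq, ENNReal.ofReal_eq_zero]; linarith
    have hlt : ENNReal.ofReal (b - a) ≠ ∞ := ENNReal.ofReal_ne_top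
    have h1 := hr a b hab
    have h2 := hl b (2 * b - a) (by linarith)
    rw [show 2 * b - (2 * b - a) = a by ring, show 2 * b - a - b = b - a by ring] at h2
    have e1 : ∫⁻ x in Set.Ico a b, v x = ∫⁻ x in Set.Icc a b, v x := setLIntegral_congr Ico_ae_eq_Icc
    have e2 : ∫⁻ x in Set.Ioc b (2 * b - a), v x = ∫⁻ x in Set.Icc b (2 * b - a), v x :=
      setLIntegral_congr Ioc_ae_eq_Icc
    rw [e1] at h2
    rw [e2] at h1
    have h3 := self_imp hp hvm hv0 hvt (I := Set.Icc a b) (J := Set.Icc b (2 * b - a)) hl0 hlt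
      (by rw [Real.volume_Icc]; exact le_of_eq (by congr 1; ring)) h1 h2
    unfold mean
    rw [ENNReal.div_rpow_of_nonneg _ _ hp1.le, ENNReal.div_eq_inv_mul, ENNReal.div_eq_inv_mul]
    set l := ENNReal.ofReal (b - a) with hlset
    have h4 : l⁻¹ * (l ^ (p - 1))⁻¹ = (l ^ p)⁻¹ := by
      rw [← ENNReal.mul_inv (Or.inl hl0) (Or.inl hlt)]
      congr 1
      conv_lhs => rw [← ENNReal.rpow_one l, ← ENNReal.rpow_mul, one_mul, ← ENNReal.rpow_add _ _ hl0 hlt]
      congr 1; ring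
    have hlp0 : l ^ p ≠ 0 := by
      rw [ne_eq, ENNReal.rpow_eq_zero_iff]
      push Not
      exact ⟨fun h => absurd h hl0, fun h => absurd h hlt⟩
    have hlpt : l ^ p ≠ ∞ := ENNReal.rpow_ne_top_of_nonneg hp0.le hlt
    calc l⁻¹ * (∫⁻ x in Set.Icc a b, ENNReal.ofReal (W x)) *
          ((l ^ (p - 1))⁻¹ * (∫⁻ x in Set.Icc a b, ENNReal.ofReal (W x) ^ (-1 / (p - 1))) ^ (p - 1))
        = (l⁻¹ * (l ^ (p - 1))⁻¹) * ((∫⁻ x in Set.Icc a b, ENNReal.ofReal (W x)) *
          (∫⁻ x in Set.Icc a b, ENNReal.ofReal (W x) ^ (-1 / (p - 1))) ^ (p - 1)) := by ring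
      _ ≤ (l ^ p)⁻¹ * (A ^ 2 * l ^ p) := by
          rw [h4]; exact mul_le_mul' le_rfl h3
      _ = A ^ 2 * ((l ^ p)⁻¹ * l ^ p) := by ring
      _ = ((A ^ 2 : ℝ≥0) : ℝ≥0∞) := by
          rw [ENNReal.inv_mul_cancel hlp0 hlpt, mul_one]
          push_cast; rfl

end Pool.Agent.Y247.Hil
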