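import Pool.Agent.Y247.Hil.Nec4

/-!
Necessity: the cases where the dual weight is not integrable.
-/

set_option autoImplicit false

namespace Pool.Agent.Y247.Hil

open MeasureTheory Metric Filter Topology
open scoped ENNReal NNReal

lemma mono_limit {p : ℝ} (hp : 1 < p) {v τ : ℝ → ℝ≥0∞}
    {K : ℕ → Set ℝ} (hK : Monotone K)
    {z : ℝ} (hKu : ∀ x, x ≠ z → ∃ n, x ∈ K n) {I J : Set ℝ} {A : ℝ≥0∞}
    (h : ∀ n, (∫⁻ x in J ∩ K n, v x) * (∫⁻ x in I ∩ K n, τ x) ^ (p - 1) ≤ A) :
    (∫⁻ x in J, v x) * (∫⁻ x in I, τ x) ^ (p - 1) ≤ A := by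
  have hp1 : 0 < p - 1 := by linarith
  have e : ∀ (u : ℝ → ℝ≥0∞) (E : Set ℝ), ∫⁻ x in E, u x = ⨆ n, ∫⁻ x in E ∩ K n, u x := by
    intro u E
    have h1 : ∫⁻ x in E, u x = ∫⁻ x in ⋃ n, E ∩ K n, u x := by
      apply setLIntegral_congr
      rw [← Set.inter_iUnion]
      have h2 : (E \ (E ∩ ⋃ n, K n)) ⊆ {z} := by
        rintro x ⟨hx, hx2⟩
        by_contra hz
        apply hx2
        exact ⟨hx, Set.mem_iUnion.2 (hKu x hz)⟩
      rw [ae_eq_set]
      refine ⟨measure_mono_null h2 (by simp), ?_⟩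
      have : (E ∩ ⋃ n, K n) \ E = ∅ := by
        ext x; simp only [Set.mem_sdiff, Set.mem_inter_iff, Set.mem_empty_iff_false, iff_false]
        tauto
      rw [this, measure_empty]
    rw [h1]
    apply setLIntegral_iUnion_of_directed
    apply Monotone.directed_le
    intro i j hij x hx
    exact ⟨hx.1, hK hij hx.2⟩
  have hm : ∀ (u : ℝ → ℝ≥0∞) (E : Set ℝ), Monotone fun n => ∫⁻ x in E ∩ K n, u x := by
    intro u E i j hij
    exact lintegral_mono_set (Set.inter_subset_inter_right _ (hK hij))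
  rw [e v J, e τ I]
  have h6 : (⨆ n, ∫⁻ x in I ∩ K n, τ x) ^ (p - 1) = ⨆ n, (∫⁻ x in I ∩ K n, τ x) ^ (p - 1) := by
    refine Monotone.map_iSup_of_continuousAt (f := fun x : ℝ≥0∞ => x ^ (p - 1)) ?_
      (ENNReal.monotone_rpow_of_nonneg hp1.le) ?_
    · exact ENNReal.continuous_rpow_const.continuousAt
    · exact ENNReal.zero_rpow_of_pos hp1
  rw [h6, ENNReal.mul_iSup]
  apply iSup_le
  intro m
  rw [ENNReal.iSup_mul]
  apply iSup_le
  intro n
  refine le_trans ?_ (h (max n m))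
  apply mul_le_mul'
  · exact hm v J (le_max_left _ _)
  · exact ENNReal.rpow_le_rpow (hm τ I (le_max_right _ _)) hp1.le

/-- the dual weight is not integrable near `c` -/
theorem case_one {p : ℝ} (hp : 1 < p) {U : ℝ → ℝ} (hU0 : ∀ x, 0 ≤ U x) (hUm : Measurable U)
    (hne : ¬ U =ᵐ[volume] 0) {C : ℝ≥0} (hC : Adm p U C) (c : ℝ)
    (hc : ∀ r : ℝ, 0 < r → ∫⁻ x in Set.Icc (c - r) (c + r), ENNReal.ofReal (U x) ^ (-1 / (p - 1)) = ∞) :
    MemAp p (fun x => U x / |x - c| ^ p) := by
  have hp0 : 0 < p := by linarith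
  have hVeq : ∀ x, Vw p U 1 (-c) x = ENNReal.ofReal (U x / |x - c| ^ p) := by
    intro x
    unfold Vw
    rw [one_mul, ← sub_eq_add_neg]
  -- the good sets
  set K : ℕ → Set ℝ := fun n => {x | 1 / ((n:ℝ) + 1) ≤ |x - c|} with hK
  have hKm : ∀ n, MeasurableSet (K n) := by
    intro n
    exact measurableSet_le measurable_const (by fun_prop)
  have hKmono : Monotone K := by
    intro i j hij x hx
    have h1 : 1 / ((i:ℝ) + 1) ≤ |x - c| := hx
    show 1 / ((j:ℝ) + 1) ≤ |x - c|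
    refine le_trans ?_ h1
    exact Nat.one_div_le_one_div hij
  have hKu : ∀ x, x ≠ c → ∃ n, x ∈ K n := by
    intro x hx
    obtain ⟨n, hn⟩ := exists_nat_one_div_lt (abs_pos.2 (sub_ne_zero.2 hx))
    exact ⟨n, hn.le⟩
  have key : ∀ (n : ℕ) (I J : Set ℝ) (_ : MeasurableSet I) (_ : MeasurableSet J) (s l : ℝ)
      (_ : 0 < l) (_ : |s| = 1) (_ : ∀ x ∈ J, ∃ δ > 0, ∀ y ∈ I, δ ≤ |y - x|)
      (_ : ∀ x ∈ J, ∀ y ∈ I, 0 < s * (x - y) ∧ s * (x - y) ≤ 2 * l),
      (∫⁻ x in J ∩ K n, ENNReal.ofReal (U x / |x - c| ^ p)) *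
        (∫⁻ x in I ∩ K n, ENNReal.ofReal (U x / |x - c| ^ p) ^ (-1 / (p - 1))) ^ (p - 1) ≤
        C * ENNReal.ofReal (2 * Real.pi * (2 * l)) ^ p := by
    intro n I J hI hJ s l hl hs hoff hsxy
    simp_rw [← hVeq]
    set η : ℝ := 1 / ((n:ℝ) + 1) with hη
    have hη0 : 0 < η := by positivity
    apply testFar hp hU0 hUm hC 1 (-c) hη0 (hI.inter (hKm n)) (hJ.inter (hKm n))
      (by linarith : 0 < 2 * l) hs
    · intro y hy
      have : 1 / ((n:ℝ) + 1) ≤ |y - c| := hy.2
      rw [one_mul, ← sub_eq_add_neg]; exact this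
    · intro x hx
      obtain ⟨δ, hδ, h1⟩ := hoff x hx.1
      exact ⟨δ, hδ, fun y hy => h1 y hy.1⟩
    · intro x hx y hy
      exact hsxy x hx.1 y hy.1
    · intro ρ hρ
      set r : ℝ := min (η / 2) (ρ * (η / 2)) with hr
      have hr0 : 0 < r := lt_min (by positivity) (by positivity)
      have hr1 : r ≤ η / 2 := min_le_left _ _
      have hr2 : r ≤ ρ * (η / 2) := min_le_right _ _
      have habs : ∀ y ∈ Set.Icc (c - r) (c + r), |y - c| ≤ r := by
        intro y hy
        rw [abs_le]; constructor <;> linarith [hy.1, hy.2]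
      refine ⟨Set.Icc (c - r) (c + r), measurableSet_Icc, ?_, ⟨η / 2, by positivity, ?_⟩, hc r hr0⟩
      · rw [Set.disjoint_left]
        intro y hy hy2
        have h1 := habs y hy
        have h2 : η ≤ |y - c| := hy2.2
        linarith
      · intro x hx y hy
        have h1 := habs y hy
        have h2 : η ≤ |x - c| := hx.2
        have h3 : |x - c| ≤ |x - y| + |y - c| := abs_sub_le _ _ _
        have h4 : η / 2 ≤ |x - y| := by linarith
        refine ⟨by rw [abs_sub_comm]; exact h4, ?_⟩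
        rw [one_mul, ← sub_eq_add_neg]
        calc |y - c| ≤ ρ * (η / 2) := h1.trans hr2
          _ ≤ ρ * |x - y| := mul_le_mul_of_nonneg_left h4 hρ.le
  have hWm : Measurable (fun x => U x / |x - c| ^ p) :=
    hUm.div ((by fun_prop : Measurable fun x : ℝ => |x - c|).pow_const _)
  have hcomb : ∀ l : ℝ, 0 < l → (C : ℝ≥0∞) * ENNReal.ofReal (2 * Real.pi * (2 * l)) ^ p =
      ((C * (Real.toNNReal (4 * Real.pi)) ^ p : ℝ≥0) : ℝ≥0∞) * ENNReal.ofReal l ^ p := by
    intro l hl
    have hpi := Real.pi_pos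
    rw [ENNReal.coe_mul, ENNReal.coe_rpow_of_nonneg _ hp0.le, mul_assoc (C : ℝ≥0∞),
      ← ENNReal.mul_rpow_of_nonneg _ _ hp0.le]
    congr 2
    have : ((Real.toNNReal (4 * Real.pi) : ℝ≥0) : ℝ≥0∞) = ENNReal.ofReal (4 * Real.pi) := rfl
    rw [this, ← ENNReal.ofReal_mul (by positivity)]
    congr 1; ring
  apply adj_Ap hp (fun x => div_nonneg (hU0 x) (Real.rpow_nonneg (abs_nonneg _) _)) hWm
    (A := C * (Real.toNNReal (4 * Real.pi)) ^ p)
  · intro h0
    apply hne
    have h1 : ∀ᵐ x : ℝ, x ≠ c := by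
      rw [ae_iff]; simp
    filter_upwards [h0, h1] with x hx hxc
    have h2 : U x / |x - c| ^ p = 0 := hx
    rw [div_eq_zero_iff] at h2
    rcases h2 with h2 | h2
    · exact h2
    · exact absurd h2 (Real.rpow_pos_of_pos (abs_pos.2 (sub_ne_zero.2 hxc)) _).ne'
  · intro a b hab
    rw [← hcomb (b - a) (by linarith)]
    apply mono_limit hp hKmono hKu
    intro n
    apply key n _ _ measurableSet_Icc measurableSet_Ioc 1 (b - a) (by linarith) abs_one
    · intro x hx
      refine ⟨x - b, by linarith [hx.1], fun y hy => ?_⟩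
      rw [abs_sub_comm, abs_of_nonneg (by linarith [hx.1, hy.2])]
      linarith [hy.2]
    · intro x hx y hy
      constructor <;> linarith [hx.1, hx.2, hy.1, hy.2]
  · intro a b hab
    rw [← hcomb (b - a) (by linarith)]
    apply mono_limit hp hKmono hKu
    intro n
    apply key n _ _ measurableSet_Icc measurableSet_Ico (-1) (b - a) (by linarith) (by simp)
    · intro x hx
      refine ⟨a - x, by linarith [hx.2], fun y hy => ?_⟩
      rw [abs_of_nonneg (by linarith [hx.2, hy.1])]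
      linarith [hy.1]
    · intro x hx y hy
      constructor <;> linarith [hx.1, hx.2, hy.1, hy.2]

/-- the dual weight is not integrable near infinity -/
theorem case_two {p : ℝ} (hp : 1 < p) {U : ℝ → ℝ} (hU0 : ∀ x, 0 ≤ U x) (hUm : Measurable U)
    (hne : ¬ U =ᵐ[volume] 0) {C : ℝ≥0} (hC : Adm p U C)
    (hc : ∀ r : ℝ, ∫⁻ x in {x : ℝ | r ≤ |x|}, ENNReal.ofReal (U x) ^ (-1 / (p - 1)) = ∞) :
    MemAp p U := by
  have hp0 : 0 < p := by linarith
  have hVeq : ∀ x, Vw p U 0 1 x = ENNReal.ofReal (U x) := by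
    intro x
    unfold Vw
    rw [zero_mul, zero_add, abs_one, Real.one_rpow, div_one]
  have key : ∀ (I J : Set ℝ) (_ : MeasurableSet I) (_ : MeasurableSet J) (s l R : ℝ)
      (_ : 0 < l) (_ : |s| = 1) (_ : ∀ x ∈ J, ∃ δ > 0, ∀ y ∈ I, δ ≤ |y - x|)
      (_ : ∀ x ∈ J, ∀ y ∈ I, 0 < s * (x - y) ∧ s * (x - y) ≤ 2 * l)
      (_ : ∀ x ∈ I, |x| ≤ R) (_ : ∀ x ∈ J, |x| ≤ R),
      (∫⁻ x in J, ENNReal.ofReal (U x)) *
        (∫⁻ x in I, ENNReal.ofReal (U x) ^ (-1 / (p - 1))) ^ (p - 1) ≤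
        C * ENNReal.ofReal (2 * Real.pi * (2 * l)) ^ p := by
    intro I J hI hJ s l R hl hs hoff hsxy hIR hJR
    simp_rw [← hVeq]
    apply testFar hp hU0 hUm hC 0 1 (η := 1) one_pos hI hJ (by linarith : 0 < 2 * l) hs
    · intro y _
      rw [zero_mul, zero_add, abs_one]
    · exact hoff
    · exact hsxy
    · intro ρ hρ
      refine ⟨{x | R + 1 + 1 / ρ ≤ |x|}, measurableSet_le measurable_const (by fun_prop), ?_,
        ⟨1, one_pos, ?_⟩, hc _⟩
      · rw [Set.disjoint_left]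
        intro y hy hy2
        have h1 : R + 1 + 1 / ρ ≤ |y| := hy
        have h2 := hIR y hy2
        have h3 : 0 < 1 / ρ := by positivity
        linarith
      · intro x hx y hy
        have h1 : R + 1 + 1 / ρ ≤ |y| := hy
        have h2 := hJR x hx
        have h3 : 0 < 1 / ρ := by positivity
        have h4 : |y| ≤ |y - x| + |x| := by
          have := abs_add_le (y - x) x
          rwa [sub_add_cancel] at this
        refine ⟨by linarith, ?_⟩
        rw [zero_mul, zero_add, abs_one, abs_sub_comm]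
        calc (1:ℝ) = ρ * (1 / ρ) := by field_simp
          _ ≤ ρ * |y - x| := mul_le_mul_of_nonneg_left (by linarith) hρ.le
  have hcomb : ∀ l : ℝ, 0 < l → (C : ℝ≥0∞) * ENNReal.ofReal (2 * Real.pi * (2 * l)) ^ p =
      ((C * (Real.toNNReal (4 * Real.pi)) ^ p : ℝ≥0) : ℝ≥0∞) * ENNReal.ofReal l ^ p := by
    intro l hl
    have hpi := Real.pi_pos
    rw [ENNReal.coe_mul, ENNReal.coe_rpow_of_nonneg _ hp0.le, mul_assoc (C : ℝ≥0∞),
      ← ENNReal.mul_rpow_of_nonneg _ _ hp0.le]
    congr 2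
    have : ((Real.toNNReal (4 * Real.pi) : ℝ≥0) : ℝ≥0∞) = ENNReal.ofReal (4 * Real.pi) := rfl
    rw [this, ← ENNReal.ofReal_mul (by positivity)]
    congr 1; ring
  apply adj_Ap hp hU0 hUm hne (A := C * (Real.toNNReal (4 * Real.pi)) ^ p)
  · intro a b hab
    rw [← hcomb (b - a) (by linarith)]
    apply key _ _ measurableSet_Icc measurableSet_Ioc 1 (b - a) (|a| + |b| + 2 * (b - a))
      (by linarith) abs_one
    · intro x hx
      refine ⟨x - b, by linarith [hx.1], fun y hy => ?_⟩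
      rw [abs_sub_comm, abs_of_nonneg (by linarith [hx.1, hy.2])]
      linarith [hy.2]
    · intro x hx y hy
      constructor <;> linarith [hx.1, hx.2, hy.1, hy.2]
    · intro x hx
      have h1 := neg_abs_le a
      have h2 := le_abs_self b
      have h3 := abs_nonneg a
      have h4 := abs_nonneg b
      rw [abs_le]; constructor <;> linarith [hx.1, hx.2]
    · intro x hx
      have h1 := neg_abs_le a
      have h2 := le_abs_self b
      have h3 := abs_nonneg a
      have h4 := abs_nonneg b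
      rw [abs_le]; constructor <;> linarith [hx.1, hx.2]
  · intro a b hab
    rw [← hcomb (b - a) (by linarith)]
    apply key _ _ measurableSet_Icc measurableSet_Ico (-1) (b - a) (|a| + |b| + 2 * (b - a))
      (by linarith) (by simp)
    · intro x hx
      refine ⟨a - x, by linarith [hx.2], fun y hy => ?_⟩
      rw [abs_of_nonneg (by linarith [hx.2, hy.1])]
      linarith [hy.1]
    · intro x hx y hy
      constructor <;> linarith [hx.1, hx.2, hy.1, hy.2]
    · intro x hx
      have h1 := neg_abs_le a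
      have h2 := le_abs_self b
      have h3 := abs_nonneg a
      have h4 := abs_nonneg b
      rw [abs_le]; constructor <;> linarith [hx.1, hx.2]
    · intro x hx
      have h1 := neg_abs_le a
      have h2 := le_abs_self b
      have h3 := abs_nonneg a
      have h4 := abs_nonneg b
      rw [abs_le]; constructor <;> linarith [hx.1, hx.2]

/-- if the dual weight is locally integrable then it is integrable on bounded sets -/
lemma loc_fin {σ : ℝ → ℝ≥0∞} (h : ∀ c : ℝ, ∃ r : ℝ, 0 < r ∧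
    ∫⁻ x in Set.Icc (c - r) (c + r), σ x ≠ ∞) (R : ℝ) : ∫⁻ x in Set.Icc (-R) R, σ x ≠ ∞ := by
  set ν : Measure ℝ := volume.withDensity σ with hν
  have : IsLocallyFiniteMeasure ν := by
    refine ⟨fun x => ?_⟩
    obtain ⟨r, hr, h1⟩ := h x
    refine ⟨Set.Icc (x - r) (x + r), Icc_mem_nhds (by linarith) (by linarith), ?_⟩
    rw [hν, withDensity_apply _ measurableSet_Icc]
    exact lt_of_le_of_ne le_top h1
  have h2 : ν (Set.Icc (-R) R) < ∞ := isCompact_Icc.measure_lt_top
  rw [hν, withDensity_apply _ measurableSet_Icc] at h2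
  exact h2.ne

end Pool.Agent.Y247.Hil
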