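import Pool.Agent.Y247.Hil.Nec5

/-!
Necessity: the case where the dual weight is integrable on the line.
-/

set_option autoImplicit false

namespace Pool.Agent.Y247.Hil

open MeasureTheory Metric Filter Topology
open scoped ENNReal NNReal

/-- Hölder's inequality, general form -/
lemma holder' {p : ℝ} (hp : 1 < p) {v F : ℝ → ℝ≥0∞} (hv : Measurable v) (hF : AEMeasurable F)
    (h0 : ∀ᵐ x, v x ≠ 0) (ht : ∀ᵐ x, v x ≠ ∞) :
    (∫⁻ x, F x) ^ p ≤ (∫⁻ x, F x ^ p * v x) * (∫⁻ x, v x ^ (-1 / (p - 1))) ^ (p - 1) := by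
  have hp0 : 0 < p := by linarith
  have hp1 : 0 < p - 1 := by linarith
  set q : ℝ := p / (p - 1) with hq
  have hpq : p.HolderConjugate q := Real.HolderConjugate.conjExponent hp
  have h1 := ENNReal.lintegral_mul_le_Lp_mul_Lq volume hpq
    (f := fun x => F x * v x ^ (1 / p)) (g := fun x => v x ^ (-1 / p))
    (hF.mul (hv.pow_const _).aemeasurable) (hv.pow_const _).aemeasurable
  have h2 : ∫⁻ x, ((fun x => F x * v x ^ (1 / p)) * (fun x => v x ^ (-1 / p))) x = ∫⁻ x, F x := by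
    apply lintegral_congr_ae
    filter_upwards [h0, ht] with x hx0 hxt
    simp only [Pi.mul_apply]
    rw [mul_assoc, ← ENNReal.rpow_add _ _ hx0 hxt, show 1 / p + -1 / p = 0 by ring,
      ENNReal.rpow_zero, mul_one]
  have h3 : ∀ x, (F x * v x ^ (1 / p)) ^ p = F x ^ p * v x := by
    intro x
    rw [ENNReal.mul_rpow_of_nonneg _ _ hp0.le, ← ENNReal.rpow_mul, one_div,
      inv_mul_cancel₀ hp0.ne', ENNReal.rpow_one]
  have h4 : ∀ x, (v x ^ (-1 / p)) ^ q = v x ^ (-1 / (p - 1)) := by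
    intro x
    rw [← ENNReal.rpow_mul]
    congr 1
    rw [hq]; field_simp
  rw [h2] at h1
  simp only [h3, h4] at h1
  have h5 := ENNReal.rpow_le_rpow h1 hp0.le
  rw [ENNReal.mul_rpow_of_nonneg _ _ hp0.le, ← ENNReal.rpow_mul, ← ENNReal.rpow_mul, one_div,
    inv_mul_cancel₀ hp0.ne', ENNReal.rpow_one] at h5
  have h6 : 1 / q * p = p - 1 := by rw [hq]; field_simp
  rwa [h6] at h5

/-- normalized indicators -/
lemma bump {a b : ℝ} (hab : a < b) :
    ∃ g : ℝ → ℝ, Integrable g ∧ (∀ y, 0 ≤ g y) ∧ (∫ y, g y = 1) ∧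
      (∀ y, g y ≠ 0 → y ∈ Set.Icc a b) ∧ ∀ y, g y ≤ 1 / (b - a) := by
  have h0 : 0 < b - a := by linarith
  refine ⟨(Set.Icc a b).indicator fun _ => 1 / (b - a), ?_, ?_, ?_, ?_, ?_⟩
  · rw [integrable_indicator_iff measurableSet_Icc]
    exact integrableOn_const (by rw [Real.volume_Icc]; exact ENNReal.ofReal_ne_top)
  · intro y
    apply Set.indicator_nonneg
    intro _ _; positivity
  · rw [integral_indicator measurableSet_Icc, setIntegral_const, smul_eq_mul, measureReal_def,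
      Real.volume_Icc, ENNReal.toReal_ofReal h0.le]
    field_simp
  · intro y hy
    by_contra h
    exact hy (Set.indicator_of_notMem h _)
  · intro y
    by_cases hy : y ∈ Set.Icc a b
    · rw [Set.indicator_of_mem hy]
    · rw [Set.indicator_of_notMem hy]; positivity

/-- comparison of dual integrals -/
lemma dual_comp {p : ℝ} (hp : 1 < p) {v w : ℝ → ℝ≥0∞} {κ : ℝ≥0∞} (hκ0 : κ ≠ 0) (hκt : κ ≠ ∞)
    {E : Set ℝ} (hE : MeasurableSet E) (h : ∀ x ∈ E, v x ≤ κ * w x) :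
    (∫⁻ x in E, w x ^ (-1 / (p - 1))) ^ (p - 1) ≤
      κ * (∫⁻ x in E, v x ^ (-1 / (p - 1))) ^ (p - 1) := by
  have hp1 : 0 < p - 1 := by linarith
  set r : ℝ := 1 / (p - 1) with hr
  have hr0 : 0 < r := by positivity
  have e : -1 / (p - 1) = -r := by rw [hr]; ring
  rw [e]
  have h1 : ∀ x ∈ E, w x ^ (-r) ≤ κ ^ r * v x ^ (-r) := by
    intro x hx
    rw [ENNReal.rpow_neg, ENNReal.rpow_neg]
    have h2 : v x ^ r ≤ κ ^ r * w x ^ r := by
      rw [← ENNReal.mul_rpow_of_nonneg _ _ hr0.le]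
      exact ENNReal.rpow_le_rpow (h x hx) hr0.le
    have hk0 : κ ^ r ≠ 0 := by
      rw [ne_eq, ENNReal.rpow_eq_zero_iff]
      push Not
      exact ⟨fun h => absurd h hκ0, fun h => absurd h hκt⟩
    have hkt : κ ^ r ≠ ∞ := ENNReal.rpow_ne_top_of_nonneg hr0.le hκt
    have h3 : (κ ^ r * w x ^ r)⁻¹ ≤ (v x ^ r)⁻¹ := ENNReal.inv_le_inv.2 h2
    rw [ENNReal.mul_inv (Or.inl hk0) (Or.inl hkt)] at h3
    calc (w x ^ r)⁻¹ = κ ^ r * ((κ ^ r)⁻¹ * (w x ^ r)⁻¹) := by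
          rw [← mul_assoc, ENNReal.mul_inv_cancel hk0 hkt, one_mul]
      _ ≤ _ := mul_le_mul' le_rfl h3
  have h2 : ∫⁻ x in E, w x ^ (-r) ≤ κ ^ r * ∫⁻ x in E, v x ^ (-r) := by
    rw [← lintegral_const_mul' _ _ (ENNReal.rpow_ne_top_of_nonneg hr0.le hκt)]
    exact setLIntegral_mono' hE h1
  calc (∫⁻ x in E, w x ^ (-r)) ^ (p - 1) ≤ (κ ^ r * ∫⁻ x in E, v x ^ (-r)) ^ (p - 1) :=
        ENNReal.rpow_le_rpow h2 hp1.le
    _ = _ := by
        rw [ENNReal.mul_rpow_of_nonneg _ _ hp1.le, ← ENNReal.rpow_mul]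
        congr 2
        rw [hr]
        rw [one_div, inv_mul_cancel₀ hp1.ne', ENNReal.rpow_one]

/-- the size of the mean -/
lemma mean_bound {p : ℝ} (hp : 1 < p) {U : ℝ → ℝ} (hU0 : ∀ x, 0 ≤ U x) (hUm : Measurable U)
    (hpos : ∀ᵐ x, ENNReal.ofReal (U x) ≠ 0) (A₁ A₀ : ℝ) {h : ℝ → ℝ} (hhm : Measurable h)
    (hh0 : ∀ y, 0 ≤ h y) :
    ENNReal.ofReal |∫ y, h y / (A₁ * y + A₀)| ^ p ≤
      (∫⁻ x, ENNReal.ofReal (h x) ^ p * Vw p U A₁ A₀ x) *
        (∫⁻ x, ENNReal.ofReal (U x) ^ (-1 / (p - 1))) ^ (p - 1) := by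
  have hp0 : 0 < p := by linarith
  have h1 : ENNReal.ofReal |∫ y, h y / (A₁ * y + A₀)| ≤ ∫⁻ y, ‖h y / (A₁ * y + A₀)‖ₑ := by
    rw [← Real.norm_eq_abs, ofReal_norm]
    exact enorm_integral_le_lintegral_enorm _
  refine (ENNReal.rpow_le_rpow h1 hp0.le).trans ?_
  have hm : Measurable fun y => ‖h y / (A₁ * y + A₀)‖ₑ :=
    (hhm.div (by fun_prop)).enorm
  refine (holder' hp hUm.ennreal_ofReal hm.aemeasurable hpos
    (ae_of_all _ fun x => ENNReal.ofReal_ne_top)).trans ?_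
  apply mul_le_mul' _ le_rfl
  apply lintegral_mono
  intro x
  simp only
  unfold Vw
  rw [← ofReal_norm, norm_div, Real.norm_eq_abs, Real.norm_eq_abs, abs_of_nonneg (hh0 x)]
  rw [ENNReal.ofReal_rpow_of_nonneg (div_nonneg (hh0 x) (abs_nonneg _)) hp0.le,
    ← ENNReal.ofReal_mul (Real.rpow_nonneg (div_nonneg (hh0 x) (abs_nonneg _)) _),
    ENNReal.ofReal_rpow_of_nonneg (hh0 x) hp0.le, ← ENNReal.ofReal_mul (Real.rpow_nonneg (hh0 x) _),
    Real.div_rpow (hh0 x) (abs_nonneg _)]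
  apply ENNReal.ofReal_le_ofReal
  apply le_of_eq
  ring

/-- two-set inequality with a fixed compensating bump of favourable sign -/
theorem testSign {p : ℝ} (hp : 1 < p) {U : ℝ → ℝ} (hU0 : ∀ x, 0 ≤ U x) (hUm : Measurable U)
    (hpos : ∀ᵐ x, ENNReal.ofReal (U x) ≠ 0)
    (hSig : ∫⁻ x, ENNReal.ofReal (U x) ^ (-1 / (p - 1)) ≠ ∞)
    {C : ℝ≥0} (hC : Adm p U C) (A₁ A₀ : ℝ) {η : ℝ} (hη : 0 < η) {E S : Set ℝ}
    (hE : MeasurableSet E) (hS : MeasurableSet S) {D s e : ℝ} (hD : 0 < D) (hs : |s| = 1)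
    (he : |e| = 1)
    (hα : ∀ y ∈ E, η ≤ e * (A₁ * y + A₀))
    (hoff : ∀ x ∈ S, ∃ δ > 0, ∀ y ∈ E, δ ≤ |y - x|)
    (hsxy : ∀ x ∈ S, ∀ y ∈ E, 0 < s * (x - y) ∧ s * (x - y) ≤ D)
    {a b M : ℝ} (hab : a < b) (haM : -M ≤ a) (hbM : b ≤ M)
    (hM : ∫⁻ x in Set.Icc (-M) M, ENNReal.ofReal (U x) ≠ ∞)
    (hGE : Disjoint (Set.Icc a b) E)
    (hGS : ∀ x ∈ S, ∃ δ > 0, ∀ y ∈ Set.Icc a b, δ ≤ |y - x|)
    (hsgn : ∀ x ∈ S, ∀ y ∈ Set.Icc a b, s * e * ((A₁ * y + A₀) / (x - y)) ≤ 0) :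
    (∫⁻ x in S, Vw p U A₁ A₀ x) * (∫⁻ x in E, Vw p U A₁ A₀ x ^ (-1 / (p - 1))) ^ (p - 1) ≤
      C * (1 + (∫⁻ x, ENNReal.ofReal (U x) ^ (-1 / (p - 1))) ^ (p - 1) *
        (ENNReal.ofReal (1 / (b - a)) ^ p * ∫⁻ x in Set.Icc (-M) M, ENNReal.ofReal (U x))) *
          ENNReal.ofReal (2 * Real.pi * D) ^ p := by
  have hp0 : 0 < p := by linarith
  have hp1 : 0 < p - 1 := by linarith
  have hba : 0 < b - a := by linarith
  set Sg := (∫⁻ x, ENNReal.ofReal (U x) ^ (-1 / (p - 1))) ^ (p - 1) with hSg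
  have hSgt : Sg ≠ ∞ := ENNReal.rpow_ne_top_of_nonneg hp1.le hSig
  set Bf := Sg * (ENNReal.ofReal (1 / (b - a)) ^ p * ∫⁻ x in Set.Icc (-M) M, ENNReal.ofReal (U x))
    with hBf
  have hBt : Bf ≠ ∞ := ENNReal.mul_ne_top hSgt (ENNReal.mul_ne_top
    (ENNReal.rpow_ne_top_of_nonneg hp0.le ENNReal.ofReal_ne_top) hM)
  have hB : ((Bf.toNNReal : ℝ≥0) : ℝ≥0∞) = Bf := ENNReal.coe_toNNReal hBt
  rw [← hB]
  obtain ⟨g, hg, hg0, hg1, hgG, hgb⟩ := bump hab
  apply testB hp hU0 hUm hC A₁ A₀ hη hE hS hD hs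
    (fun y hy => by
      calc η ≤ e * (A₁ * y + A₀) := hα y hy
        _ ≤ |e * (A₁ * y + A₀)| := le_abs_self _
        _ = |A₁ * y + A₀| := by rw [abs_mul, he, one_mul]) hoff hsxy
  intro h hhm hh hh0 hhE ε hε
  refine ⟨g, hg, hg0, hg1, fun y hy hyE => Set.disjoint_left.1 hGE (hgG y hy) hyE,
    fun x hx => ?_, ?_, ?_⟩
  · obtain ⟨δ, hδ, h1⟩ := hGS x hx
    exact ⟨δ, hδ, fun y hy => h1 y (hgG y hy)⟩
  · intro x hx
    have he2 : e * e = 1 := by rw [← abs_mul_abs_self, he]; norm_num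
    have h1 : 0 ≤ e * ∫ y, h y / (A₁ * y + A₀) := by
      rw [← integral_const_mul]
      apply integral_nonneg
      intro y
      simp only [Pi.zero_apply]
      by_cases hy : h y = 0
      · rw [hy]; simp
      · have h2 := hα y (hhE y hy)
        have h3 : e * (h y / (A₁ * y + A₀)) = h y / (e * (A₁ * y + A₀)) := by
          have h4 : A₁ * y + A₀ ≠ 0 := by
            intro h0; rw [h0, mul_zero] at h2; linarith
          have h5 : e ≠ 0 := by
            intro h0; rw [h0, zero_mul] at he2; exact zero_ne_one he2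
          field_simp
          linear_combination he2
        rw [h3]
        exact div_nonneg (hh0 y) (by linarith)
    have h2 : s * e * (∫ y, (A₁ * y + A₀) * g y / (x - y)) ≤ 0 := by
      rw [← integral_const_mul]
      apply integral_nonpos
      intro y
      simp only [Pi.zero_apply]
      by_cases hy : g y = 0
      · rw [hy]; simp
      · have h3 := hsgn x hx y (hgG y hy)
        have h4 : s * e * ((A₁ * y + A₀) * g y / (x - y)) =
            (s * e * ((A₁ * y + A₀) / (x - y))) * g y := by ring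
        rw [h4]
        exact mul_nonpos_of_nonpos_of_nonneg h3 (hg0 y)
    have h3 : s * (∫ y, h y / (A₁ * y + A₀)) * (∫ y, (A₁ * y + A₀) * g y / (x - y)) =
        (e * ∫ y, h y / (A₁ * y + A₀)) * (s * e * (∫ y, (A₁ * y + A₀) * g y / (x - y))) := by
      linear_combination (-(s * (∫ y, h y / (A₁ * y + A₀)) *
        (∫ y, (A₁ * y + A₀) * g y / (x - y)))) * he2
    rw [h3]
    refine (mul_nonpos_of_nonneg_of_nonpos h1 h2).trans ?_
    exact div_nonneg (integral_nonneg hh0) (by linarith)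
  · refine le_trans ?_ le_self_add
    rw [hB, hBf]
    have h1 := mean_bound hp hU0 hUm hpos A₁ A₀ hhm hh0
    have h2 : ∫⁻ x, ENNReal.ofReal (g x) ^ p * ENNReal.ofReal (U x) ≤
        ENNReal.ofReal (1 / (b - a)) ^ p * ∫⁻ x in Set.Icc (-M) M, ENNReal.ofReal (U x) := by
      rw [← lintegral_const_mul' _ _ (ENNReal.rpow_ne_top_of_nonneg hp0.le ENNReal.ofReal_ne_top),
        ← lintegral_indicator measurableSet_Icc]
      apply lintegral_mono
      intro x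
      simp only
      by_cases hx : g x = 0
      · rw [hx, ENNReal.ofReal_zero, ENNReal.zero_rpow_of_pos hp0, zero_mul]; exact bot_le
      · have h3 := hgG x hx
        rw [Set.indicator_of_mem (show x ∈ Set.Icc (-M) M from ⟨by linarith [h3.1], by linarith [h3.2]⟩)]
        apply mul_le_mul' _ le_rfl
        exact ENNReal.rpow_le_rpow (ENNReal.ofReal_le_ofReal (hgb x)) hp0.le
    refine (mul_le_mul' h1 h2).trans (le_of_eq ?_)
    ring

end Pool.Agent.Y247.Hil
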