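import Pool.Agent.Y247.Hil.Nec6

/-!
Necessity: the case where the dual weight is integrable on the line (conclusion).
-/

set_option autoImplicit false

namespace Pool.Agent.Y247.Hil

open MeasureTheory Metric Filter Topology
open scoped ENNReal NNReal

/-- the weight `U / (1+|x|)^p` -/
noncomputable def ww (p : ℝ) (U : ℝ → ℝ) (x : ℝ) : ℝ≥0∞ :=
  ENNReal.ofReal (U x / (1 + |x|) ^ p)

lemma ww_meas {p : ℝ} {U : ℝ → ℝ} (hUm : Measurable U) : Measurable (ww p U) := by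
  unfold ww
  exact (hUm.div ((by fun_prop : Measurable fun x : ℝ => 1 + |x|).pow_const _)).ennreal_ofReal

lemma eq_one_or {s : ℝ} (hs : |s| = 1) : s = 1 ∨ s = -1 := by
  rcases abs_choice s with h | h
  · left; rw [← h, hs]
  · right; linarith

/-- inner region -/
theorem inner {p : ℝ} (hp : 1 < p) {U : ℝ → ℝ} (hU0 : ∀ x, 0 ≤ U x) (hUm : Measurable U)
    (hpos : ∀ᵐ x, ENNReal.ofReal (U x) ≠ 0)
    (hSig : ∫⁻ x, ENNReal.ofReal (U x) ^ (-1 / (p - 1)) ≠ ∞)
    (hloc : ∀ M : ℝ, ∫⁻ x in Set.Icc (-M) M, ENNReal.ofReal (U x) ≠ ∞)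
    {C : ℝ≥0} (hC : Adm p U C) (R : ℝ) (hR : 0 ≤ R) :
    ∃ A : ℝ≥0, ∀ (s D : ℝ) (E S : Set ℝ), |s| = 1 → 0 < D → MeasurableSet E → MeasurableSet S →
      (∀ y ∈ E, |y| ≤ R) → (∀ x ∈ S, |x| ≤ R) → (∀ x ∈ S, ∃ δ > 0, ∀ y ∈ E, δ ≤ |y - x|) →
      (∀ x ∈ S, ∀ y ∈ E, 0 < s * (x - y) ∧ s * (x - y) ≤ D) →
      (∫⁻ x in S, ww p U x) * (∫⁻ x in E, ww p U x ^ (-1 / (p - 1))) ^ (p - 1) ≤
        A * ENNReal.ofReal D ^ p := by
  have hp0 : 0 < p := by linarith
  have hp1 : 0 < p - 1 := by linarith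
  have hpi := Real.pi_pos
  set Bf := (C : ℝ≥0∞) * (1 + (∫⁻ x, ENNReal.ofReal (U x) ^ (-1 / (p - 1))) ^ (p - 1) *
        (ENNReal.ofReal (1 / 1) ^ p * ∫⁻ x in Set.Icc (-(R + 2)) (R + 2), ENNReal.ofReal (U x)))
    with hBf
  have hBt : Bf ≠ ∞ := by
    apply ENNReal.mul_ne_top ENNReal.coe_ne_top
    apply ENNReal.add_ne_top.2 ⟨ENNReal.one_ne_top, ?_⟩
    exact ENNReal.mul_ne_top (ENNReal.rpow_ne_top_of_nonneg hp1.le hSig) (ENNReal.mul_ne_top
      (ENNReal.rpow_ne_top_of_nonneg hp0.le ENNReal.ofReal_ne_top) (hloc _))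
  set κ : ℝ≥0∞ := ENNReal.ofReal ((1 + R) ^ p) with hκ
  have hκ0 : κ ≠ 0 := by
    rw [hκ, ne_eq, ENNReal.ofReal_eq_zero, not_le]; positivity
  set At : ℝ≥0∞ := Bf * ENNReal.ofReal (2 * Real.pi) ^ p * κ with hAt
  have hAtt : At ≠ ∞ := ENNReal.mul_ne_top (ENNReal.mul_ne_top hBt
    (ENNReal.rpow_ne_top_of_nonneg hp0.le ENNReal.ofReal_ne_top)) ENNReal.ofReal_ne_top
  refine ⟨At.toNNReal, ?_⟩
  rw [ENNReal.coe_toNNReal hAtt]
  intro s D E S hs hD hE hS hER hSR hoff hsxy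
  have hV : ∀ x, Vw p U 0 1 x = ENNReal.ofReal (U x) := by
    intro x
    unfold Vw
    rw [zero_mul, zero_add, abs_one, Real.one_rpow, div_one]
  -- the interval of the bump
  obtain ⟨a, b, hab, hba, haM, hbM, hGR, hsg⟩ : ∃ a b : ℝ, a < b ∧ b - a = 1 ∧ -(R + 2) ≤ a ∧
      b ≤ R + 2 ∧ (∀ y ∈ Set.Icc a b, R + 1 ≤ |y|) ∧
      (∀ x ∈ S, ∀ y ∈ Set.Icc a b, s * 1 * ((0 * y + 1) / (x - y)) ≤ 0) := by
    rcases eq_one_or hs with h | h
    · refine ⟨R + 1, R + 2, by linarith, by ring, by linarith, le_rfl, ?_, ?_⟩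
      · intro y hy
        exact hy.1.trans (le_abs_self _)
      · intro x hx y hy
        have h1 := (abs_le.1 (hSR x hx)).2
        rw [h, zero_mul, zero_add, one_mul, one_mul]
        apply div_nonpos_of_nonneg_of_nonpos zero_le_one
        linarith [hy.1]
    · refine ⟨-(R + 2), -(R + 1), by linarith, by ring, le_rfl, by linarith, ?_, ?_⟩
      · intro y hy
        have := neg_abs_le y
        linarith [hy.2]
      · intro x hx y hy
        have h1 := (abs_le.1 (hSR x hx)).1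
        rw [h, zero_mul, zero_add, mul_one]
        have h2 : 0 ≤ 1 / (x - y) := by
          apply div_nonneg zero_le_one
          linarith [hy.2]
        linarith
  have h1 := testSign hp hU0 hUm hpos hSig hC 0 1 (η := 1) one_pos hE hS hD hs (e := 1) abs_one
    (by intro y _; simp) hoff hsxy hab haM hbM (hloc _)
    (by
      rw [Set.disjoint_left]
      intro y hy hyE
      have := hGR y hy
      have := hER y hyE
      linarith)
    (by
      intro x hx
      refine ⟨1, one_pos, fun y hy => ?_⟩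
      have h2 := hGR y hy
      have h3 := hSR x hx
      have h4 : |y| ≤ |y - x| + |x| := by
        have := abs_add_le (y - x) x
        rwa [sub_add_cancel] at this
      linarith) hsg
  simp_rw [hV] at h1
  rw [hba] at h1
  have h2 : (∫⁻ x in S, ww p U x) ≤ ∫⁻ x in S, ENNReal.ofReal (U x) := by
    apply lintegral_mono
    intro x
    unfold ww
    apply ENNReal.ofReal_le_ofReal
    apply div_le_self (hU0 x)
    apply Real.one_le_rpow _ hp0.le
    have := abs_nonneg x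
    linarith
  have h3 := dual_comp hp (v := fun x => ENNReal.ofReal (U x)) (w := ww p U) hκ0
    (ENNReal.ofReal_ne_top) hE (by
      intro x hx
      unfold ww
      rw [hκ, ← ENNReal.ofReal_mul (by positivity)]
      apply ENNReal.ofReal_le_ofReal
      have h4 : (0:ℝ) < 1 + |x| := by have := abs_nonneg x; linarith
      have h5 : 0 < (1 + |x|) ^ p := Real.rpow_pos_of_pos h4 _
      rw [← mul_div_assoc, le_div_iff₀ h5, mul_comm]
      apply mul_le_mul_of_nonneg_right _ (hU0 x)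
      apply Real.rpow_le_rpow h4.le _ hp0.le
      linarith [hER x hx])
  calc (∫⁻ x in S, ww p U x) * (∫⁻ x in E, ww p U x ^ (-1 / (p - 1))) ^ (p - 1)
      ≤ (∫⁻ x in S, ENNReal.ofReal (U x)) *
        (κ * (∫⁻ x in E, ENNReal.ofReal (U x) ^ (-1 / (p - 1))) ^ (p - 1)) := mul_le_mul' h2 h3
    _ = κ * ((∫⁻ x in S, ENNReal.ofReal (U x)) *
        (∫⁻ x in E, ENNReal.ofReal (U x) ^ (-1 / (p - 1))) ^ (p - 1)) := by ring
    _ ≤ κ * (Bf * ENNReal.ofReal (2 * Real.pi * D) ^ p) := mul_le_mul' le_rfl h1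
    _ = At * ENNReal.ofReal D ^ p := by
        rw [ENNReal.ofReal_mul (by positivity), ENNReal.mul_rpow_of_nonneg _ _ hp0.le, hAt]
        ring

/-- outer region -/
theorem outer {p : ℝ} (hp : 1 < p) {U : ℝ → ℝ} (hU0 : ∀ x, 0 ≤ U x) (hUm : Measurable U)
    (hpos : ∀ᵐ x, ENNReal.ofReal (U x) ≠ 0)
    (hSig : ∫⁻ x, ENNReal.ofReal (U x) ^ (-1 / (p - 1)) ≠ ∞)
    (hloc : ∀ M : ℝ, ∫⁻ x in Set.Icc (-M) M, ENNReal.ofReal (U x) ≠ ∞)
    {C : ℝ≥0} (hC : Adm p U C) :
    ∃ A : ℝ≥0, ∀ (e t s D : ℝ) (E S : Set ℝ), |e| = 1 → |t| = 1 → |s| = 1 → 0 < D →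
      MeasurableSet E → MeasurableSet S →
      (∀ y ∈ E, 1 ≤ e * y) → (∀ x ∈ S, 1 ≤ t * x) → (∀ x ∈ S, ∃ δ > 0, ∀ y ∈ E, δ ≤ |y - x|) →
      (∀ x ∈ S, ∀ y ∈ E, 0 < s * (x - y) ∧ s * (x - y) ≤ D) →
      (∫⁻ x in S, ww p U x) * (∫⁻ x in E, ww p U x ^ (-1 / (p - 1))) ^ (p - 1) ≤
        A * ENNReal.ofReal D ^ p := by
  have hp0 : 0 < p := by linarith
  have hp1 : 0 < p - 1 := by linarith
  have hpi := Real.pi_pos
  set Bf := (C : ℝ≥0∞) * (1 + (∫⁻ x, ENNReal.ofReal (U x) ^ (-1 / (p - 1))) ^ (p - 1) *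
        (ENNReal.ofReal (1 / (1 / 2)) ^ p * ∫⁻ x in Set.Icc (-(1:ℝ)) 1, ENNReal.ofReal (U x)))
    with hBf
  have hBt : Bf ≠ ∞ := by
    apply ENNReal.mul_ne_top ENNReal.coe_ne_top
    apply ENNReal.add_ne_top.2 ⟨ENNReal.one_ne_top, ?_⟩
    exact ENNReal.mul_ne_top (ENNReal.rpow_ne_top_of_nonneg hp1.le hSig) (ENNReal.mul_ne_top
      (ENNReal.rpow_ne_top_of_nonneg hp0.le ENNReal.ofReal_ne_top) (hloc _))
  set κ : ℝ≥0∞ := ENNReal.ofReal (2 ^ p) with hκ
  have hκ0 : κ ≠ 0 := by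
    rw [hκ, ne_eq, ENNReal.ofReal_eq_zero, not_le]; positivity
  set At : ℝ≥0∞ := Bf * ENNReal.ofReal (2 * Real.pi) ^ p * κ with hAt
  have hAtt : At ≠ ∞ := ENNReal.mul_ne_top (ENNReal.mul_ne_top hBt
    (ENNReal.rpow_ne_top_of_nonneg hp0.le ENNReal.ofReal_ne_top)) ENNReal.ofReal_ne_top
  refine ⟨At.toNNReal, ?_⟩
  rw [ENNReal.coe_toNNReal hAtt]
  intro e t s D E S he ht hs hD hE hS hEe hSt hoff hsxy
  have hET : ∀ (c : ℝ) (_ : |c| = 1) (y : ℝ), 1 ≤ c * y → 1 ≤ |y| := by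
    intro c hc y hy
    calc (1:ℝ) ≤ c * y := hy
      _ ≤ |c * y| := le_abs_self _
      _ = |y| := by rw [abs_mul, hc, one_mul]
  have hV : ∀ x, Vw p U 1 0 x = ENNReal.ofReal (U x / |x| ^ p) := by
    intro x
    unfold Vw
    rw [one_mul, add_zero]
  -- the interval of the bump
  set u : ℝ := -(s * e * t) with hu
  have hu1 : |u| = 1 := by rw [hu, abs_neg, abs_mul, abs_mul, hs, he, ht]; norm_num
  obtain ⟨a, b, hab, hba, haM, hbM, hGR, hsg⟩ : ∃ a b : ℝ, a < b ∧ b - a = 1 / 2 ∧ -1 ≤ a ∧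
      b ≤ 1 ∧ (∀ y ∈ Set.Icc a b, |y| ≤ 1 / 2) ∧ (∀ y ∈ Set.Icc a b, 0 ≤ u * y) := by
    rcases eq_one_or hu1 with h | h
    · refine ⟨0, 1 / 2, by norm_num, by norm_num, by norm_num, by norm_num, ?_, ?_⟩
      · intro y hy
        rw [abs_le]; constructor <;> linarith [hy.1, hy.2]
      · intro y hy
        rw [h]; linarith [hy.1]
    · refine ⟨-(1 / 2), 0, by norm_num, by norm_num, by norm_num, by norm_num, ?_, ?_⟩
      · intro y hy
        rw [abs_le]; constructor <;> linarith [hy.1, hy.2]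
      · intro y hy
        rw [h]; linarith [hy.2]
  have h1 := testSign hp hU0 hUm hpos hSig hC 1 0 (η := 1) one_pos hE hS hD hs (e := e) he
    (by intro y hy; rw [one_mul, add_zero]; exact hEe y hy) hoff hsxy hab haM hbM (hloc _)
    (by
      rw [Set.disjoint_left]
      intro y hy hyE
      have h2 := hGR y hy
      have h3 := hET e he y (hEe y hyE)
      linarith)
    (by
      intro x hx
      refine ⟨1 / 2, by norm_num, fun y hy => ?_⟩
      have h2 := hGR y hy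
      have h3 := hET t ht x (hSt x hx)
      have h4 : |x| ≤ |x - y| + |y| := by
        have := abs_add_le (x - y) y
        rwa [sub_add_cancel] at this
      rw [abs_sub_comm]
      linarith)
    (by
      intro x hx y hy
      rw [one_mul, add_zero]
      have h2 := hGR y hy
      have h3 := hSt x hx
      have h4 := hsg y hy
      have ht2 : t * t = 1 := by rw [← abs_mul_abs_self, ht]; norm_num
      have h5 : 0 < t * (x - y) := by
        have : t * y ≤ |t * y| := le_abs_self _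
        rw [abs_mul, ht, one_mul] at this
        linarith
      have h6 : s * e * (y / (x - y)) = -(u * y / (t * (x - y))) := by
        have h7 : x - y ≠ 0 := by
          intro h0; rw [h0, mul_zero] at h5; exact lt_irrefl _ h5
        have h8 : t ≠ 0 := by
          intro h0; rw [h0, zero_mul] at ht2; exact zero_ne_one ht2
        rw [hu]
        field_simp
      rw [h6]
      have := div_nonneg h4 h5.le
      linarith)
  simp_rw [hV] at h1
  rw [hba] at h1
  have h2 : (∫⁻ x in S, ww p U x) ≤ ∫⁻ x in S, ENNReal.ofReal (U x / |x| ^ p) := by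
    apply setLIntegral_mono' hS
    intro x hx
    unfold ww
    apply ENNReal.ofReal_le_ofReal
    have h3 := hET t ht x (hSt x hx)
    apply div_le_div_of_nonneg_left (hU0 x) (Real.rpow_pos_of_pos (by linarith) _)
    apply Real.rpow_le_rpow (abs_nonneg _) (by linarith) hp0.le
  have h3 := dual_comp hp (v := fun x => ENNReal.ofReal (U x / |x| ^ p)) (w := ww p U) hκ0
    (ENNReal.ofReal_ne_top) hE (by
      intro x hx
      unfold ww
      rw [hκ, ← ENNReal.ofReal_mul (by positivity)]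
      apply ENNReal.ofReal_le_ofReal
      have hx1 := hET e he x (hEe x hx)
      have h4 : (0:ℝ) < 1 + |x| := by linarith
      have h5 : 0 < (1 + |x|) ^ p := Real.rpow_pos_of_pos h4 _
      have h6 : 0 < |x| ^ p := Real.rpow_pos_of_pos (by linarith) _
      have h7 : (1 + |x|) ^ p ≤ 2 ^ p * |x| ^ p := by
        rw [← Real.mul_rpow (by norm_num) (abs_nonneg _)]
        apply Real.rpow_le_rpow h4.le _ hp0.le
        linarith
      rw [← mul_div_assoc, div_le_div_iff₀ h6 h5]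
      calc U x * (1 + |x|) ^ p ≤ U x * (2 ^ p * |x| ^ p) := mul_le_mul_of_nonneg_left h7 (hU0 x)
        _ = 2 ^ p * U x * |x| ^ p := by ring)
  calc (∫⁻ x in S, ww p U x) * (∫⁻ x in E, ww p U x ^ (-1 / (p - 1))) ^ (p - 1)
      ≤ (∫⁻ x in S, ENNReal.ofReal (U x / |x| ^ p)) *
        (κ * (∫⁻ x in E, ENNReal.ofReal (U x / |x| ^ p) ^ (-1 / (p - 1))) ^ (p - 1)) :=
          mul_le_mul' h2 h3
    _ = κ * ((∫⁻ x in S, ENNReal.ofReal (U x / |x| ^ p)) *
        (∫⁻ x in E, ENNReal.ofReal (U x / |x| ^ p) ^ (-1 / (p - 1))) ^ (p - 1)) := by ring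
    _ ≤ κ * (Bf * ENNReal.ofReal (2 * Real.pi * D) ^ p) := mul_le_mul' le_rfl h1
    _ = At * ENNReal.ofReal D ^ p := by
        rw [ENNReal.ofReal_mul (by positivity), ENNReal.mul_rpow_of_nonneg _ _ hp0.le, hAt]
        ring

end Pool.Agent.Y247.Hil
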