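import Pool.Agent.Y247.Hil.Nec7

/-!
Necessity: the theorem.
-/

set_option autoImplicit false

namespace Pool.Agent.Y247.Hil

open MeasureTheory Metric Filter Topology
open scoped ENNReal NNReal

/-- rewriting of the `A_p` condition -/
lemma mean_le {p : ℝ} (hp : 1 < p) {v : ℝ → ℝ≥0∞} {a b : ℝ} (hab : a < b) {A : ℝ≥0∞}
    (h3 : (∫⁻ x in Set.Icc a b, v x) * (∫⁻ x in Set.Icc a b, v x ^ (-1 / (p - 1))) ^ (p - 1) ≤
      A * ENNReal.ofReal (b - a) ^ p) :
    mean v a b * mean (fun x => v x ^ (-1 / (p - 1))) a b ^ (p - 1) ≤ A := by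
  have hp0 : 0 < p := by linarith
  have hp1 : 0 < p - 1 := by linarith
  have hl0 : ENNReal.ofReal (b - a) ≠ 0 := by
    rw [ne_eq, ENNReal.ofReal_eq_zero]; linarith
  have hlt : ENNReal.ofReal (b - a) ≠ ∞ := ENNReal.ofReal_ne_top
  unfold mean
  rw [ENNReal.div_rpow_of_nonneg _ _ hp1.le, ENNReal.div_eq_inv_mul, ENNReal.div_eq_inv_mul]
  set l := ENNReal.ofReal (b - a) with hlset
  have h4 : l⁻¹ * (l ^ (p - 1))⁻¹ = (l ^ p)⁻¹ := by
    rw [← ENNReal.mul_inv (Or.inl hl0) (Or.inl hlt)]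
    congr 1
    conv_lhs => rw [← ENNReal.rpow_one l, ← ENNReal.rpow_mul, one_mul, ← ENNReal.rpow_add _ _ hl0 hlt]
    congr 1; ring
  have hlp0 : l ^ p ≠ 0 := by
    rw [ne_eq, ENNReal.rpow_eq_zero_iff]
    push Not
    exact ⟨fun h => absurd h hl0, fun h => absurd h hlt⟩
  have hlpt : l ^ p ≠ ∞ := ENNReal.rpow_ne_top_of_nonneg hp0.le hlt
  calc l⁻¹ * (∫⁻ x in Set.Icc a b, v x) *
        ((l ^ (p - 1))⁻¹ * (∫⁻ x in Set.Icc a b, v x ^ (-1 / (p - 1))) ^ (p - 1))
      = (l⁻¹ * (l ^ (p - 1))⁻¹) * ((∫⁻ x in Set.Icc a b, v x) *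
        (∫⁻ x in Set.Icc a b, v x ^ (-1 / (p - 1))) ^ (p - 1)) := by ring
    _ ≤ (l ^ p)⁻¹ * (A * l ^ p) := by
        rw [h4]; exact mul_le_mul' le_rfl h3
    _ = A * ((l ^ p)⁻¹ * l ^ p) := by ring
    _ = A := by rw [ENNReal.inv_mul_cancel hlp0 hlpt, mul_one]

lemma int_ne_zero {v : ℝ → ℝ≥0∞} (hv : Measurable v) (h0 : ∀ᵐ x, v x ≠ 0) {E : Set ℝ}
    (hE : volume E ≠ 0) : ∫⁻ x in E, v x ≠ 0 := by
  intro h
  rw [lintegral_eq_zero_iff hv] at h
  have h1 : ∀ᵐ x ∂(volume.restrict E), False := by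
    filter_upwards [h, ae_restrict_of_ae h0] with x hx hx2
    exact hx2 hx
  rw [ae_iff] at h1
  simp only [not_false_eq_true, Set.ofPred_true, Measure.restrict_apply_univ] at h1
  exact hE h1

/-- both sides of a common end point -/
lemma combine {p : ℝ} (hp : 1 < p) {v : ℝ → ℝ≥0∞} (hv : Measurable v) (h0 : ∀ᵐ x, v x ≠ 0)
    (ht : ∀ᵐ x, v x ≠ ∞) {A : ℝ≥0∞} {a b : ℝ} (hab : a < b)
    (h1 : (∫⁻ x in Set.Ioc b (2 * b - a), v x) *
      (∫⁻ x in Set.Icc a b, v x ^ (-1 / (p - 1))) ^ (p - 1) ≤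
        A * ENNReal.ofReal (2 * (b - a)) ^ p)
    (h2 : (∫⁻ x in Set.Ico a b, v x) *
      (∫⁻ x in Set.Icc b (2 * b - a), v x ^ (-1 / (p - 1))) ^ (p - 1) ≤
        A * ENNReal.ofReal (2 * (b - a)) ^ p) :
    ((∫⁻ x in Set.Icc a b, v x) * (∫⁻ x in Set.Icc a b, v x ^ (-1 / (p - 1))) ^ (p - 1) ≤
      (A * ENNReal.ofReal 2 ^ p) ^ 2 * ENNReal.ofReal (b - a) ^ p) ∧
    ((∫⁻ x in Set.Icc b (2 * b - a), v x) *
      (∫⁻ x in Set.Icc b (2 * b - a), v x ^ (-1 / (p - 1))) ^ (p - 1) ≤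
      (A * ENNReal.ofReal 2 ^ p) ^ 2 * ENNReal.ofReal (b - a) ^ p) := by
  have hp0 : 0 < p := by linarith
  have e1 : ∫⁻ x in Set.Ico a b, v x = ∫⁻ x in Set.Icc a b, v x := setLIntegral_congr Ico_ae_eq_Icc
  have e2 : ∫⁻ x in Set.Ioc b (2 * b - a), v x = ∫⁻ x in Set.Icc b (2 * b - a), v x :=
    setLIntegral_congr Ioc_ae_eq_Icc
  have e3 : A * ENNReal.ofReal (2 * (b - a)) ^ p =
      (A * ENNReal.ofReal 2 ^ p) * ENNReal.ofReal (b - a) ^ p := by
    rw [ENNReal.ofReal_mul (by norm_num), ENNReal.mul_rpow_of_nonneg _ _ hp0.le, mul_assoc]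
  rw [e1, e3] at h2
  rw [e2, e3] at h1
  have hl0 : ENNReal.ofReal (b - a) ≠ 0 := by
    rw [ne_eq, ENNReal.ofReal_eq_zero]; linarith
  have hlt : ENNReal.ofReal (b - a) ≠ ∞ := ENNReal.ofReal_ne_top
  constructor
  · exact self_imp hp hv h0 ht hl0 hlt (by rw [Real.volume_Icc]; exact le_of_eq (by congr 1; ring))
      h1 h2
  · exact self_imp hp hv h0 ht hl0 hlt (by rw [Real.volume_Icc]) h2 h1

/-- the dual weight is integrable -/
theorem case_three {p : ℝ} (hp : 1 < p) {U : ℝ → ℝ} (hU0 : ∀ x, 0 ≤ U x) (hUm : Measurable U)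
    (hne : ¬ U =ᵐ[volume] 0)
    (hSig : ∫⁻ x, ENNReal.ofReal (U x) ^ (-1 / (p - 1)) ≠ ∞)
    (hloc : ∀ M : ℝ, ∫⁻ x in Set.Icc (-M) M, ENNReal.ofReal (U x) ≠ ∞)
    {C : ℝ≥0} (hC : Adm p U C) : MemAp p (fun x => U x / (1 + |x|) ^ p) := by
  have hp0 : 0 < p := by linarith
  have hp1 : 0 < p - 1 := by linarith
  have hneg : -1 / (p - 1) < 0 := div_neg_of_neg_of_pos (by norm_num) (by linarith)
  have hpos : ∀ᵐ x, ENNReal.ofReal (U x) ≠ 0 := by
    filter_upwards [ae_lt_top (hUm.ennreal_ofReal.pow_const _) hSig] with x hx h0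
    rw [h0, ENNReal.zero_rpow_of_neg hneg] at hx
    exact lt_irrefl _ hx
  have h1x : ∀ x : ℝ, (1:ℝ) ≤ 1 + |x| := fun x => by have := abs_nonneg x; linarith
  have h1p : ∀ x : ℝ, (1:ℝ) ≤ (1 + |x|) ^ p := fun x => Real.one_le_rpow (h1x x) hp0.le
  have hwm : Measurable (ww p U) := ww_meas hUm
  have hw0 : ∀ᵐ x, ww p U x ≠ 0 := by
    filter_upwards [hpos] with x hx h0
    unfold ww at h0
    rw [ENNReal.ofReal_eq_zero] at h0
    rw [ne_eq, ENNReal.ofReal_eq_zero, not_le] at hx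
    have := h1p x
    have h2 : 0 < U x / (1 + |x|) ^ p := by positivity
    linarith
  have hwt : ∀ᵐ x, ww p U x ≠ ∞ := ae_of_all _ fun x => ENNReal.ofReal_ne_top
  have hwU : ∀ x, ww p U x ≤ ENNReal.ofReal (U x) := by
    intro x
    unfold ww
    apply ENNReal.ofReal_le_ofReal
    exact div_le_self (hU0 x) (h1p x)
  have hwloc : ∀ M : ℝ, ∫⁻ x in Set.Icc (-M) M, ww p U x ≠ ∞ := fun M =>
    ne_top_of_le_ne_top (hloc M) (lintegral_mono hwU)
  -- the two-set inequalities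
  obtain ⟨Ai, hin⟩ := inner hp hU0 hUm hpos hSig hloc hC 9 (by norm_num)
  obtain ⟨Ao, hout⟩ := outer hp hU0 hUm hpos hSig hloc hC
  -- intervals in the inner region
  have hinner : ∀ a b : ℝ, a < b → -3 ≤ a → b ≤ 3 →
      (∫⁻ x in Set.Icc a b, ww p U x) * (∫⁻ x in Set.Icc a b, ww p U x ^ (-1 / (p - 1))) ^ (p - 1) ≤
      ((Ai : ℝ≥0∞) * ENNReal.ofReal 2 ^ p) ^ 2 * ENNReal.ofReal (b - a) ^ p := by
    intro a b hab ha hb
    refine (combine hp hwm hw0 hwt hab ?_ ?_).1
    · apply hin 1 (2 * (b - a)) _ _ abs_one (by linarith) measurableSet_Icc measurableSet_Ioc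
      · intro y hy
        rw [abs_le]; constructor <;> linarith [hy.1, hy.2]
      · intro y hy
        rw [abs_le]; constructor <;> linarith [hy.1, hy.2]
      · intro x hx
        refine ⟨x - b, by linarith [hx.1], fun y hy => ?_⟩
        rw [abs_sub_comm, abs_of_nonneg (by linarith [hx.1, hy.2])]
        linarith [hy.2]
      · intro x hx y hy
        constructor <;> linarith [hx.1, hx.2, hy.1, hy.2]
    · apply hin (-1) (2 * (b - a)) _ _ (by simp) (by linarith) measurableSet_Icc measurableSet_Ico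
      · intro y hy
        rw [abs_le]; constructor <;> linarith [hy.1, hy.2]
      · intro y hy
        rw [abs_le]; constructor <;> linarith [hy.1, hy.2]
      · intro x hx
        refine ⟨b - x, by linarith [hx.2], fun y hy => ?_⟩
        rw [abs_of_nonneg (by linarith [hx.2, hy.1])]
        linarith [hy.1]
      · intro x hx y hy
        constructor <;> linarith [hx.1, hx.2, hy.1, hy.2]
  -- intervals in the outer regions
  have houter : ∀ e : ℝ, |e| = 1 → ∀ a b : ℝ, a < b → (∀ x ∈ Set.Icc a (2 * b - a), 1 ≤ e * x) →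
      ((∫⁻ x in Set.Icc a b, ww p U x) *
        (∫⁻ x in Set.Icc a b, ww p U x ^ (-1 / (p - 1))) ^ (p - 1) ≤
        ((Ao : ℝ≥0∞) * ENNReal.ofReal 2 ^ p) ^ 2 * ENNReal.ofReal (b - a) ^ p) ∧
      ((∫⁻ x in Set.Icc b (2 * b - a), ww p U x) *
        (∫⁻ x in Set.Icc b (2 * b - a), ww p U x ^ (-1 / (p - 1))) ^ (p - 1) ≤
        ((Ao : ℝ≥0∞) * ENNReal.ofReal 2 ^ p) ^ 2 * ENNReal.ofReal (b - a) ^ p) := by
    intro e he a b hab hx1
    apply combine hp hwm hw0 hwt hab
    · apply hout e e 1 (2 * (b - a)) _ _ he he abs_one (by linarith) measurableSet_Icc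
        measurableSet_Ioc
      · intro y hy
        exact hx1 y ⟨hy.1, by linarith [hy.2]⟩
      · intro y hy
        exact hx1 y ⟨by linarith [hy.1], by linarith [hy.2]⟩
      · intro x hx
        refine ⟨x - b, by linarith [hx.1], fun y hy => ?_⟩
        rw [abs_sub_comm, abs_of_nonneg (by linarith [hx.1, hy.2])]
        linarith [hy.2]
      · intro x hx y hy
        constructor <;> linarith [hx.1, hx.2, hy.1, hy.2]
    · apply hout e e (-1) (2 * (b - a)) _ _ he he (by simp) (by linarith) measurableSet_Icc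
        measurableSet_Ico
      · intro y hy
        exact hx1 y ⟨by linarith [hy.1], by linarith [hy.2]⟩
      · intro y hy
        exact hx1 y ⟨hy.1, by linarith [hy.2]⟩
      · intro x hx
        refine ⟨b - x, by linarith [hx.2], fun y hy => ?_⟩
        rw [abs_of_nonneg (by linarith [hx.2, hy.1])]
        linarith [hy.1]
      · intro x hx y hy
        constructor <;> linarith [hx.1, hx.2, hy.1, hy.2]
  -- the reference interval
  set w12 := ∫⁻ x in Set.Icc (1:ℝ) 2, ww p U x with hw12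
  set w0 := ∫⁻ x in Set.Icc (-1:ℝ) 1, ww p U x with hw0def
  set t12 := ∫⁻ x in Set.Icc (1:ℝ) 2, ww p U x ^ (-1 / (p - 1)) with ht12
  set t0 := ∫⁻ x in Set.Icc (-1:ℝ) 1, ww p U x ^ (-1 / (p - 1)) with ht0
  have hvol12 : volume (Set.Icc (1:ℝ) 2) ≠ 0 := by
    rw [Real.volume_Icc]; norm_num
  have hw12ne : w12 ≠ 0 := int_ne_zero hwm hw0 hvol12
  have ht12ne : t12 ≠ 0 := pos_of_rpow hp hwm hwt hvol12
  have hw12t : w12 ≠ ∞ := by
    refine ne_top_of_le_ne_top (hwloc 2) (lintegral_mono_set ?_)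
    exact Set.Icc_subset_Icc (by norm_num) le_rfl
  have hw0t : w0 ≠ ∞ := hwloc 1
  have hτt : ∀ M : ℝ, 0 ≤ M → ∫⁻ x in Set.Icc (-M) M, ww p U x ^ (-1 / (p - 1)) ≠ ∞ := by
    intro M hM htop
    have h3 := dual_comp hp (v := fun x => ENNReal.ofReal (U x)) (w := ww p U)
      (κ := ENNReal.ofReal ((1 + M) ^ p)) (by
        rw [ne_eq, ENNReal.ofReal_eq_zero, not_le]; positivity)
      (ENNReal.ofReal_ne_top) (measurableSet_Icc (a := -M) (b := M)) (by
        intro x hx
        unfold ww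
        rw [← ENNReal.ofReal_mul (by positivity)]
        apply ENNReal.ofReal_le_ofReal
        have h4 : (0:ℝ) < 1 + |x| := by have := abs_nonneg x; linarith
        have h5 : 0 < (1 + |x|) ^ p := Real.rpow_pos_of_pos h4 _
        rw [← mul_div_assoc, le_div_iff₀ h5, mul_comm]
        apply mul_le_mul_of_nonneg_right _ (hU0 x)
        apply Real.rpow_le_rpow h4.le _ hp0.le
        have := abs_le.2 hx
        linarith)
    rw [htop, ENNReal.top_rpow_of_pos hp1, top_le_iff] at h3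
    apply ENNReal.mul_ne_top ENNReal.ofReal_ne_top _ h3
    apply ENNReal.rpow_ne_top_of_nonneg hp1.le
    exact ne_top_of_le_ne_top hSig (setLIntegral_le_lintegral _ _)
  have ht0t : t0 ≠ ∞ := hτt 1 (by norm_num)
  have ht12t : t12 ≠ ∞ := by
    refine ne_top_of_le_ne_top (hτt 2 (by norm_num)) (lintegral_mono_set ?_)
    exact Set.Icc_subset_Icc (by norm_num) le_rfl
  set P4 : ℝ≥0∞ := (Ao : ℝ≥0∞) * ENNReal.ofReal 4 ^ p with hP4
  have hP4t : P4 ≠ ∞ := ENNReal.mul_ne_top ENNReal.coe_ne_top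
    (ENNReal.rpow_ne_top_of_nonneg hp0.le ENNReal.ofReal_ne_top)
  set K1 : ℝ≥0∞ := P4 + w0 / w12 + 1 with hK1
  set K2 : ℝ≥0∞ := P4 ^ (1 / (p - 1)) + t0 / t12 + 1 with hK2
  have hK1t : K1 ≠ ∞ := by
    apply ENNReal.add_ne_top.2 ⟨ENNReal.add_ne_top.2 ⟨hP4t, ?_⟩, ENNReal.one_ne_top⟩
    exact (ENNReal.div_lt_top hw0t hw12ne).ne
  have hK2t : K2 ≠ ∞ := by
    apply ENNReal.add_ne_top.2 ⟨ENNReal.add_ne_top.2 ⟨?_, ?_⟩, ENNReal.one_ne_top⟩
    · exact ENNReal.rpow_ne_top_of_nonneg (by positivity) hP4t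
    · exact (ENNReal.div_lt_top ht0t ht12ne).ne
  set A1 : ℝ≥0∞ := ((Ao : ℝ≥0∞) * ENNReal.ofReal 2 ^ p) ^ 2 with hA1
  -- large symmetric intervals
  have hbig : ∀ L : ℝ, 3 ≤ L →
      (∫⁻ x in Set.Icc (-L) L, ww p U x) *
        (∫⁻ x in Set.Icc (-L) L, ww p U x ^ (-1 / (p - 1))) ^ (p - 1) ≤
      K1 * K2 ^ (p - 1) * A1 * ENNReal.ofReal L ^ p := by
    intro L hL
    set a := ∫⁻ x in Set.Icc 1 L, ww p U x with ha
    set t := ∫⁻ x in Set.Icc 1 L, ww p U x ^ (-1 / (p - 1)) with htd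
    set am := ∫⁻ x in Set.Icc (-L) (-1), ww p U x with ham
    set tm := ∫⁻ x in Set.Icc (-L) (-1), ww p U x ^ (-1 / (p - 1)) with htm
    set lam := ENNReal.ofReal (L - 1) ^ p with hlam
    have hlam0 : lam ≠ 0 := by
      rw [hlam, ne_eq, ENNReal.rpow_eq_zero_iff]
      push Not
      refine ⟨fun h => absurd h ?_, fun h => absurd h ENNReal.ofReal_ne_top⟩
      rw [ENNReal.ofReal_eq_zero]; linarith
    have hlamt : lam ≠ ∞ := ENNReal.rpow_ne_top_of_nonneg hp0.le ENNReal.ofReal_ne_top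
    have ha0 : a ≠ 0 := by
      have h2 : w12 ≤ a := lintegral_mono_set (Set.Icc_subset_Icc le_rfl (by linarith))
      exact fun h => hw12ne (le_antisymm (h ▸ h2) bot_le)
    have hat : a ≠ ∞ := by
      refine ne_top_of_le_ne_top (hwloc L) (lintegral_mono_set ?_)
      exact Set.Icc_subset_Icc (by linarith) le_rfl
    have F1 : a * t ^ (p - 1) ≤ A1 * ENNReal.ofReal L ^ p := by
      refine ((houter 1 abs_one 1 L (by linarith) (by
        intro x hx; rw [one_mul]; exact hx.1)).1).trans ?_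
      apply mul_le_mul' le_rfl
      apply ENNReal.rpow_le_rpow _ hp0.le
      exact ENNReal.ofReal_le_ofReal (by linarith)
    have F2 : lam ≤ a * t ^ (p - 1) := by
      have := holder hp hwm hw0 hwt (Set.Icc 1 L)
      rwa [Real.volume_Icc] at this
    have h2L : (Ao : ℝ≥0∞) * ENNReal.ofReal (2 * L) ^ p ≤ P4 * lam := by
      rw [hP4, hlam, mul_assoc, ← ENNReal.mul_rpow_of_nonneg _ _ hp0.le,
        ← ENNReal.ofReal_mul (by norm_num)]
      apply mul_le_mul' le_rfl
      apply ENNReal.rpow_le_rpow _ hp0.le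
      apply ENNReal.ofReal_le_ofReal
      linarith
    have F3 : am * t ^ (p - 1) ≤ P4 * lam := by
      refine le_trans ?_ h2L
      apply hout 1 (-1) (-1) (2 * L) _ _ abs_one (by simp) (by simp) (by linarith)
        measurableSet_Icc measurableSet_Icc
      · intro y hy; rw [one_mul]; exact hy.1
      · intro x hx; linarith [hx.2]
      · intro x hx
        refine ⟨1, one_pos, fun y hy => ?_⟩
        rw [abs_of_nonneg (by linarith [hx.2, hy.1])]
        linarith [hx.2, hy.1]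
      · intro x hx y hy
        constructor <;> linarith [hx.1, hx.2, hy.1, hy.2]
    have F4 : a * tm ^ (p - 1) ≤ P4 * lam := by
      refine le_trans ?_ h2L
      apply hout (-1) 1 1 (2 * L) _ _ (by simp) abs_one abs_one (by linarith)
        measurableSet_Icc measurableSet_Icc
      · intro y hy; linarith [hy.2]
      · intro x hx; rw [one_mul]; exact hx.1
      · intro x hx
        refine ⟨1, one_pos, fun y hy => ?_⟩
        rw [abs_sub_comm, abs_of_nonneg (by linarith [hx.1, hy.2])]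
        linarith [hx.1, hy.2]
      · intro x hx y hy
        constructor <;> linarith [hx.1, hx.2, hy.1, hy.2]
    have G1 : am ≤ P4 * a := by
      refine (ENNReal.mul_le_mul_iff_right hlam0 hlamt).1 ?_
      calc lam * am ≤ (a * t ^ (p - 1)) * am := mul_le_mul' F2 le_rfl
        _ = a * (am * t ^ (p - 1)) := by ring
        _ ≤ a * (P4 * lam) := mul_le_mul' le_rfl F3
        _ = lam * (P4 * a) := by ring
    have G2 : tm ≤ P4 ^ (1 / (p - 1)) * t := by
      have h3 : tm ^ (p - 1) ≤ P4 * t ^ (p - 1) := by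
        refine (ENNReal.mul_le_mul_iff_right ha0 hat).1 ?_
        calc a * tm ^ (p - 1) ≤ P4 * lam := F4
          _ ≤ P4 * (a * t ^ (p - 1)) := mul_le_mul' le_rfl F2
          _ = a * (P4 * t ^ (p - 1)) := by ring
      have h4 := ENNReal.rpow_le_rpow h3 (by positivity : 0 ≤ 1 / (p - 1))
      rw [ENNReal.mul_rpow_of_nonneg _ _ (by positivity), ← ENNReal.rpow_mul, ← ENNReal.rpow_mul,
        mul_one_div, div_self hp1.ne', ENNReal.rpow_one, ENNReal.rpow_one] at h4
      exact h4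
    have hcover : Set.Icc (-L) L ⊆ Set.Icc (-L) (-1) ∪ Set.Icc (-1) 1 ∪ Set.Icc 1 L := by
      intro x hx
      rcases le_total x (-1) with h | h
      · exact Or.inl (Or.inl ⟨hx.1, h⟩)
      · rcases le_total x 1 with h' | h'
        · exact Or.inl (Or.inr ⟨h, h'⟩)
        · exact Or.inr ⟨h', hx.2⟩
    have hsplit : ∀ F : ℝ → ℝ≥0∞, ∫⁻ x in Set.Icc (-L) L, F x ≤
        (∫⁻ x in Set.Icc (-L) (-1), F x) + (∫⁻ x in Set.Icc (-1) 1, F x) +
          ∫⁻ x in Set.Icc 1 L, F x := by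
      intro F
      refine (lintegral_mono_set hcover).trans ((lintegral_union_le _ _ _).trans ?_)
      exact add_le_add (lintegral_union_le _ _ _) le_rfl
    have H1 : ∫⁻ x in Set.Icc (-L) L, ww p U x ≤ K1 * a := by
      refine (hsplit _).trans ?_
      have h5 : w0 ≤ w0 / w12 * a := by
        calc w0 = w0 / w12 * w12 := (ENNReal.div_mul_cancel hw12ne hw12t).symm
          _ ≤ w0 / w12 * a := mul_le_mul' le_rfl
            (lintegral_mono_set (Set.Icc_subset_Icc le_rfl (by linarith)))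
      calc am + w0 + a ≤ P4 * a + w0 / w12 * a + a := add_le_add (add_le_add G1 h5) le_rfl
        _ = K1 * a := by rw [hK1]; ring
    have H2 : ∫⁻ x in Set.Icc (-L) L, ww p U x ^ (-1 / (p - 1)) ≤ K2 * t := by
      refine (hsplit _).trans ?_
      have h5 : t0 ≤ t0 / t12 * t := by
        calc t0 = t0 / t12 * t12 := (ENNReal.div_mul_cancel ht12ne ht12t).symm
          _ ≤ t0 / t12 * t := mul_le_mul' le_rfl
            (lintegral_mono_set (Set.Icc_subset_Icc le_rfl (by linarith)))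
      calc tm + t0 + t ≤ P4 ^ (1 / (p - 1)) * t + t0 / t12 * t + t :=
            add_le_add (add_le_add G2 h5) le_rfl
        _ = K2 * t := by rw [hK2]; ring
    calc (∫⁻ x in Set.Icc (-L) L, ww p U x) *
          (∫⁻ x in Set.Icc (-L) L, ww p U x ^ (-1 / (p - 1))) ^ (p - 1)
        ≤ (K1 * a) * (K2 * t) ^ (p - 1) :=
          mul_le_mul' H1 (ENNReal.rpow_le_rpow H2 hp1.le)
      _ = K1 * K2 ^ (p - 1) * (a * t ^ (p - 1)) := by
          rw [ENNReal.mul_rpow_of_nonneg _ _ hp1.le]; ring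
      _ ≤ K1 * K2 ^ (p - 1) * (A1 * ENNReal.ofReal L ^ p) := mul_le_mul' le_rfl F1
      _ = _ := by ring
  -- conclusion
  set Af : ℝ≥0∞ := ((Ai : ℝ≥0∞) * ENNReal.ofReal 2 ^ p) ^ 2 + A1 +
    K1 * K2 ^ (p - 1) * A1 * ENNReal.ofReal 2 ^ p with hAf
  have h2p : ENNReal.ofReal 2 ^ p ≠ ∞ := ENNReal.rpow_ne_top_of_nonneg hp0.le ENNReal.ofReal_ne_top
  have hA1t : A1 ≠ ∞ := ENNReal.pow_ne_top (ENNReal.mul_ne_top ENNReal.coe_ne_top h2p)
  have hAft : Af ≠ ∞ := by
    apply ENNReal.add_ne_top.2 ⟨ENNReal.add_ne_top.2 ⟨?_, hA1t⟩, ?_⟩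
    · exact ENNReal.pow_ne_top (ENNReal.mul_ne_top ENNReal.coe_ne_top h2p)
    · exact ENNReal.mul_ne_top (ENNReal.mul_ne_top (ENNReal.mul_ne_top hK1t
        (ENNReal.rpow_ne_top_of_nonneg hp1.le hK2t)) hA1t) h2p
  refine ⟨⟨fun x => div_nonneg (hU0 x) (by have := h1p x; linarith), ?_, ?_⟩, Af.toNNReal, ?_⟩
  · intro x
    refine ⟨Set.Icc (x - 1) (x + 1), Icc_mem_nhds (by linarith) (by linarith),
      (hUm.div ((by fun_prop : Measurable fun x : ℝ => 1 + |x|).pow_const _)).aestronglyMeasurable, ?_⟩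
    rw [hasFiniteIntegral_iff_ofReal
      (ae_of_all _ fun x => div_nonneg (hU0 x) (by have := h1p x; linarith))]
    refine lt_of_le_of_lt (lintegral_mono_set ?_)
      (lt_of_le_of_ne le_top (hwloc (|x| + 1)))
    apply Set.Icc_subset_Icc
    · have := neg_abs_le x; linarith
    · have := le_abs_self x; linarith
  · intro h0
    apply hne
    filter_upwards [h0] with x hx
    have h2 : U x / (1 + |x|) ^ p = 0 := hx
    rw [div_eq_zero_iff] at h2
    rcases h2 with h2 | h2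
    · exact h2
    · have := h1p x; linarith
  · intro a b hab
    rw [ENNReal.coe_toNNReal hAft]
    apply mean_le hp hab
    change (∫⁻ x in Set.Icc a b, ww p U x) *
      (∫⁻ x in Set.Icc a b, ww p U x ^ (-1 / (p - 1))) ^ (p - 1) ≤ Af * ENNReal.ofReal (b - a) ^ p
    by_cases c1 : -3 ≤ a ∧ b ≤ 3
    · refine (hinner a b hab c1.1 c1.2).trans ?_
      apply mul_le_mul' _ le_rfl
      rw [hAf, add_assoc]
      exact le_self_add
    by_cases c2 : 1 ≤ a
    · refine ((houter 1 abs_one a b hab (by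
        intro x hx; rw [one_mul]; exact c2.trans hx.1)).1).trans ?_
      apply mul_le_mul' _ le_rfl
      rw [hAf]
      exact le_add_right le_add_self
    by_cases c3 : b ≤ -1
    · have h3 := (houter (-1) (by simp) (2 * a - b) a (by linarith) (by
        intro x hx
        have : x ≤ b := by linarith [hx.2]
        linarith)).2
      rw [show 2 * a - (2 * a - b) = b by ring, show a - (2 * a - b) = b - a by ring] at h3
      refine h3.trans ?_
      apply mul_le_mul' _ le_rfl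
      rw [hAf]
      exact le_add_right le_add_self
    · rw [not_le] at c2 c3
      have h4 : 2 ≤ b - a := by
        by_contra hlt
        rw [not_le] at hlt
        apply c1
        constructor <;> linarith
      have h5 := hbig (b - a + 1) (by linarith)
      have hsub : Set.Icc a b ⊆ Set.Icc (-(b - a + 1)) (b - a + 1) :=
        Set.Icc_subset_Icc (by linarith) (by linarith)
      calc (∫⁻ x in Set.Icc a b, ww p U x) *
            (∫⁻ x in Set.Icc a b, ww p U x ^ (-1 / (p - 1))) ^ (p - 1)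
          ≤ (∫⁻ x in Set.Icc (-(b - a + 1)) (b - a + 1), ww p U x) *
            (∫⁻ x in Set.Icc (-(b - a + 1)) (b - a + 1), ww p U x ^ (-1 / (p - 1))) ^ (p - 1) :=
            mul_le_mul' (lintegral_mono_set hsub)
              (ENNReal.rpow_le_rpow (lintegral_mono_set hsub) hp1.le)
        _ ≤ K1 * K2 ^ (p - 1) * A1 * ENNReal.ofReal (b - a + 1) ^ p := h5
        _ ≤ K1 * K2 ^ (p - 1) * A1 * (ENNReal.ofReal 2 ^ p * ENNReal.ofReal (b - a) ^ p) := by
            apply mul_le_mul' le_rfl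
            rw [← ENNReal.mul_rpow_of_nonneg _ _ hp0.le, ← ENNReal.ofReal_mul (by norm_num)]
            apply ENNReal.rpow_le_rpow _ hp0.le
            apply ENNReal.ofReal_le_ofReal
            linarith
        _ = (K1 * K2 ^ (p - 1) * A1 * ENNReal.ofReal 2 ^ p) * ENNReal.ofReal (b - a) ^ p := by ring
        _ ≤ Af * ENNReal.ofReal (b - a) ^ p := by
            apply mul_le_mul' _ le_rfl
            rw [hAf]; exact le_add_self

/-- invariance under almost everywhere equality -/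
lemma MemAp.congr {p : ℝ} {W W' : ℝ → ℝ} (h : MemAp p W) (h0 : ∀ x, 0 ≤ W' x)
    (he : W =ᵐ[volume] W') : MemAp p W' := by
  obtain ⟨⟨_, h2, h3⟩, K, hK⟩ := h
  refine ⟨⟨h0, ?_, fun hz => h3 (he.trans hz)⟩, K, fun a b hab => ?_⟩
  · intro x
    obtain ⟨u, hu, hi⟩ := h2 x
    exact ⟨u, hu, hi.congr (ae_restrict_of_ae he)⟩
  · have h4 := hK a b hab
    have e1 : mean (fun x => ENNReal.ofReal (W' x)) a b = mean (fun x => ENNReal.ofReal (W x)) a b := by
      unfold mean
      congr 1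
      apply lintegral_congr_ae
      filter_upwards [ae_restrict_of_ae he] with x hx
      rw [hx]
    have e2 : mean (fun x => ENNReal.ofReal (W' x) ^ (-1 / (p - 1))) a b =
        mean (fun x => ENNReal.ofReal (W x) ^ (-1 / (p - 1))) a b := by
      unfold mean
      congr 1
      apply lintegral_congr_ae
      filter_upwards [ae_restrict_of_ae he] with x hx
      rw [hx]
    rw [e1, e2]; exact h4

/-- the necessary condition -/
theorem necessity {p : ℝ} (hp : 1 < p) {U : ℝ → ℝ} (hU : IsWeight U) (hA : Admissible p U) :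
    MemAp p U ∨ (∃ c : ℝ, MemAp p (fun x => U x / |x - c| ^ p)) ∨
      MemAp p (fun x => U x / (1 + |x|) ^ p) := by
  have hp0 : 0 < p := by linarith
  obtain ⟨C, hC⟩ := hA
  obtain ⟨v, hvm, hv⟩ := hU.aem
  set V : ℝ → ℝ := fun x => max (v x) 0 with hV
  have hVm : Measurable V := hvm.max measurable_const
  have hV0 : ∀ x, 0 ≤ V x := fun x => le_max_right _ _
  have hUV : V =ᵐ[volume] U := by
    filter_upwards [hv] with x hx
    simp only [hV]
    rw [← hx, max_eq_left (hU.nonneg x)]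
  have hne : ¬ V =ᵐ[volume] 0 := fun h => hU.ne_zero (hUV.symm.trans h)
  have hCV : Adm p V C := by
    intro f hf hf0
    have e1 : ∀ G : ℝ → ℝ≥0∞, ∫⁻ x, G x * ENNReal.ofReal (V x) = ∫⁻ x, G x * ENNReal.ofReal (U x) := by
      intro G
      apply lintegral_congr_ae
      filter_upwards [hUV] with x hx
      rw [hx]
    rw [e1, e1]
    exact hC f hf hf0
  have hloc : ∀ M : ℝ, ∫⁻ x in Set.Icc (-M) M, ENNReal.ofReal (V x) ≠ ∞ := by
    intro M
    have e1 : ∫⁻ x in Set.Icc (-M) M, ENNReal.ofReal (V x) =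
        ∫⁻ x in Set.Icc (-M) M, ENNReal.ofReal (U x) := by
      apply lintegral_congr_ae
      filter_upwards [ae_restrict_of_ae hUV] with x hx
      rw [hx]
    rw [e1]
    have h1 : IntegrableOn U (Set.Icc (-M) M) := hU.locInt.integrableOn_isCompact isCompact_Icc
    have h2 := h1.2
    rw [hasFiniteIntegral_iff_ofReal (ae_of_all _ hU.nonneg)] at h2
    exact h2.ne
  have hVU : V =ᵐ[volume] U := hUV
  by_cases h1 : ∃ c : ℝ, ∀ r : ℝ, 0 < r →
      ∫⁻ x in Set.Icc (c - r) (c + r), ENNReal.ofReal (V x) ^ (-1 / (p - 1)) = ∞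
  · obtain ⟨c, hc⟩ := h1
    right; left
    refine ⟨c, (case_one hp hV0 hVm hne hCV c hc).congr
      (fun x => div_nonneg (hU.nonneg x) (Real.rpow_nonneg (abs_nonneg _) _)) ?_⟩
    filter_upwards [hVU] with x hx
    rw [hx]
  · push Not at h1
    have hfin := loc_fin h1
    by_cases h2 : ∫⁻ x, ENNReal.ofReal (V x) ^ (-1 / (p - 1)) = ∞
    · left
      refine (case_two hp hV0 hVm hne hCV ?_).congr hU.nonneg hVU
      intro r
      by_contra h3
      have h4 : (Set.univ : Set ℝ) ⊆ Set.Icc (-r) r ∪ {x | r ≤ |x|} := by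
        intro x _
        rcases le_total |x| r with h | h
        · exact Or.inl (abs_le.1 h)
        · exact Or.inr h
      have h5 : ∫⁻ x, ENNReal.ofReal (V x) ^ (-1 / (p - 1)) ≤
          (∫⁻ x in Set.Icc (-r) r, ENNReal.ofReal (V x) ^ (-1 / (p - 1))) +
            ∫⁻ x in {x : ℝ | r ≤ |x|}, ENNReal.ofReal (V x) ^ (-1 / (p - 1)) := by
        rw [← setLIntegral_univ]
        exact (lintegral_mono_set h4).trans (lintegral_union_le _ _ _)
      rw [h2, top_le_iff] at h5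
      exact ENNReal.add_ne_top.2 ⟨hfin r, h3⟩ h5
    · right; right
      refine (case_three hp hV0 hVm hne h2 hloc hCV).congr
        (fun x => div_nonneg (hU.nonneg x) (Real.rpow_nonneg (by positivity) _)) ?_
      filter_upwards [hVU] with x hx
      rw [hx]

end Pool.Agent.Y247.Hil
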