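import Pool.Agent.H433R3.Sep15
import Pool.Agent.H153R4.Pl

/-!
The Hilbert transform as an `L²` bounded operator on `Fin 1 → ℝ`, and its kernel representation.
-/

set_option autoImplicit false

namespace Pool.Agent.Y247.Hil

open MeasureTheory Metric Filter Topology FourierTransform SchwartzMap
open scoped ENNReal NNReal ContDiff

/-- the multiplier `-i sgn(ξ) e^{-2π ε |ξ|}` -/
noncomputable def mm (ε ξ : ℝ) : ℂ :=
  if 0 < ξ then -Complex.I * (Real.exp (-(2 * Real.pi * ε * ξ)) : ℝ)
  else Complex.I * (Real.exp (2 * Real.pi * ε * ξ) : ℝ)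

lemma mm_meas (ε : ℝ) : Measurable (mm ε) := by
  unfold mm
  refine Measurable.ite (measurableSet_lt measurable_const measurable_id) ?_ ?_
  · fun_prop
  · fun_prop

lemma mm_norm_eq (ε ξ : ℝ) : ‖mm ε ξ‖ = Real.exp (-(2 * Real.pi * ε * |ξ|)) := by
  unfold mm
  split_ifs with h
  · rw [norm_mul, norm_neg, Complex.norm_I, one_mul, Complex.norm_real, Real.norm_eq_abs,
      abs_of_pos (Real.exp_pos _), abs_of_pos h]
  · rw [norm_mul, Complex.norm_I, one_mul, Complex.norm_real, Real.norm_eq_abs,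
      abs_of_pos (Real.exp_pos _), abs_of_nonpos (not_lt.1 h)]
    congr 1; ring

lemma mm_norm {ε : ℝ} (hε : 0 ≤ ε) (ξ : ℝ) : ‖mm ε ξ‖ ≤ 1 := by
  rw [mm_norm_eq, Real.exp_le_one_iff]
  have := Real.pi_pos
  have : 0 ≤ 2 * Real.pi * ε * |ξ| := by positivity
  linarith

lemma mm_cont (ξ : ℝ) : Continuous (fun ε => mm ε ξ) := by
  unfold mm
  split_ifs with h
  · fun_prop
  · fun_prop

/-- the conjugate Poisson kernel -/
noncomputable def qk (ε x : ℝ) : ℂ := ((x / (Real.pi * (x ^ 2 + ε ^ 2)) : ℝ) : ℂ)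

lemma mm_pos_part {ε : ℝ} (hε : 0 < ε) (x : ℝ) :
    IntegrableOn (fun ξ : ℝ => Complex.exp ((-(2 * Real.pi * ε) + 2 * Real.pi * x * Complex.I) * ξ))
      (Set.Ioi 0) ∧
    ∫ ξ in Set.Ioi (0:ℝ), Complex.exp ((-(2 * Real.pi * ε) + 2 * Real.pi * x * Complex.I) * ξ) =
      -1 / (-(2 * Real.pi * ε) + 2 * Real.pi * x * Complex.I) := by
  have hre : (-(2 * Real.pi * ε) + 2 * Real.pi * x * Complex.I : ℂ).re < 0 := by
    have := Real.pi_pos
    simp
    positivity
  refine ⟨integrableOn_exp_mul_complex_Ioi hre 0, ?_⟩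
  rw [integral_exp_mul_complex_Ioi hre 0]
  simp

lemma mm_neg_part {ε : ℝ} (hε : 0 < ε) (x : ℝ) :
    IntegrableOn (fun ξ : ℝ => Complex.exp ((2 * Real.pi * ε + 2 * Real.pi * x * Complex.I) * ξ))
      (Set.Iic 0) ∧
    ∫ ξ in Set.Iic (0:ℝ), Complex.exp ((2 * Real.pi * ε + 2 * Real.pi * x * Complex.I) * ξ) =
      1 / (2 * Real.pi * ε + 2 * Real.pi * x * Complex.I) := by
  have hre : 0 < (2 * Real.pi * ε + 2 * Real.pi * x * Complex.I : ℂ).re := by
    have := Real.pi_pos
    simp
    positivity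
  refine ⟨integrableOn_exp_mul_complex_Iic hre 0, ?_⟩
  rw [integral_exp_mul_complex_Iic hre 0]
  simp

lemma mm_split {ε : ℝ} (x : ℝ) (ξ : ℝ) :
    Complex.exp (2 * Real.pi * x * ξ * Complex.I) * mm ε ξ =
      (Set.Ioi (0:ℝ)).indicator (fun ξ : ℝ => -Complex.I *
        Complex.exp ((-(2 * Real.pi * ε) + 2 * Real.pi * x * Complex.I) * ξ)) ξ +
      (Set.Iic (0:ℝ)).indicator (fun ξ : ℝ => Complex.I *
        Complex.exp ((2 * Real.pi * ε + 2 * Real.pi * x * Complex.I) * ξ)) ξ := by
  unfold mm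
  by_cases h : 0 < ξ
  · rw [if_pos h, Set.indicator_of_mem (Set.mem_Ioi.2 h), Set.indicator_of_notMem (by simpa using h),
      add_zero]
    have : Complex.exp ((-(2 * Real.pi * ε) + 2 * Real.pi * x * Complex.I) * ξ) =
        Complex.exp (2 * Real.pi * x * ξ * Complex.I) * (Real.exp (-(2 * Real.pi * ε * ξ)) : ℝ) := by
      rw [Complex.ofReal_exp, ← Complex.exp_add]
      congr 1
      push_cast; ring
    rw [this]; ring
  · rw [if_neg h, Set.indicator_of_notMem (by simpa using h), Set.indicator_of_mem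
      (Set.mem_Iic.2 (not_lt.1 h)), zero_add]
    have : Complex.exp ((2 * Real.pi * ε + 2 * Real.pi * x * Complex.I) * ξ) =
        Complex.exp (2 * Real.pi * x * ξ * Complex.I) * (Real.exp (2 * Real.pi * ε * ξ) : ℝ) := by
      rw [Complex.ofReal_exp, ← Complex.exp_add]
      congr 1
      push_cast; ring
    rw [this]; ring

lemma mm_exp_int {ε : ℝ} (hε : 0 < ε) (x : ℝ) :
    Integrable (fun ξ : ℝ => Complex.exp (2 * Real.pi * x * ξ * Complex.I) * mm ε ξ) := by
  simp_rw [mm_split]
  refine Integrable.add ?_ ?_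
  · rw [integrable_indicator_iff measurableSet_Ioi]
    exact (mm_pos_part hε x).1.const_mul _
  · rw [integrable_indicator_iff measurableSet_Iic]
    exact (mm_neg_part hε x).1.const_mul _

lemma mm_int {ε : ℝ} (hε : 0 < ε) : Integrable (mm ε) := by
  have := mm_exp_int hε 0
  simpa using this

lemma mm_exp_integral {ε : ℝ} (hε : 0 < ε) (x : ℝ) :
    ∫ ξ : ℝ, Complex.exp (2 * Real.pi * x * ξ * Complex.I) * mm ε ξ = qk ε x := by
  simp_rw [mm_split]
  rw [integral_add, integral_indicator measurableSet_Ioi, integral_indicator measurableSet_Iic,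
    integral_const_mul, integral_const_mul, (mm_pos_part hε x).2, (mm_neg_part hε x).2]
  · unfold qk
    have hpi : (Real.pi : ℂ) ≠ 0 := by exact_mod_cast Real.pi_pos.ne'
    have h1 : (ε : ℂ) + x * Complex.I ≠ 0 := by
      intro h
      have := congrArg Complex.re h
      simp at this
      exact hε.ne' this
    have h2 : -(ε : ℂ) + x * Complex.I ≠ 0 := by
      intro h
      have := congrArg Complex.re h
      simp at this
      exact hε.ne' this
    have e1 : (-(2 * Real.pi * ε) + 2 * Real.pi * x * Complex.I : ℂ) =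
        2 * Real.pi * (-(ε : ℂ) + x * Complex.I) := by ring
    have e2 : (2 * Real.pi * ε + 2 * Real.pi * x * Complex.I : ℂ) =
        2 * Real.pi * ((ε : ℂ) + x * Complex.I) := by ring
    rw [e1, e2]
    push_cast
    have e3 : ((x : ℂ) ^ 2 + (ε : ℂ) ^ 2) =
        -((-(ε : ℂ) + x * Complex.I) * ((ε : ℂ) + x * Complex.I)) := by
      linear_combination (x : ℂ) ^ 2 * Complex.I_sq
    have e4 : Complex.I * ((-(ε : ℂ) + x * Complex.I) + ((ε : ℂ) + x * Complex.I)) = -2 * x := by
      linear_combination 2 * (x : ℂ) * Complex.I_sq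
    rw [e3]
    generalize hA : -(ε : ℂ) + x * Complex.I = A at *
    generalize hB : (ε : ℂ) + x * Complex.I = B at *
    have key : -Complex.I * (-1 / (2 * Real.pi * A)) + Complex.I * (1 / (2 * Real.pi * B)) =
        (Complex.I * (A + B)) / (2 * Real.pi * (A * B)) := by
      field_simp
      ring
    rw [key, e4]
    field_simp
  · rw [integrable_indicator_iff measurableSet_Ioi]
    exact (mm_pos_part hε x).1.const_mul _
  · rw [integrable_indicator_iff measurableSet_Iic]
    exact (mm_neg_part hε x).1.const_mul _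

end Pool.Agent.Y247.Hil
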