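import Pool.Agent.Y247.Hil.Op

/-!
The Hilbert transform as an `L²` bounded operator on the line, kernel representation.
-/

set_option autoImplicit false

namespace Pool.Agent.Y247.Hil

open MeasureTheory Metric Filter Topology FourierTransform SchwartzMap
open scoped ENNReal NNReal ContDiff

/-- L² inverse Fourier transform of an integrable square integrable function -/
lemma fourierInv_ae_eq (f : ℝ → ℂ) (h1 : Integrable f) (h2 : MemLp f 2) :
    ((𝓕⁻ (h2.toLp f) : Lp ℂ 2 (volume : Measure ℝ)) : ℝ → ℂ) =ᵐ[volume] 𝓕⁻ f := by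
  have hcont : Continuous (𝓕⁻ f) := by
    have h3 : 𝓕⁻ f = fun x => 𝓕 f (-x) := by
      funext x; exact Real.fourierInv_eq_fourier_neg f x
    rw [h3]
    have := VectorFourier.fourierIntegral_continuous (L := innerₗ ℝ) Real.continuous_fourierChar
      continuous_inner h1
    exact Continuous.comp this continuous_neg
  apply ae_eq_of_integral_contDiff_smul_eq
  · exact (Lp.memLp _).locallyIntegrable (by norm_num)
  · exact hcont.locallyIntegrable
  · intro g g_smooth g_cpt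
    have hg₁ : HasCompactSupport (Complex.ofRealCLM ∘ g) := g_cpt.comp_left rfl
    have hg₂ : ContDiff ℝ ∞ (Complex.ofRealCLM ∘ g) := by fun_prop
    set gS : 𝓢(ℝ, ℂ) := hg₁.toSchwartzMap hg₂ with hgS
    have hgx : ∀ x, gS x = (g x : ℂ) := fun x => rfl
    have e1 : ∫ x, g x • ((𝓕⁻ (h2.toLp f) : Lp ℂ 2 (volume : Measure ℝ)) : ℝ → ℂ) x =
        ((𝓕⁻ (h2.toLp f) : Lp ℂ 2 (volume : Measure ℝ)) : 𝓢'(ℝ, ℂ)) gS := by
      rw [Lp.toTemperedDistribution_apply]
      simp [hgx]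
    rw [e1, ← Lp.fourierInv_toTemperedDistribution_eq, TemperedDistribution.fourierInv_apply,
      Lp.toTemperedDistribution_apply]
    have e2 : ∫ x, (𝓕⁻ gS) x • (h2.toLp f : ℝ → ℂ) x = ∫ x, (𝓕⁻ gS) x • f x := by
      apply integral_congr_ae
      filter_upwards [h2.coeFn_toLp] with x hx
      rw [hx]
    rw [e2]
    have hfn : Integrable (fun x => f (-x)) := h1.comp_neg
    have e3 := VectorFourier.integral_fourierIntegral_smul_eq_flip (L := innerₗ ℝ)
      Real.continuous_fourierChar continuous_inner gS.integrable hfn (μ := volume) (ν := volume)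
    simp only [flip_innerₗ] at e3
    have e4 : ∫ x, (𝓕⁻ gS) x • f x = ∫ x, (𝓕 (gS : ℝ → ℂ)) x • f (-x) := by
      rw [← integral_neg_eq_self]
      congr 1
      funext x
      rw [SchwartzMap.fourierInv_coe, Real.fourierInv_eq_fourier_neg, neg_neg]
    have e5 : ∫ x, gS x • (𝓕⁻ f) x = ∫ x, gS x • (𝓕 (fun y => f (-y))) x := by
      congr 1
      funext x
      congr 1
      rw [Real.fourierInv_eq', Real.fourier_eq', ← integral_neg_eq_self]
      congr 1
      funext y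
      simp
    have e6 : ∫ x, g x • (𝓕⁻ f) x = ∫ x, gS x • (𝓕⁻ f) x := by simp [hgx]
    rw [e4, e6, e5]
    exact e3

lemma mul_mem (m : ℝ → ℂ) (hm : Measurable m) (hb : ∀ ξ, ‖m ξ‖ ≤ 1)
    (f : Lp ℂ 2 (volume : Measure ℝ)) : MemLp (fun ξ => m ξ * f ξ) 2 volume :=
  (Lp.memLp f).of_le (hm.aestronglyMeasurable.mul (Lp.aestronglyMeasurable f))
    (ae_of_all _ fun ξ => by
      rw [norm_mul]; exact mul_le_of_le_one_left (norm_nonneg _) (hb ξ))

/-- multiplication by a bounded measurable function -/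
noncomputable def mulL (m : ℝ → ℂ) (hm : Measurable m) (hb : ∀ ξ, ‖m ξ‖ ≤ 1) :
    Lp ℂ 2 (volume : Measure ℝ) →L[ℂ] Lp ℂ 2 (volume : Measure ℝ) :=
  LinearMap.mkContinuous
    { toFun := fun f => (mul_mem m hm hb f).toLp (fun ξ => m ξ * f ξ)
      map_add' := by
        intro f g
        rw [← MemLp.toLp_add]
        apply MemLp.toLp_congr
        filter_upwards [Lp.coeFn_add f g] with x hx
        simp only [hx, Pi.add_apply, mul_add]
      map_smul' := by
        intro c f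
        rw [RingHom.id_apply, ← MemLp.toLp_const_smul]
        apply MemLp.toLp_congr
        filter_upwards [Lp.coeFn_smul c f] with x hx
        simp only [hx, Pi.smul_apply, smul_eq_mul]
        ring } 1 (by
      intro f
      simp only [LinearMap.coe_mk, AddHom.coe_mk, one_mul]
      rw [Lp.norm_toLp, Lp.norm_def]
      apply ENNReal.toReal_mono (Lp.eLpNorm_ne_top f)
      apply eLpNorm_mono
      intro x
      rw [norm_mul]
      exact mul_le_of_le_one_left (norm_nonneg _) (hb x))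

lemma mulL_coe (m : ℝ → ℂ) (hm : Measurable m) (hb : ∀ ξ, ‖m ξ‖ ≤ 1)
    (f : Lp ℂ 2 (volume : Measure ℝ)) :
    (mulL m hm hb f : ℝ → ℂ) =ᵐ[volume] fun ξ => m ξ * f ξ :=
  MemLp.coeFn_toLp (mul_mem m hm hb f)

/-- the regularised Hilbert transform on `L²(ℝ)` -/
noncomputable def TR (ε : ℝ) (hε : 0 ≤ ε) :
    Lp ℂ 2 (volume : Measure ℝ) →L[ℂ] Lp ℂ 2 (volume : Measure ℝ) :=
  ((Lp.fourierTransformₗᵢ ℝ ℂ).symm : Lp ℂ 2 (volume : Measure ℝ) →L[ℂ] Lp ℂ 2 (volume : Measure ℝ)) ∘L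
    (mulL (mm ε) (mm_meas ε) (mm_norm hε)) ∘L
    (Lp.fourierTransformₗᵢ ℝ ℂ : Lp ℂ 2 (volume : Measure ℝ) →L[ℂ] Lp ℂ 2 (volume : Measure ℝ))

lemma TR_apply (ε : ℝ) (hε : 0 ≤ ε) (f : Lp ℂ 2 (volume : Measure ℝ)) :
    TR ε hε f = 𝓕⁻ (mulL (mm ε) (mm_meas ε) (mm_norm hε) (𝓕 f)) := rfl

lemma TR_tendsto (f : Lp ℂ 2 (volume : Measure ℝ)) (e : ℕ → ℝ) (he : ∀ n, 0 ≤ e n)
    (hlim : Tendsto e atTop (𝓝 0)) :
    Tendsto (fun n => TR (e n) (he n) f) atTop (𝓝 (TR 0 le_rfl f)) := by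
  have h1 : Tendsto (fun n => mulL (mm (e n)) (mm_meas _) (mm_norm (he n)) (𝓕 f)) atTop
      (𝓝 (mulL (mm 0) (mm_meas _) (mm_norm le_rfl) (𝓕 f))) := by
    rw [Lp.tendsto_Lp_iff_tendsto_eLpNorm']
    have h2 : ∀ n, eLpNorm (⇑(mulL (mm (e n)) (mm_meas _) (mm_norm (he n)) (𝓕 f)) -
        ⇑(mulL (mm 0) (mm_meas _) (mm_norm le_rfl) (𝓕 f))) 2 volume =
        (∫⁻ ξ, ‖(mm (e n) ξ - mm 0 ξ) * (𝓕 f : Lp ℂ 2 (volume : Measure ℝ)) ξ‖ₑ ^ (2:ℝ)) ^ (1 / (2:ℝ)) := by
      intro n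
      rw [eLpNorm_eq_lintegral_rpow_enorm_toReal (by norm_num) (by norm_num)]
      simp only [ENNReal.toReal_ofNat]
      congr 1
      apply lintegral_congr_ae
      filter_upwards [mulL_coe (mm (e n)) (mm_meas _) (mm_norm (he n)) (𝓕 f),
        mulL_coe (mm 0) (mm_meas _) (mm_norm le_rfl) (𝓕 f)] with x h3 h4
      simp only [Pi.sub_apply, h3, h4, sub_mul]
    simp_rw [h2]
    have h5 : Tendsto (fun n => ∫⁻ ξ, ‖(mm (e n) ξ - mm 0 ξ) *
        (𝓕 f : Lp ℂ 2 (volume : Measure ℝ)) ξ‖ₑ ^ (2:ℝ)) atTop (𝓝 0) := by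
      have h6 := tendsto_lintegral_of_dominated_convergence' (μ := (volume : Measure ℝ))
        (F := fun n ξ => ‖(mm (e n) ξ - mm 0 ξ) *
          (𝓕 f : Lp ℂ 2 (volume : Measure ℝ)) ξ‖ₑ ^ (2:ℝ)) (f := fun _ => 0)
        (fun ξ => (2 * ‖(𝓕 f : Lp ℂ 2 (volume : Measure ℝ)) ξ‖ₑ) ^ (2:ℝ))
        (fun n => ((((mm_meas _).sub (mm_meas _)).aestronglyMeasurable.mul
          (Lp.aestronglyMeasurable _)).enorm).pow_const _) ?_ ?_ ?_
      · simpa using h6
      · intro n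
        refine ae_of_all _ fun ξ => ?_
        apply ENNReal.rpow_le_rpow _ (by norm_num)
        rw [enorm_mul]
        gcongr
        have h7 : ‖mm (e n) ξ - mm 0 ξ‖ ≤ 2 := by
          calc _ ≤ ‖mm (e n) ξ‖ + ‖mm 0 ξ‖ := norm_sub_le _ _
            _ ≤ 1 + 1 := add_le_add (mm_norm (he n) ξ) (mm_norm le_rfl ξ)
            _ = 2 := by norm_num
        rw [← ofReal_norm]
        calc ENNReal.ofReal ‖mm (e n) ξ - mm 0 ξ‖ ≤ ENNReal.ofReal 2 := ENNReal.ofReal_le_ofReal h7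
          _ = 2 := by norm_num
      · have h8 : ∫⁻ ξ, (2 * ‖(𝓕 f : Lp ℂ 2 (volume : Measure ℝ)) ξ‖ₑ) ^ (2:ℝ) =
            4 * ∫⁻ ξ, ‖(𝓕 f : Lp ℂ 2 (volume : Measure ℝ)) ξ‖ₑ ^ (2:ℝ) := by
          simp_rw [ENNReal.mul_rpow_of_nonneg _ _ (show (0:ℝ) ≤ 2 by norm_num)]
          rw [lintegral_const_mul' _ _ (by norm_num)]
          congr 1
          norm_num
        rw [h8]
        have h9 := Lp.eLpNorm_lt_top (𝓕 f : Lp ℂ 2 (volume : Measure ℝ))
        rw [eLpNorm_eq_lintegral_rpow_enorm_toReal (by norm_num) (by norm_num)] at h9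
        simp only [ENNReal.toReal_ofNat] at h9
        have h10 := (ENNReal.rpow_lt_top_iff_of_pos (by norm_num)).1 h9
        exact (ENNReal.mul_lt_top (by norm_num) h10).ne
      · refine ae_of_all _ fun ξ => ?_
        have h11 : Tendsto (fun n => (mm (e n) ξ - mm 0 ξ) *
            (𝓕 f : Lp ℂ 2 (volume : Measure ℝ)) ξ) atTop (𝓝 0) := by
          have h12 := ((mm_cont ξ).tendsto 0).comp hlim
          have h13 := (h12.sub_const (mm 0 ξ)).mul_const ((𝓕 f : Lp ℂ 2 (volume : Measure ℝ)) ξ)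
          simpa using h13
        have h14 := (h11.enorm).ennrpow_const (2:ℝ)
        simpa using h14
    have h15 := h5.ennrpow_const (1 / (2:ℝ))
    simpa using h15
  have h16 := ((Lp.fourierTransformₗᵢ ℝ ℂ).symm.continuous.tendsto _).comp h1
  exact h16

end Pool.Agent.Y247.Hil
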