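import Pool.Agent.Y247.Hil.Op2

/-!
The Hilbert transform on the line: kernel representation off the support.
-/

set_option autoImplicit false

namespace Pool.Agent.Y247.Hil

open MeasureTheory Metric Filter Topology FourierTransform SchwartzMap
open scoped ENNReal NNReal ContDiff

lemma fourier_cont {f : ℝ → ℂ} (h1 : Integrable f) : Continuous (𝓕 f) := by
  have := VectorFourier.fourierIntegral_continuous (L := innerₗ ℝ) Real.continuous_fourierChar
    continuous_inner h1
  exact this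

lemma fourier_bdd (f : ℝ → ℂ) (ξ : ℝ) : ‖𝓕 f ξ‖ ≤ ∫ y, ‖f y‖ := by
  rw [Real.fourier_eq']
  refine (norm_integral_le_integral_norm _).trans_eq ?_
  congr 1
  funext y
  rw [norm_smul, Complex.norm_exp_ofReal_mul_I, one_mul]

lemma TR_conv {ε : ℝ} (hε : 0 < ε) (f : ℝ → ℂ) (h1 : Integrable f) (h2 : MemLp f 2) :
    (TR ε hε.le (h2.toLp f) : ℝ → ℂ) =ᵐ[volume] fun x => ∫ y, qk ε (x - y) * f y := by
  set h : ℝ → ℂ := fun ξ => mm ε ξ * 𝓕 f ξ with hh
  have hint : Integrable h := by
    refine (mm_int hε).mul_bdd (c := ∫ y, ‖f y‖) (fourier_cont h1).aestronglyMeasurable ?_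
    exact ae_of_all _ (fourier_bdd f)
  have hco : (mulL (mm ε) (mm_meas ε) (mm_norm hε.le) (𝓕 (h2.toLp f)) : ℝ → ℂ) =ᵐ[volume] h := by
    filter_upwards [mulL_coe (mm ε) (mm_meas ε) (mm_norm hε.le) (𝓕 (h2.toLp f)),
      Pool.Agent.H153R4.fourier_ae_eq f h1 h2] with x hx hx2
    rw [hx, hx2]
  have hmem : MemLp h 2 volume := (memLp_congr_ae hco).1 (Lp.memLp _)
  have heq : mulL (mm ε) (mm_meas ε) (mm_norm hε.le) (𝓕 (h2.toLp f)) = hmem.toLp h := by
    apply Lp.ext
    exact hco.trans hmem.coeFn_toLp.symm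
  rw [TR_apply, heq]
  refine (fourierInv_ae_eq h hint hmem).trans ?_
  refine Eventually.of_forall fun x => ?_
  have e1 : 𝓕⁻ h x = ∫ ξ : ℝ, ∫ y : ℝ, (Complex.exp (2 * Real.pi * (x - y) * ξ * Complex.I) * mm ε ξ) * f y := by
    rw [Real.fourierInv_eq']
    congr 1
    funext ξ
    simp only [hh]
    rw [Real.fourier_eq']
    rw [smul_eq_mul, ← mul_assoc, ← integral_const_mul]
    congr 1
    funext y
    rw [smul_eq_mul]
    have : Complex.exp (2 * Real.pi * (x - y) * ξ * Complex.I) =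
        Complex.exp (↑(2 * Real.pi * inner ℝ ξ x) * Complex.I) *
        Complex.exp (↑(-2 * Real.pi * inner ℝ y ξ) * Complex.I) := by
      rw [← Complex.exp_add]
      congr 1
      simp
      ring
    rw [this]
    ring
  change 𝓕⁻ h x = _
  rw [e1, integral_integral_swap]
  · congr 1
    funext y
    rw [integral_mul_const]
    have := mm_exp_integral hε (x - y)
    push_cast at this
    rw [this]
  · have h3 : Integrable (fun p : ℝ × ℝ => mm ε p.1 * f p.2) (volume.prod volume) :=
      (mm_int hε).mul_prod h1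
    have h4 : (Function.uncurry fun (ξ y : ℝ) =>
        (Complex.exp (2 * Real.pi * (x - y) * ξ * Complex.I) * mm ε ξ) * f y) =
        fun p : ℝ × ℝ => Complex.exp (2 * Real.pi * (x - p.2) * p.1 * Complex.I) *
          (mm ε p.1 * f p.2) := by
      funext p
      simp only [Function.uncurry]
      ring
    rw [h4]
    refine h3.bdd_mul (c := 1) ?_ ?_
    · exact (by fun_prop : Continuous fun p : ℝ × ℝ =>
        Complex.exp (2 * Real.pi * (x - p.2) * p.1 * Complex.I)).aestronglyMeasurable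
    · refine ae_of_all _ fun p => ?_
      have : (2 * Real.pi * (x - p.2) * p.1 * Complex.I : ℂ) =
          ((2 * Real.pi * (x - p.2) * p.1 : ℝ) : ℂ) * Complex.I := by push_cast; ring
      rw [this, Complex.norm_exp_ofReal_mul_I]

lemma qk_norm_le (ε x : ℝ) : ‖qk ε x‖ ≤ 1 / (Real.pi * |x|) := by
  unfold qk
  rw [Complex.norm_real, Real.norm_eq_abs, abs_div, abs_mul]
  have hpi := Real.pi_pos
  rcases eq_or_ne x 0 with h | h
  · rw [h]; simp
  · have hx : 0 < |x| := abs_pos.2 h
    rw [abs_of_pos hpi, abs_of_nonneg (by positivity : (0:ℝ) ≤ x ^ 2 + ε ^ 2),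
      div_le_div_iff₀ (by positivity) (by positivity)]
    have : x ^ 2 = |x| ^ 2 := (sq_abs x).symm
    rw [this]
    nlinarith [sq_nonneg ε]

lemma qk_tendsto {x : ℝ} (hx : x ≠ 0) (e : ℕ → ℝ) (hlim : Tendsto e atTop (𝓝 0)) :
    Tendsto (fun n => qk (e n) x) atTop (𝓝 ((1 / (Real.pi * x) : ℝ) : ℂ)) := by
  unfold qk
  refine (Complex.continuous_ofReal.tendsto _).comp ?_
  have h1 : Tendsto (fun n => x / (Real.pi * (x ^ 2 + e n ^ 2))) atTop
      (𝓝 (x / (Real.pi * (x ^ 2 + 0 ^ 2)))) := by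
    refine Tendsto.div tendsto_const_nhds ?_ ?_
    · exact tendsto_const_nhds.mul (tendsto_const_nhds.add (hlim.pow 2))
    · have := Real.pi_pos
      positivity
  have h2 : x / (Real.pi * (x ^ 2 + 0 ^ 2)) = 1 / (Real.pi * x) := by
    have := Real.pi_pos.ne'
    field_simp
    ring
  rw [h2] at h1
  exact h1

theorem TR_rep (f : ℝ → ℂ) (h1 : Integrable f) (h2 : MemLp f 2) :
    ∀ᵐ x, x ∉ tsupport f → TR 0 le_rfl (h2.toLp f) x =
      ∫ y, ((1 / (Real.pi * (x - y)) : ℝ) : ℂ) * f y := by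
  set e : ℕ → ℝ := fun n => 1 / ((n : ℝ) + 1) with he
  have he0 : ∀ n, 0 < e n := fun n => by simp only [he]; positivity
  have hlim : Tendsto e atTop (𝓝 0) := tendsto_one_div_add_atTop_nhds_zero_nat
  have h3 := TR_tendsto (h2.toLp f) e (fun n => (he0 n).le) hlim
  have h4 : TendstoInMeasure volume (fun n => (TR (e n) (he0 n).le (h2.toLp f) : ℝ → ℂ)) atTop
      (TR 0 le_rfl (h2.toLp f) : ℝ → ℂ) := by
    apply tendstoInMeasure_of_tendsto_eLpNorm (p := 2) (by norm_num)
      (fun n => Lp.aestronglyMeasurable _) (Lp.aestronglyMeasurable _)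
    rwa [Lp.tendsto_Lp_iff_tendsto_eLpNorm'] at h3
  obtain ⟨ns, hns, hae⟩ := h4.exists_seq_tendsto_ae
  have h5 : ∀ᵐ x, ∀ n, (TR (e n) (he0 n).le (h2.toLp f) : ℝ → ℂ) x = ∫ y, qk (e n) (x - y) * f y :=
    ae_all_iff.2 fun n => TR_conv (he0 n) f h1 h2
  filter_upwards [hae, h5] with x hx hx5 hxs
  have h6 : Tendsto (fun n => ∫ y, qk (e (ns n)) (x - y) * f y) atTop
      (𝓝 (∫ y, ((1 / (Real.pi * (x - y)) : ℝ) : ℂ) * f y)) := by
    obtain ⟨δ, hδ, hball⟩ : ∃ δ > 0, ∀ y ∈ tsupport f, δ ≤ |x - y| := by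
      have hop : IsOpen (tsupport f)ᶜ := (isClosed_tsupport f).isOpen_compl
      obtain ⟨δ, hδ, hb⟩ := Metric.isOpen_iff.1 hop x hxs
      refine ⟨δ, hδ, fun y hy => ?_⟩
      by_contra hcon
      push Not at hcon
      have : y ∈ ball x δ := by rw [mem_ball, dist_comm, Real.dist_eq]; exact hcon
      exact hb this hy
    apply tendsto_integral_of_dominated_convergence (fun y => 1 / (Real.pi * δ) * ‖f y‖)
    · intro n
      have : Measurable (fun y => qk (e (ns n)) (x - y)) := by
        unfold qk; fun_prop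
      exact this.aestronglyMeasurable.mul h1.1
    · exact h1.norm.const_mul _
    · intro n
      refine ae_of_all _ fun y => ?_
      rw [norm_mul]
      by_cases hy : y ∈ tsupport f
      · have h7 := hball y hy
        have hpi := Real.pi_pos
        apply mul_le_mul_of_nonneg_right _ (norm_nonneg _)
        refine (qk_norm_le _ _).trans ?_
        apply one_div_le_one_div_of_le (by positivity)
        exact mul_le_mul_of_nonneg_left h7 hpi.le
      · rw [image_eq_zero_of_notMem_tsupport hy]; simp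
    · refine ae_of_all _ fun y => ?_
      by_cases hy : y ∈ tsupport f
      · have h7 := hball y hy
        have h8 : x - y ≠ 0 := by
          intro h0; rw [h0, abs_zero] at h7; linarith
        exact (qk_tendsto h8 _ (hlim.comp hns.tendsto_atTop)).mul_const _
      · rw [image_eq_zero_of_notMem_tsupport hy]; simp
  have h7 : Tendsto (fun n => ∫ y, qk (e (ns n)) (x - y) * f y) atTop
      (𝓝 (TR 0 le_rfl (h2.toLp f) x)) := by
    refine hx.congr fun n => ?_
    exact hx5 (ns n)
  exact tendsto_nhds_unique h7 h6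

end Pool.Agent.Y247.Hil
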