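import Pool.Agent.Y247.Hil.Op3

/-!
The Hilbert transform as a Calderon-Zygmund operator on `Fin 1 → ℝ`.
-/

set_option autoImplicit false

namespace Pool.Agent.Y247.Hil

open MeasureTheory Metric Filter Topology
open scoped ENNReal NNReal
open Pool.Agent.H433R3.Sep (IsCZO el)

/-- identification of `Fin 1 → ℝ` with `ℝ` -/
noncomputable def e1 : (Fin 1 → ℝ) ≃ᵐ ℝ := MeasurableEquiv.funUnique (Fin 1) ℝ

lemma e1_apply (x : Fin 1 → ℝ) : e1 x = x 0 := rfl

lemma e1_symm_apply (y : ℝ) (i : Fin 1) : e1.symm y i = y := rfl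

lemma e1_mp : MeasurePreserving e1 volume volume := volume_preserving_funUnique (Fin 1) ℝ

lemma e1_mps : MeasurePreserving e1.symm volume volume := e1_mp.symm

/-- the kernel -/
noncomputable def KK (x y : Fin 1 → ℝ) : ℂ := ((1 / (Real.pi * (x 0 - y 0)) : ℝ) : ℂ)

/-- the operator on `Fin 1 → ℝ` -/
noncomputable def T1 : Lp ℂ 2 (volume : Measure (Fin 1 → ℝ)) →L[ℂ]
    Lp ℂ 2 (volume : Measure (Fin 1 → ℝ)) :=
  (Lp.compMeasurePreservingₗᵢ ℂ e1 e1_mp).toContinuousLinearMap ∘L (TR 0 le_rfl) ∘L
    (Lp.compMeasurePreservingₗᵢ ℂ e1.symm e1_mps).toContinuousLinearMap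

lemma el_one (x y : Fin 1 → ℝ) : el (x - y) = |x 0 - y 0| := by
  unfold el
  rw [Fin.sum_univ_one, Real.sqrt_sq_eq_abs]
  rfl

lemma ne_iff_one (x y : Fin 1 → ℝ) : x ≠ y ↔ x 0 - y 0 ≠ 0 := by
  rw [sub_ne_zero, Ne, Ne, not_iff_not]
  constructor
  · intro h; rw [h]
  · intro h; funext i; rw [Subsingleton.elim i 0]; exact h

theorem isCZO : IsCZO T1 KK where
  rep := by
    intro f hf hB hc
    have hf1 : Integrable f volume := by
      obtain ⟨B, hB⟩ := hB
      have hm := hf.1
      have hfin : volume (tsupport f) < ∞ := hc.isCompact.measure_lt_top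
      have h1 : IntegrableOn f (tsupport f) volume := by
        refine Measure.integrableOn_of_bounded (M := B) hfin.ne hm ?_
        exact ae_of_all _ hB
      rw [← integrableOn_iff_integrable_of_support_subset (subset_tsupport f)]
      exact h1
    set g : ℝ → ℂ := fun y => f (e1.symm y) with hg
    have hg1 : Integrable g volume := (e1_mps.integrable_comp_emb e1.symm.measurableEmbedding).2 hf1
    have hg2 : MemLp g 2 volume := hf.comp_measurePreserving e1_mps
    have hrep := TR_rep g hg1 hg2
    have h3 : Lp.compMeasurePreserving e1.symm e1_mps (hf.toLp f) = hg2.toLp g := by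
      rw [Lp.toLp_compMeasurePreserving hf e1_mps]
      rfl
    have h4 : T1 (hf.toLp f) = Lp.compMeasurePreserving e1 e1_mp (TR 0 le_rfl (hg2.toLp g)) := by
      rw [← h3]; rfl
    rw [h4]
    filter_upwards [Lp.coeFn_compMeasurePreserving (TR 0 le_rfl (hg2.toLp g)) e1_mp,
      e1_mp.quasiMeasurePreserving.ae hrep] with x hx hx2 hxs
    rw [hx, Function.comp_apply]
    have hxs' : e1 x ∉ tsupport g := by
      intro hcon
      apply hxs
      have hcl : tsupport g ⊆ e1.symm ⁻¹' (tsupport f) := by
        apply closure_minimal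
        · intro y hy
          exact subset_tsupport f hy
        · have hcont : Continuous (e1.symm : ℝ → (Fin 1 → ℝ)) := by
            apply continuous_pi
            intro i
            exact continuous_id
          exact (isClosed_tsupport f).preimage hcont
      have := hcl hcon
      rwa [Set.mem_preimage, MeasurableEquiv.symm_apply_apply] at this
    rw [hx2 hxs']
    rw [← e1_mp.integral_comp e1.measurableEmbedding]
    congr 1
    funext y
    simp only [hg, MeasurableEquiv.symm_apply_apply]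
    rfl
  size := by
    refine ⟨1 / Real.pi, fun x y hxy => ?_⟩
    have hpi := Real.pi_pos
    rw [el_one, pow_one]
    unfold KK
    rw [Complex.norm_real, Real.norm_eq_abs, abs_div, abs_mul, abs_one, abs_of_pos hpi,
      div_div]
  reg := by
    refine ⟨4 / Real.pi, 1, one_pos, le_rfl, fun x x' y hxy hle => ?_⟩
    have hpi := Real.pi_pos
    rw [el_one, el_one] at *
    rw [ne_iff_one] at hxy
    set a := x 0 - y 0 with ha
    set b := x' 0 - y 0 with hb
    have hab : x 0 - x' 0 = a - b := by rw [ha, hb]; ring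
    rw [hab] at hle ⊢
    have ha0 : 0 < |a| := abs_pos.2 hxy
    have hb1 : |a| / 2 ≤ |b| := by
      have := abs_sub_abs_le_abs_sub a b
      linarith
    have hb0 : 0 < |b| := by linarith
    have hbne : b ≠ 0 := abs_pos.1 hb0
    have hane : a ≠ 0 := hxy
    have e1' : KK x y - KK x' y = ((1 / Real.pi * ((b - a) / (a * b)) : ℝ) : ℂ) := by
      unfold KK
      rw [← Complex.ofReal_sub]
      congr 1
      rw [← ha, ← hb]
      field_simp
    have e2' : KK y x - KK y x' = -((1 / Real.pi * ((b - a) / (a * b)) : ℝ) : ℂ) := by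
      unfold KK
      rw [← Complex.ofReal_sub, ← Complex.ofReal_neg]
      congr 1
      have h1 : y 0 - x 0 = -a := by rw [ha]; ring
      have h2 : y 0 - x' 0 = -b := by rw [hb]; ring
      rw [h1, h2]
      field_simp
      ring
    rw [e1', e2', norm_neg, Complex.norm_real, Real.norm_eq_abs, abs_mul, abs_div, abs_div, abs_mul,
      abs_one, abs_of_pos hpi, Real.rpow_one, abs_sub_comm b a]
    have h5 : |a| ^ (((1:ℕ) : ℝ) + 1) = |a| ^ 2 := by
      rw [show (((1:ℕ) : ℝ) + 1) = ((2:ℕ):ℝ) by norm_num, Real.rpow_natCast]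
    rw [h5]
    have h6 : |a - b| / (|a| * |b|) ≤ 2 * |a - b| / |a| ^ 2 := by
      rw [div_le_div_iff₀ (by positivity) (by positivity)]
      have h7 : 0 ≤ |a - b| := abs_nonneg _
      nlinarith [mul_nonneg h7 ha0.le, mul_nonneg (mul_nonneg h7 ha0.le) (sub_nonneg.2 hb1)]
    calc 1 / Real.pi * (|a - b| / (|a| * |b|)) + 1 / Real.pi * (|a - b| / (|a| * |b|))
        = 2 / Real.pi * (|a - b| / (|a| * |b|)) := by ring
      _ ≤ 2 / Real.pi * (2 * |a - b| / |a| ^ 2) := by
          apply mul_le_mul_of_nonneg_left h6; positivity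
      _ = 4 / Real.pi * |a - b| / |a| ^ 2 := by ring

end Pool.Agent.Y247.Hil
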