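import Pool.Agent.TH279.RI.Asm4
import Pool.Agent.H433R3.Ml10

/-!
Weighted bound of maximal truncations of Calderon-Zygmund operators for `A_p` weights, from the
pointwise sparse domination of `Pool.Agent.TH279.RI.Dom` and the bound for sparse families of
`Pool.Agent.H433R3.Ml9`.
-/

set_option autoImplicit false
set_option linter.unusedSectionVars false
set_option linter.unusedVariables false

namespace Pool.Agent.Y247.Hil

open MeasureTheory Metric Filter Topology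
open scoped ENNReal NNReal
open Pool.Agent.H433R3.Sep (Idx gq gq_meas gq_vol_pos gq_lam gq_nonempty gq_inj wm SLam cor dil
  avg ix IsCZO el exists_ball dil_meas)
open Pool.Agent.H433R3.Ml (WM sg WData OneSup sg_pos sg_meas famBound g0_pow)
open Pool.Agent.TH279.RI (TS dominStar TS_approx)

variable {d : ℕ} {𝕜 : Type*} [RCLike 𝕜]
variable {T : Lp 𝕜 2 (volume : Measure (Fin d → ℝ)) →L[𝕜] Lp 𝕜 2 (volume : Measure (Fin d → ℝ))}
variable {K : (Fin d → ℝ) → (Fin d → ℝ) → 𝕜}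

/-- majorants for bounded compactly supported functions -/
lemma majAp (hd : 0 < d) {p q : ℝ} (hpq : p.HolderConjugate q) (hT : IsCZO T K) :
    ∃ C : ℝ≥0, ∀ (w : (Fin d → ℝ) → ℝ), WData q w → ∀ N : ℝ, 0 ≤ N → OneSup p 1 N w (sg q w) →
    ∀ N' : ℝ, 0 ≤ N' → OneSup q 1 N' (sg q w) w →
    ∀ (h : (Fin d → ℝ) → 𝕜), Measurable h → ∀ B : ℝ≥0, (∀ x, ‖h x‖ ≤ B) → ∀ R : ℝ,
    (∀ x, x ∉ closedBall 0 R → h x = 0) → ∫⁻ x, ‖h x‖ₑ ^ p ∂(WM w) ≠ ∞ →
    ∀ (t : Fin d → Bool) (I₀ : Idx d),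
    closedBall 0 R ⊆ gq t I₀ →
    ∃ W : (Fin d → ℝ) → ℝ≥0∞, Measurable W ∧ (∀ᵐ x, x ∈ gq t I₀ → TS K h x ≤ W x) ∧
        ∫⁻ x, W x ^ p ∂(WM w) ≤ C * ENNReal.ofReal ((N + N') ^ p) *
          ∫⁻ x, ‖h x‖ₑ ^ p ∂(WM w) := by
  classical
  obtain ⟨a, A, ha, hdom⟩ := dominStar hd hT
  have hp1 : 1 / p < 1 := by
    rw [div_lt_one hpq.pos]; exact hpq.lt
  have hq1 : 1 / q < 1 := by
    rw [div_lt_one hpq.symm.pos]; exact hpq.symm.lt
  obtain ⟨C₀, hC₀⟩ := famBound hd hpq hp1 hq1 a ha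
  have hp := hpq.pos
  refine ⟨A ^ p * C₀, ?_⟩
  intro w hw N hN hone N' hN' hone' h hh B hB R h0 hfin t I₀ hI₀
  obtain ⟨S, E, hE1, hE2, hE3, hE4, hE5⟩ := hdom h hh B hB 0 R h0 t I₀ hI₀
  have hσm := sg_meas hw
  set g₀ : (Fin d → ℝ) → ℝ≥0∞ := fun x => ‖h x‖ₑ * (ENNReal.ofReal (sg q w x))⁻¹ with hg₀
  have hg₀m : Measurable g₀ := hh.enorm.mul hσm.ennreal_ofReal.inv
  have hg₀p : ∫⁻ x, g₀ x ^ p ∂(WM (sg q w)) = ∫⁻ x, ‖h x‖ₑ ^ p ∂(WM w) :=
    g0_pow hpq hw (fun x => ‖h x‖ₑ) hh.enorm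
  have havg : ∀ I, avg a t h I =
      (∫⁻ z in dil a t I, g₀ z ∂(WM (sg q w))) / volume (dil a t I) := by
    intro I
    unfold avg WM
    rw [setLIntegral_withDensity_eq_setLIntegral_mul volume hσm.ennreal_ofReal hg₀m
      (dil_meas a t I)]
    congr 1
    apply lintegral_congr
    intro x
    simp only [Pi.mul_apply, hg₀]
    have hs := sg_pos hw x
    have h1 : ENNReal.ofReal (sg q w x) ≠ 0 := by simpa using hs
    calc ‖h x‖ₑ = (ENNReal.ofReal (sg q w x) * (ENNReal.ofReal (sg q w x))⁻¹) * ‖h x‖ₑ := by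
          rw [ENNReal.mul_inv_cancel h1 ENNReal.ofReal_ne_top, one_mul]
      _ = _ := by ring
  -- partial sums
  set P : Finset S → (Fin d → ℝ) → ℝ≥0∞ := fun s x => ∑ I ∈ s, (gq t (I : Idx d)).indicator
    (fun _ => avg a t h I) x with hP
  have hPm : ∀ s, Measurable (P s) := fun s =>
    Finset.measurable_fun_sum _ (fun I _ => measurable_const.indicator (gq_meas _ _))
  have hPmono : ∀ s s' : Finset S, s ⊆ s' → ∀ x, P s x ≤ P s' x := fun s s' hss x =>
    Finset.sum_le_sum_of_subset hss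
  have hPeq : ∀ s : Finset S, ∀ x, ∑ I ∈ s.map (Function.Embedding.subtype _),
      (gq t I).indicator (fun _ => (∫⁻ z in dil a t I, g₀ z ∂(WM (sg q w))) /
        volume (dil a t I)) x = P s x := by
    intro s x
    rw [Finset.sum_map]
    apply Finset.sum_congr rfl
    intro I _
    rw [havg]
    rfl
  have hs1 : ∀ s : Finset S, ∀ I ∈ s.map (Function.Embedding.subtype _), MeasurableSet (E I) := by
    intro s I hI
    obtain ⟨I', _, rfl⟩ := Finset.mem_map.1 hI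
    exact hE1 _ I'.2
  have hs2 : ∀ s : Finset S, ∀ I ∈ s.map (Function.Embedding.subtype _), E I ⊆ gq t I := by
    intro s I hI
    obtain ⟨I', _, rfl⟩ := Finset.mem_map.1 hI
    exact hE2 _ I'.2
  have hs3 : ∀ s : Finset S, ∀ I ∈ s.map (Function.Embedding.subtype _),
      volume (gq t I) ≤ 2 * volume (E I) := by
    intro s I hI
    obtain ⟨I', _, rfl⟩ := Finset.mem_map.1 hI
    exact hE3 _ I'.2
  have hs4 : ∀ s : Finset S, ∀ I ∈ s.map (Function.Embedding.subtype _),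
      ∀ J ∈ s.map (Function.Embedding.subtype _), I ≠ J → Disjoint (E I) (E J) := by
    intro s I hI J hJ
    obtain ⟨I', _, rfl⟩ := Finset.mem_map.1 hI
    obtain ⟨J', _, rfl⟩ := Finset.mem_map.1 hJ
    exact hE4 _ I'.2 _ J'.2
  set W : (Fin d → ℝ) → ℝ≥0∞ := fun x => A * ⨆ s, P s x with hW
  have hWeq : ∀ x, (A : ℝ≥0∞) * ∑' I : S, (gq t (I : Idx d)).indicator
        (fun _ => avg a t h I) x = W x := by
    intro x
    rw [ENNReal.tsum_eq_iSup_sum]
  refine ⟨W, (Measurable.iSup hPm).const_mul _, ?_, ?_⟩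
  · filter_upwards [hE5] with x hx hxI
    rw [← hWeq]
    exact hx hxI
  · have e : ∀ x, W x ^ p = ⨆ s, (A * P s x) ^ p := by
      intro x
      simp only [hW]
      rw [ENNReal.mul_iSup]
      exact (ENNReal.orderIsoRpow p hp).map_iSup _
    simp_rw [e]
    rw [lintegral_iSup_directed (fun s => (((hPm s).const_mul _).pow_const p).aemeasurable)]
    · apply iSup_le
      intro s
      have h1 := (hC₀ w hw N hN hone t (s.map (Function.Embedding.subtype _)) E (hs1 s)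
          (hs2 s) (hs3 s) (hs4 s) g₀ hg₀m (by rw [hg₀p]; exact hfin)).2 N' hN' hone'
      simp only [hPeq] at h1
      rw [hg₀p] at h1
      calc ∫⁻ x, (A * P s x) ^ p ∂(WM w) = (A : ℝ≥0∞) ^ p * ∫⁻ x, P s x ^ p ∂(WM w) := by
            simp_rw [ENNReal.mul_rpow_of_nonneg _ _ hp.le]
            rw [lintegral_const_mul _ ((hPm s).pow_const p)]
        _ ≤ (A : ℝ≥0∞) ^ p * (C₀ * ENNReal.ofReal ((N + N') ^ p) *
              ∫⁻ x, ‖h x‖ₑ ^ p ∂(WM w)) := mul_le_mul' le_rfl h1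
        _ = _ := by
            rw [ENNReal.coe_mul, ENNReal.coe_rpow_of_nonneg _ hp.le]
            ring
    · intro s s'
      refine ⟨s ∪ s', fun x => ?_, fun x => ?_⟩
      · exact ENNReal.rpow_le_rpow (mul_le_mul' le_rfl
          (hPmono _ _ Finset.subset_union_left x)) hp.le
      · exact ENNReal.rpow_le_rpow (mul_le_mul' le_rfl
          (hPmono _ _ Finset.subset_union_right x)) hp.le

/-- maximal truncations are bounded on `L^p(w)` for `A_p` weights -/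
theorem genAp (hd : 0 < d) {p q : ℝ} (hpq : p.HolderConjugate q) (hT : IsCZO T K) :
    ∃ C : ℝ≥0, ∀ (w : (Fin d → ℝ) → ℝ), WData q w → ∀ N : ℝ, 0 ≤ N → OneSup p 1 N w (sg q w) →
    ∀ N' : ℝ, 0 ≤ N' → OneSup q 1 N' (sg q w) w →
    ∀ f : (Fin d → ℝ) → 𝕜, Measurable f → ∫⁻ x, ‖f x‖ₑ ^ p ∂(WM w) ≠ ∞ →
        ∫⁻ x, TS K f x ^ p ∂(WM w) ≤
          C * ENNReal.ofReal ((N + N') ^ p) * ∫⁻ y, ‖f y‖ₑ ^ p ∂(WM w) := by
  classical
  obtain ⟨C, hC⟩ := majAp hd hpq hT
  have hp := hpq.pos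
  refine ⟨C, ?_⟩
  intro w hw N hN hone N' hN' hone' h hhm hfin
  set A : ℕ → Set (Fin d → ℝ) := fun k => {y | ‖h y‖ ≤ k} ∩ closedBall 0 k with hA
  have hAm : ∀ k, MeasurableSet (A k) := fun k =>
    (measurableSet_le hhm.norm measurable_const).inter measurableSet_closedBall
  have hev : ∀ x, ∀ᶠ k in atTop, x ∈ A k := by
    intro x
    obtain ⟨N, hN⟩ := exists_nat_ge (max ‖h x‖ ‖x‖)
    filter_upwards [eventually_ge_atTop N] with k hk
    have hk' : (N : ℝ) ≤ k := by exact_mod_cast hk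
    refine ⟨?_, ?_⟩
    · exact (le_max_left _ _).trans (hN.trans hk')
    · rw [mem_closedBall, dist_zero_right]
      exact (le_max_right _ _).trans (hN.trans hk')
  set hk : ℕ → (Fin d → ℝ) → 𝕜 := fun k => (A k).indicator h with hhk
  have hhkm : ∀ k, Measurable (hk k) := fun k => hhm.indicator (hAm k)
  have hbd : ∀ k y, ‖hk k y‖ ≤ ((k : ℝ≥0) : ℝ) := by
    intro k y
    by_cases hy : y ∈ A k
    · simp only [hhk]
      rw [Set.indicator_of_mem hy]
      have := hy.1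
      simpa using this
    · simp only [hhk]
      rw [Set.indicator_of_notMem hy, norm_zero]
      exact NNReal.coe_nonneg _
  have hsupp : ∀ (k : ℕ) y, y ∉ closedBall (0 : Fin d → ℝ) (k : ℝ) → hk k y = 0 := by
    intro k y hy
    simp only [hhk]
    exact Set.indicator_of_notMem (fun h' => hy h'.2) _
  have hball : ∀ k : ℕ, ∃ j : ℕ, closedBall (0 : Fin d → ℝ) (k : ℝ) ⊆
      gq (fun _ => true) (ix (fun _ => true) (j:ℤ) 0) := by
    intro k
    obtain ⟨N, hN⟩ := exists_ball (d := d) (k : ℝ) (Nat.cast_nonneg k)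
    exact ⟨N, hN N le_rfl⟩
  choose j hj using hball
  have hgle : ∀ k, ∫⁻ y, ‖hk k y‖ₑ ^ p ∂(WM w) ≤ ∫⁻ y, ‖h y‖ₑ ^ p ∂(WM w) := by
    intro k
    apply lintegral_mono
    intro y
    apply ENNReal.rpow_le_rpow _ hp.le
    simp only [hhk]
    rw [enorm_indicator_eq_indicator_enorm]
    exact Set.indicator_le_self _ _ y
  have hW := fun k : ℕ => hC w hw N hN hone N' hN' hone' (hk k) (hhkm k)
    (k : ℝ≥0) (hbd k) (k : ℝ) (hsupp k) (ne_top_of_le_ne_top hfin (hgle k)) (fun _ => true)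
    (ix (fun _ => true) (j k : ℤ) 0) (hj k)
  choose W hWm hWae hWstrong using hW
  have hac : WM w ≪ volume := withDensity_absolutelyContinuous _ _
  have hae : ∀ᵐ x ∂(WM w), ∀ lam : ℝ≥0∞, lam < TS K h x → ∀ᶠ k in atTop, lam < W k x := by
    have h1 : ∀ᵐ x, ∀ k, x ∈ gq (fun _ => true) (ix (fun _ => true) (j k : ℤ) 0) →
        TS K (hk k) x ≤ W k x := ae_all_iff.2 hWae
    filter_upwards [hac.ae_le h1] with x hx lam hlam
    have h2 := TS_approx K h A hAm hev x lam hlam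
    filter_upwards [h2, hev x] with k hk1 hk2
    exact lt_of_lt_of_le hk1 (hx k (hj k hk2.2))
  have h1 : ∀ᵐ x ∂(WM w), TS K h x ^ p ≤ liminf (fun k => W k x ^ p) atTop := by
    filter_upwards [hae] with x hx
    apply le_of_forall_lt_imp_le_of_dense
    intro c hc
    have hc' : c ^ p⁻¹ < TS K h x := by
      rw [ENNReal.rpow_inv_lt_iff hp]
      exact hc
    apply le_liminf_of_le
    · isBoundedDefault
    · filter_upwards [hx _ hc'] with k hk1
      rw [ENNReal.rpow_inv_lt_iff hp] at hk1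
      exact hk1.le
  calc ∫⁻ x, TS K h x ^ p ∂(WM w)
      ≤ ∫⁻ x, liminf (fun k => W k x ^ p) atTop ∂(WM w) := lintegral_mono_ae h1
    _ ≤ liminf (fun k => ∫⁻ x, W k x ^ p ∂(WM w)) atTop :=
        lintegral_liminf_le (fun k => (hWm k).pow_const p)
    _ ≤ liminf (fun _ : ℕ => C * ENNReal.ofReal ((N + N') ^ p) * ∫⁻ y, ‖h y‖ₑ ^ p ∂(WM w))
          atTop := by
        exact liminf_le_liminf (Eventually.of_forall (fun k =>
          (hWstrong k).trans (mul_le_mul' le_rfl (hgle k))))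
    _ = _ := by rw [liminf_const]

end Pool.Agent.Y247.Hil
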