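import Pool.Agent.Y247.Hil.Op4
import Pool.Agent.Y247.Hil.Sp

/-!
Principal values: the Hilbert transform of an integrable function exists almost everywhere.
-/

set_option autoImplicit false

namespace Pool.Agent.Y247.Hil

open MeasureTheory Metric Filter Topology
open scoped ENNReal NNReal ContDiff
open Pool.Agent.H433R3.Sep (IsCZO el)
open Pool.Agent.TH279.RI (TS TS_approx)

/-- truncated Hilbert transform -/
noncomputable def trunc (δ : ℝ) (f : ℝ → ℂ) (x : ℝ) : ℂ :=
  (1 / (Real.pi : ℂ)) * ∫ y in {y : ℝ | δ < |y - x|}, f y / ((x : ℂ) - y)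

/-- maximal truncated Hilbert transform -/
noncomputable def Hs (f : ℝ → ℂ) (x : ℝ) : ℝ≥0∞ := ⨆ (δ : ℝ) (_ : 0 < δ), ‖trunc δ f x‖ₑ

lemma far_meas (δ x : ℝ) : MeasurableSet {y : ℝ | δ < |y - x|} :=
  measurableSet_lt measurable_const (by fun_prop)

lemma Hs_eq (f : ℝ → ℂ) (x : Fin 1 → ℝ) : TS KK (fun y => f (e1 y)) x = Hs f (e1 x) := by
  unfold TS Hs
  congr 1; funext ε; congr 1; funext hε
  congr 1
  have h1 : {y : Fin 1 → ℝ | ε < el (x - y)} = e1 ⁻¹' {y : ℝ | ε < |y - e1 x|} := by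
    ext y
    rw [Set.mem_preimage, Set.mem_ofPred_eq, Set.mem_ofPred_eq, el_one, abs_sub_comm]
    rfl
  rw [h1]
  have h2 := e1_mp.setIntegral_preimage_emb e1.measurableEmbedding
    (fun y : ℝ => (1 / (Real.pi : ℂ)) * (f y / (((e1 x : ℝ) : ℂ) - y))) {y : ℝ | ε < |y - e1 x|}
  unfold trunc
  rw [← integral_const_mul, ← h2]
  congr 1
  funext y
  unfold KK
  simp only [e1_apply]
  push_cast
  rw [div_mul_eq_mul_div, one_mul, div_mul_div_comm, one_mul]

lemma near_meas (δ x : ℝ) : MeasurableSet {y : ℝ | δ < |y - x| ∧ |y - x| ≤ 1} := by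
  have h1 : MeasurableSet {y : ℝ | |y - x| ≤ 1} := measurableSet_le (by fun_prop) measurable_const
  exact (far_meas δ x).inter h1

lemma trunc_congr {f g : ℝ → ℂ} (h : f =ᵐ[volume] g) (δ x : ℝ) : trunc δ f x = trunc δ g x := by
  unfold trunc
  congr 1
  apply integral_congr_ae
  filter_upwards [ae_restrict_of_ae h] with y hy
  rw [hy]

lemma Hs_congr {f g : ℝ → ℂ} (h : f =ᵐ[volume] g) (x : ℝ) : Hs f x = Hs g x := by
  unfold Hs
  simp_rw [trunc_congr h]

/-- weak type (1,1) of maximal truncations -/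
theorem weakL1 : ∃ W : ℝ≥0, ∀ f : ℝ → ℂ, Integrable f → ∀ lam : ℝ≥0, 0 < lam →
    (lam : ℝ≥0∞) * volume {x | (lam : ℝ≥0∞) < Hs f x} ≤ W * ∫⁻ x, ‖f x‖ₑ := by
  obtain ⟨W, hW⟩ := Pool.Agent.TH304.RI.J593.weakStar (d := 1) one_pos isCZO
  refine ⟨W, ?_⟩
  intro f₀ hf₀ lam hlam
  -- a measurable representative
  set f : ℝ → ℂ := hf₀.1.mk f₀ with hf
  have hfm : Measurable f := hf₀.1.stronglyMeasurable_mk.measurable
  have hff : f₀ =ᵐ[volume] f := hf₀.1.ae_eq_mk
  have e0 : ∀ x, Hs f₀ x = Hs f x := Hs_congr hff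
  have e2 : ∫⁻ x, ‖f₀ x‖ₑ = ∫⁻ x, ‖f x‖ₑ := by
    apply lintegral_congr_ae
    filter_upwards [hff] with x hx
    rw [hx]
  simp_rw [e0]
  rw [e2]
  set h : (Fin 1 → ℝ) → ℂ := fun x => f (e1 x) with hh
  have hhm : Measurable h := hfm.comp e1.measurable
  have e3 : volume {x : ℝ | (lam : ℝ≥0∞) < Hs f x} =
      volume {x : Fin 1 → ℝ | (lam : ℝ≥0∞) < TS KK h x} := by
    have h1 : {x : Fin 1 → ℝ | (lam : ℝ≥0∞) < TS KK h x} =
        e1 ⁻¹' {x : ℝ | (lam : ℝ≥0∞) < Hs f x} := by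
      ext x
      rw [Set.mem_preimage, Set.mem_ofPred_eq, Set.mem_ofPred_eq, hh, Hs_eq]
    rw [h1, e1_mp.measure_preimage_equiv]
  have e4 : ∫⁻ x, ‖f x‖ₑ = ∫⁻ x, ‖h x‖ₑ := (e1_mp.lintegral_comp_emb e1.measurableEmbedding _).symm
  rw [e3, e4]
  set A : ℕ → Set (Fin 1 → ℝ) := fun k => {y | ‖h y‖ ≤ k} ∩ closedBall 0 k with hA
  have hAm : ∀ k, MeasurableSet (A k) := fun k =>
    (measurableSet_le hhm.norm measurable_const).inter measurableSet_closedBall
  have hev : ∀ x, ∀ᶠ k in atTop, x ∈ A k := by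
    intro x
    obtain ⟨N, hN⟩ := exists_nat_ge (max ‖h x‖ ‖x‖)
    filter_upwards [eventually_ge_atTop N] with k hk
    have hk' : (N : ℝ) ≤ k := by exact_mod_cast hk
    refine ⟨(le_max_left _ _).trans (hN.trans hk'), ?_⟩
    rw [mem_closedBall, dist_zero_right]
    exact (le_max_right _ _).trans (hN.trans hk')
  have hb : ∀ k : ℕ, (lam : ℝ≥0∞) * volume {x | (lam : ℝ≥0∞) < TS KK ((A k).indicator h) x} ≤
      W * ∫⁻ x, ‖h x‖ₑ := by
    intro k
    refine (hW ((A k).indicator h) (hhm.indicator (hAm k)) (k : ℝ≥0) ?_ 0 (k : ℝ) ?_ lam hlam).trans ?_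
    · intro y
      by_cases hy : y ∈ A k
      · rw [Set.indicator_of_mem hy]
        have := hy.1
        simpa using this
      · rw [Set.indicator_of_notMem hy, norm_zero]
        exact NNReal.coe_nonneg _
    · intro y hy
      exact Set.indicator_of_notMem (fun h' => hy h'.2) _
    · apply mul_le_mul' le_rfl
      apply lintegral_mono
      intro y
      show ‖(A k).indicator h y‖ₑ ≤ ‖h y‖ₑ
      rw [enorm_indicator_eq_indicator_enorm]
      exact Set.indicator_le_self _ _ y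
  set Bs : ℕ → Set (Fin 1 → ℝ) := fun N => {x | ∀ k, N ≤ k →
    (lam : ℝ≥0∞) < TS KK ((A k).indicator h) x} with hBs
  have hBmono : Monotone Bs := by
    intro N M hNM x hx k hk
    exact hx k (hNM.trans hk)
  have h1 : volume {x | (lam : ℝ≥0∞) < TS KK h x} ≤ volume (⋃ N, Bs N) := by
    apply measure_mono
    intro x hx
    obtain ⟨N, hN⟩ := eventually_atTop.1 (TS_approx KK h A hAm hev x lam hx)
    exact Set.mem_iUnion.2 ⟨N, hN⟩
  calc (lam : ℝ≥0∞) * volume {x | (lam : ℝ≥0∞) < TS KK h x}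
      ≤ lam * volume (⋃ N, Bs N) := mul_le_mul' le_rfl h1
    _ = ⨆ N, (lam : ℝ≥0∞) * volume (Bs N) := by
        rw [hBmono.measure_iUnion, ENNReal.mul_iSup]
    _ ≤ _ := by
        apply iSup_le
        intro N
        refine le_trans ?_ (hb N)
        apply mul_le_mul' le_rfl
        apply measure_mono
        intro x hx
        exact hx N le_rfl

/-- integrability of the truncated integrand -/
lemma trunc_int {f : ℝ → ℂ} (hf : Integrable f) {δ : ℝ} (hδ : 0 < δ) (x : ℝ) :
    IntegrableOn (fun y : ℝ => f y / ((x : ℂ) - y)) {y : ℝ | δ < |y - x|} := by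
  refine Integrable.mono' ((hf.norm.const_mul (1 / δ)).integrableOn) ?_ ?_
  · have : Measurable (fun y : ℝ => ((x : ℂ) - y)) := by fun_prop
    exact (hf.1.aemeasurable.div this.aemeasurable).aestronglyMeasurable.restrict
  · refine (ae_restrict_iff' (far_meas δ x)).2 (ae_of_all _ fun y hy => ?_)
    have hy' : δ < |y - x| := hy
    rw [norm_div, ← Complex.ofReal_sub, Complex.norm_real, Real.norm_eq_abs, abs_sub_comm]
    rw [div_eq_mul_inv, mul_comm, one_div]
    apply mul_le_mul_of_nonneg_right _ (norm_nonneg _)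
    exact inv_anti₀ hδ hy'.le

lemma trunc_sub {f g : ℝ → ℂ} (hf : Integrable f) (hg : Integrable g) {δ : ℝ} (hδ : 0 < δ)
    (x : ℝ) : trunc δ (fun y => f y - g y) x = trunc δ f x - trunc δ g x := by
  unfold trunc
  rw [← mul_sub, ← integral_sub (trunc_int hf hδ x) (trunc_int hg hδ x)]
  congr 2
  funext y
  rw [sub_div]

/-- oddness -/
lemma odd_zero (x : ℝ) (δ : ℝ) :
    ∫ y in {y : ℝ | δ < |y - x| ∧ |y - x| ≤ 1}, (1:ℂ) / ((x : ℂ) - y) = 0 := by
  set S : Set ℝ := {y : ℝ | δ < |y - x| ∧ |y - x| ≤ 1} with hS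
  have hSm : MeasurableSet S := near_meas δ x
  rw [← integral_indicator hSm]
  have h1 := integral_sub_left_eq_self
    (S.indicator (fun y : ℝ => (1:ℂ) / ((x : ℂ) - y))) (volume : Measure ℝ) (2 * x)
  have h2 : ∀ y : ℝ, S.indicator (fun y : ℝ => (1:ℂ) / ((x : ℂ) - y)) (2 * x - y) =
      -S.indicator (fun y : ℝ => (1:ℂ) / ((x : ℂ) - y)) y := by
    intro y
    have h3 : |2 * x - y - x| = |y - x| := by
      rw [show 2 * x - y - x = -(y - x) by ring, abs_neg]
    by_cases hy : y ∈ S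
    · have hy2 : 2 * x - y ∈ S := by
        show δ < |2 * x - y - x| ∧ |2 * x - y - x| ≤ 1
        rw [h3]; exact hy
      rw [Set.indicator_of_mem hy, Set.indicator_of_mem hy2]
      push_cast
      rw [show ((x : ℂ) - (2 * x - y)) = -((x : ℂ) - y) by ring, div_neg]
    · have hy2 : 2 * x - y ∉ S := by
        intro hc
        apply hy
        have hc' : δ < |2 * x - y - x| ∧ |2 * x - y - x| ≤ 1 := hc
        rw [h3] at hc'
        exact hc'
      rw [Set.indicator_of_notMem hy, Set.indicator_of_notMem hy2, neg_zero]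
  simp_rw [h2] at h1
  rw [integral_neg] at h1
  have h3 : (2:ℂ) * ∫ y, S.indicator (fun y : ℝ => (1:ℂ) / ((x : ℂ) - y)) y = 0 := by
    linear_combination -h1
  simpa using h3

/-- the principal value of a Lipschitz integrable function exists everywhere -/
lemma pv_lip {f : ℝ → ℂ} (hf : Integrable f) {L : ℝ≥0} (hL : LipschitzWith L f) (x : ℝ) :
    ∃ l, Tendsto (fun δ => trunc δ f x) (𝓝[>] 0) (𝓝 l) := by
  have hfc := hL.continuous
  set Φ : ℝ → ℝ → ℂ := fun δ y => {y : ℝ | δ < |y - x| ∧ |y - x| ≤ 1}.indicator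
    (fun y : ℝ => (f y - f x) / ((x : ℂ) - y)) y with hΦ
  have hSm : ∀ δ, MeasurableSet {y : ℝ | δ < |y - x| ∧ |y - x| ≤ 1} := fun δ => near_meas δ x
  have hΦm : ∀ δ, AEStronglyMeasurable (Φ δ) volume := by
    intro δ
    refine AEStronglyMeasurable.indicator ?_ (hSm δ)
    have h1 : Measurable (fun y : ℝ => (f y - f x)) := by fun_prop
    have h2 : Measurable (fun y : ℝ => ((x : ℂ) - y)) := by fun_prop
    exact (h1.div h2).aestronglyMeasurable
  have hbd : ∀ δ y, ‖Φ δ y‖ ≤ (closedBall x 1).indicator (fun _ => (L : ℝ)) y := by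
    intro δ y
    simp only [hΦ]
    by_cases hy : y ∈ {y : ℝ | δ < |y - x| ∧ |y - x| ≤ 1}
    · have hyb : y ∈ closedBall x 1 := by
        rw [mem_closedBall, Real.dist_eq]; exact hy.2
      rw [Set.indicator_of_mem hy, Set.indicator_of_mem hyb, norm_div]
      apply div_le_of_le_mul₀ (norm_nonneg _) L.coe_nonneg
      have := hL.dist_le_mul y x
      rw [dist_eq_norm, dist_eq_norm] at this
      rw [← Complex.ofReal_sub, Complex.norm_real, norm_sub_rev x y]
      exact this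
    · rw [Set.indicator_of_notMem hy, norm_zero]
      exact Set.indicator_nonneg (fun _ _ => L.coe_nonneg) _
  have hbint : Integrable ((closedBall x 1).indicator (fun _ => (L : ℝ))) volume := by
    rw [integrable_indicator_iff measurableSet_closedBall]
    exact integrableOn_const (by
      rw [Real.volume_closedBall]; exact ENNReal.ofReal_ne_top) (by simp)
  have hlim : Tendsto (fun δ => ∫ y, Φ δ y) (𝓝[>] 0) (𝓝 (∫ y, Φ 0 y)) := by
    apply tendsto_integral_filter_of_dominated_convergence _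
      (Eventually.of_forall hΦm) (Eventually.of_forall fun δ => ae_of_all _ (hbd δ)) hbint
    refine ae_of_all _ fun y => ?_
    apply tendsto_const_nhds.congr'
    by_cases hyx : y = x
    · filter_upwards [self_mem_nhdsWithin] with δ hδ
      simp only [hΦ]
      have h1 : y ∉ {y : ℝ | (0:ℝ) < |y - x| ∧ |y - x| ≤ 1} := by
        intro h; have := h.1; rw [hyx] at this; simp at this
      have h2 : y ∉ {y : ℝ | δ < |y - x| ∧ |y - x| ≤ 1} := by
        intro h; have h3 := h.1; rw [hyx, sub_self, abs_zero] at h3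
        exact absurd h3 (not_lt.2 (le_of_lt hδ))
      rw [Set.indicator_of_notMem h1, Set.indicator_of_notMem h2]
    · have hpos : 0 < |y - x| := abs_pos.2 (sub_ne_zero.2 hyx)
      have : ∀ᶠ δ in 𝓝[>] (0:ℝ), δ < |y - x| :=
        nhdsWithin_le_nhds (eventually_lt_nhds hpos)
      filter_upwards [this] with δ hδ
      simp only [hΦ]
      by_cases h1 : |y - x| ≤ 1
      · rw [Set.indicator_of_mem (show y ∈ {y : ℝ | (0:ℝ) < |y - x| ∧ |y - x| ≤ 1} from ⟨hpos, h1⟩),
          Set.indicator_of_mem (show y ∈ {y : ℝ | δ < |y - x| ∧ |y - x| ≤ 1} from ⟨hδ, h1⟩)]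
      · rw [Set.indicator_of_notMem (fun h => h1 h.2), Set.indicator_of_notMem (fun h => h1 h.2)]
  refine ⟨trunc 1 f x + (1 / (Real.pi : ℂ)) * ∫ y, Φ 0 y, ?_⟩
  refine ((hlim.const_mul (1 / (Real.pi : ℂ))).const_add (trunc 1 f x)).congr' ?_
  have hev : ∀ᶠ δ in 𝓝[>] (0:ℝ), δ < 1 := nhdsWithin_le_nhds (eventually_lt_nhds one_pos)
  filter_upwards [self_mem_nhdsWithin, hev] with δ hδ hδ1
  have hδ' : 0 < δ := hδ
  have hsplit : {y : ℝ | δ < |y - x|} = {y : ℝ | 1 < |y - x|} ∪
      {y : ℝ | δ < |y - x| ∧ |y - x| ≤ 1} := by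
    ext y
    simp only [Set.mem_union, Set.mem_ofPred_eq]
    constructor
    · intro h
      rcases lt_or_ge 1 |y - x| with h1 | h1
      · exact Or.inl h1
      · exact Or.inr ⟨h, h1⟩
    · rintro (h | h)
      · linarith
      · exact h.1
  have hdisj : Disjoint {y : ℝ | 1 < |y - x|} {y : ℝ | δ < |y - x| ∧ |y - x| ≤ 1} := by
    rw [Set.disjoint_left]
    intro y h1 h2
    have h1' : 1 < |y - x| := h1
    linarith [h2.2]
  have hi := trunc_int hf hδ' x
  have hi2 : IntegrableOn (fun y : ℝ => f y / ((x : ℂ) - y)) {y : ℝ | δ < |y - x| ∧ |y - x| ≤ 1} :=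
    hi.mono_set (fun y hy => hy.1)
  have hi3 : IntegrableOn (fun y : ℝ => f x / ((x : ℂ) - y)) {y : ℝ | δ < |y - x| ∧ |y - x| ≤ 1} := by
    have h1 : IntegrableOn (fun _ : ℝ => |1 / δ| * ‖f x‖) {y : ℝ | δ < |y - x| ∧ |y - x| ≤ 1} := by
      apply integrableOn_const
      · apply ne_top_of_le_ne_top (b := volume (closedBall x 1))
        · rw [Real.volume_closedBall]; exact ENNReal.ofReal_ne_top
        · apply measure_mono
          intro y hy
          rw [mem_closedBall, Real.dist_eq]; exact hy.2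
      · exact enorm_ne_top
    refine Integrable.mono' h1 ?_ ?_
    · have h2 : Measurable (fun y : ℝ => f x / ((x : ℂ) - y)) := by fun_prop
      exact h2.aestronglyMeasurable
    · refine (ae_restrict_iff' (hSm δ)).2 (ae_of_all _ fun y hy => ?_)
      rw [norm_div, ← Complex.ofReal_sub, Complex.norm_real, Real.norm_eq_abs, abs_sub_comm,
        div_eq_mul_inv, mul_comm, abs_of_pos (by positivity : 0 < 1 / δ), one_div]
      apply mul_le_mul_of_nonneg_right _ (norm_nonneg _)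
      exact inv_anti₀ hδ' hy.1.le
  unfold trunc
  rw [hsplit, setIntegral_union hdisj (hSm δ) (hi.mono_set (by
    intro y hy; have hy' : 1 < |y - x| := hy; show δ < |y - x|; linarith)) hi2, mul_add]
  congr 2
  have e1 : ∫ y, Φ δ y = ∫ y in {y : ℝ | δ < |y - x| ∧ |y - x| ≤ 1},
      (f y / ((x : ℂ) - y) - f x / ((x : ℂ) - y)) := by
    rw [← integral_indicator (hSm δ)]
    congr 1
    funext y
    simp only [hΦ]
    congr 1
    funext y
    rw [sub_div]
  rw [e1, integral_sub hi2 hi3]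
  have e2 : ∫ y in {y : ℝ | δ < |y - x| ∧ |y - x| ≤ 1}, f x / ((x : ℂ) - y) = 0 := by
    have : ∀ y : ℝ, f x / ((x : ℂ) - y) = f x * (1 / ((x : ℂ) - y)) := fun y => by ring
    simp_rw [this]
    rw [integral_const_mul, odd_zero, mul_zero]
  rw [e2, sub_zero]

end Pool.Agent.Y247.Hil
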