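import Pool.Agent.Y247.Hil.Pv

/-!
Principal values: the Hilbert transform of an integrable function exists almost everywhere.
-/

set_option autoImplicit false

namespace Pool.Agent.Y247.Hil

open MeasureTheory Metric Filter Topology
open scoped ENNReal NNReal ContDiff

lemma le_Hs (f : ℝ → ℂ) (x : ℝ) {δ : ℝ} (hδ : 0 < δ) : ‖trunc δ f x‖ₑ ≤ Hs f x :=
  le_iSup₂ (f := fun (δ : ℝ) (_ : 0 < δ) => ‖trunc δ f x‖ₑ) δ hδ

/-- the oscillation set is contained in a level set of the maximal function -/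
lemma osc_sub {f g : ℝ → ℂ} (hf : Integrable f) (hg : Integrable g)
    (hgpv : ∀ x, ∃ l, Tendsto (fun δ => trunc δ g x) (𝓝[>] 0) (𝓝 l)) (η : ℝ≥0) (hη : 0 < η) :
    {x : ℝ | ¬ ∃ δ₀ > 0, ∀ δ δ' : ℝ, 0 < δ → δ < δ₀ → 0 < δ' → δ' < δ₀ →
      dist (trunc δ f x) (trunc δ' f x) < 3 * η} ⊆
    {x : ℝ | ((η / 2 : ℝ≥0) : ℝ≥0∞) < Hs (fun y => f y - g y) x} := by
  intro x hx
  by_contra hcon
  apply hx
  have hH : Hs (fun y => f y - g y) x ≤ ((η / 2 : ℝ≥0) : ℝ≥0∞) := not_lt.1 hcon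
  obtain ⟨l, hl⟩ := hgpv x
  have h1 : ∀ᶠ δ in 𝓝[>] (0:ℝ), dist (trunc δ g x) l < η / 2 :=
    (Metric.tendsto_nhds.1 hl) _ (by positivity)
  obtain ⟨δ₀, hδ₀, h2⟩ := (mem_nhdsGT_iff_exists_Ioo_subset (a := (0:ℝ))).1 h1
  refine ⟨δ₀, hδ₀, fun δ δ' a1 a2 a3 a4 => ?_⟩
  have h3 : ∀ δ, 0 < δ → δ < δ₀ → dist (trunc δ f x) l < η / 2 + η / 2 := by
    intro δ b1 b2
    have h4 : dist (trunc δ g x) l < η / 2 := h2 ⟨b1, b2⟩
    have h5 : ‖trunc δ (fun y => f y - g y) x‖ₑ ≤ ((η / 2 : ℝ≥0) : ℝ≥0∞) := (le_Hs _ x b1).trans hH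
    rw [trunc_sub hf hg b1] at h5
    have h6 : dist (trunc δ f x) (trunc δ g x) ≤ η / 2 := by
      rw [dist_eq_norm]
      have h7 : ‖trunc δ f x - trunc δ g x‖₊ ≤ η / 2 := by
        rw [enorm_eq_nnnorm] at h5
        exact_mod_cast h5
      have h8 : ((‖trunc δ f x - trunc δ g x‖₊ : ℝ≥0) : ℝ) ≤ ((η / 2 : ℝ≥0) : ℝ) := by
        exact_mod_cast h7
      simpa using h8
    have h9 := dist_triangle (trunc δ f x) (trunc δ g x) l
    linarith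
  have b1 := h3 δ a1 a2
  have b2 := h3 δ' a3 a4
  have b3 := dist_triangle_right (trunc δ f x) (trunc δ' f x) l
  have hη' : (0:ℝ) < η := by exact_mod_cast hη
  linarith

lemma osc_null {f : ℝ → ℂ} (hf : Integrable f) (η : ℝ≥0) (hη : 0 < η) :
    volume {x : ℝ | ¬ ∃ δ₀ > 0, ∀ δ δ' : ℝ, 0 < δ → δ < δ₀ → 0 < δ' → δ' < δ₀ →
      dist (trunc δ f x) (trunc δ' f x) < 3 * η} = 0 := by
  obtain ⟨W, hW⟩ := weakL1
  set B := {x : ℝ | ¬ ∃ δ₀ > 0, ∀ δ δ' : ℝ, 0 < δ → δ < δ₀ → 0 < δ' → δ' < δ₀ →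
      dist (trunc δ f x) (trunc δ' f x) < 3 * η} with hB
  have key : ∀ ε : ℝ, 0 < ε → ((η / 2 : ℝ≥0) : ℝ≥0∞) * volume B ≤ W * ENNReal.ofReal ε := by
    intro ε hε
    obtain ⟨g, hg1, hg2, hg3⟩ := (memLp_one_iff_integrable.2 hf).exist_eLpNorm_sub_le
      (by norm_num) le_rfl hε
    have hgint : Integrable g := hg2.continuous.integrable_of_hasCompactSupport hg1
    obtain ⟨L, hL⟩ := hg2.lipschitzWith_of_hasCompactSupport hg1 (by simp)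
    have h1 := osc_sub hf hgint (pv_lip hgint hL) η hη
    have h2 := hW (fun y => f y - g y) (hf.sub hgint) (η / 2) (by positivity)
    calc ((η / 2 : ℝ≥0) : ℝ≥0∞) * volume B
        ≤ ((η / 2 : ℝ≥0) : ℝ≥0∞) * volume {x : ℝ | ((η / 2 : ℝ≥0) : ℝ≥0∞) <
          Hs (fun y => f y - g y) x} := mul_le_mul' le_rfl (measure_mono h1)
      _ ≤ W * ∫⁻ x, ‖f x - g x‖ₑ := h2
      _ ≤ W * ENNReal.ofReal ε := by
          apply mul_le_mul' le_rfl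
          rw [eLpNorm_one_eq_lintegral_enorm] at hg3
          exact hg3
  have h3 : ((η / 2 : ℝ≥0) : ℝ≥0∞) * volume B ≤ 0 := by
    have h4 : Tendsto (fun ε : ℝ => (W : ℝ≥0∞) * ENNReal.ofReal ε) (𝓝[>] 0) (𝓝 (W * ENNReal.ofReal 0)) := by
      apply ENNReal.Tendsto.const_mul _ (Or.inr (by simp))
      exact (ENNReal.continuous_ofReal.tendsto 0).mono_left nhdsWithin_le_nhds
    rw [ENNReal.ofReal_zero, mul_zero] at h4
    apply ge_of_tendsto h4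
    filter_upwards [self_mem_nhdsWithin] with ε hε
    exact key ε hε
  have h5 : ((η / 2 : ℝ≥0) : ℝ≥0∞) * volume B = 0 := le_antisymm h3 bot_le
  rcases mul_eq_zero.1 h5 with h6 | h6
  · exfalso
    have : η / 2 = 0 := by exact_mod_cast h6
    have h7 : 0 < η / 2 := by positivity
    exact h7.ne' this
  · exact h6

/-- the principal value exists almost everywhere -/
theorem pv_ae {f : ℝ → ℂ} (hf : Integrable f) :
    ∀ᵐ x, ∃ l, Tendsto (fun δ => trunc δ f x) (𝓝[>] 0) (𝓝 l) := by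
  have h1 : ∀ᵐ x, ∀ n : ℕ, ∃ δ₀ > 0, ∀ δ δ' : ℝ, 0 < δ → δ < δ₀ → 0 < δ' → δ' < δ₀ →
      dist (trunc δ f x) (trunc δ' f x) < 3 * ((1 / ((n : ℝ≥0) + 1) : ℝ≥0) : ℝ) := by
    rw [ae_all_iff]
    intro n
    exact osc_null hf _ (by positivity)
  filter_upwards [h1] with x hx
  have hne : (map (fun δ => trunc δ f x) (𝓝[>] (0:ℝ))).NeBot := inferInstance
  rw [← cauchy_map_iff_exists_tendsto]
  rw [Metric.cauchy_iff]
  refine ⟨hne, fun ε hε => ?_⟩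
  obtain ⟨n, hn⟩ := exists_nat_gt (3 / ε)
  obtain ⟨δ₀, hδ₀, h2⟩ := hx n
  refine ⟨(fun δ => trunc δ f x) '' Set.Ioo 0 δ₀, ?_, ?_⟩
  · apply image_mem_map
    exact Ioo_mem_nhdsGT hδ₀
  · rintro _ ⟨δ, hδ, rfl⟩ _ ⟨δ', hδ', rfl⟩
    refine (h2 δ δ' hδ.1 hδ.2 hδ'.1 hδ'.2).trans_le ?_
    have hn0 : (0:ℝ) < n := lt_of_le_of_lt (by positivity) hn
    rw [div_lt_iff₀ hε] at hn
    push_cast
    rw [mul_one_div, div_le_iff₀ (by positivity)]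
    nlinarith

end Pool.Agent.Y247.Hil
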