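import Pool.Agent.Y247.Hil.Bridge

/-!
Sufficiency: the weights `U`, `U = |x - c|^p V`, `U = (1 + |x|)^p V` with `V` in `A_p` are admissible.
-/

set_option autoImplicit false

namespace Pool.Agent.Y247.Hil

open MeasureTheory Metric Filter Topology
open scoped ENNReal NNReal

lemma hilbert_eq {f : ℝ → ℂ} {x : ℝ} {l : ℂ}
    (h : Tendsto (fun δ => trunc δ f x) (𝓝[>] 0) (𝓝 l)) : hilbert f x = l :=
  h.limUnder_eq

lemma hilbert_tendsto {f : ℝ → ℂ} (hf : Integrable f) :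
    ∀ᵐ x, Tendsto (fun δ => trunc δ f x) (𝓝[>] 0) (𝓝 (hilbert f x)) := by
  filter_upwards [pv_ae hf] with x hx
  obtain ⟨l, hl⟩ := hx
  rw [hilbert_eq hl]
  exact hl

lemma enorm_le_of_tendsto {F : ℝ → ℂ} {l : ℂ} {B : ℝ≥0∞} (h : Tendsto F (𝓝[>] 0) (𝓝 l))
    (hB : ∀ δ, 0 < δ → ‖F δ‖ₑ ≤ B) : ‖l‖ₑ ≤ B := by
  apply le_of_tendsto h.enorm
  filter_upwards [self_mem_nhdsWithin] with δ hδ
  exact hB δ hδ

lemma far_tendsto {f : ℝ → ℂ} (hf : Integrable f) (x : ℝ) :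
    Tendsto (fun δ => ∫ y in {y : ℝ | δ < |y - x|}, f y) (𝓝[>] 0) (𝓝 (∫ y, f y)) := by
  have h1 : ∀ δ, ∫ y in {y : ℝ | δ < |y - x|}, f y =
      ∫ y, {y : ℝ | δ < |y - x|}.indicator f y := fun δ => (integral_indicator (far_meas δ x)).symm
  simp_rw [h1]
  apply tendsto_integral_filter_of_dominated_convergence (fun y => ‖f y‖)
  · exact Eventually.of_forall fun δ => hf.1.indicator (far_meas δ x)
  · exact Eventually.of_forall fun δ => ae_of_all _ fun y => norm_indicator_le_norm_self _ _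
  · exact hf.norm
  · have hne : ∀ᵐ y : ℝ, y ≠ x := by simp [ae_iff, measure_singleton]
    filter_upwards [hne] with y hy
    apply tendsto_const_nhds.congr'
    have hpos : 0 < |y - x| := abs_pos.2 (sub_ne_zero.2 hy)
    have h2 : ∀ᶠ δ in 𝓝[>] (0:ℝ), δ < |y - x| := nhdsWithin_le_nhds (eventually_lt_nhds hpos)
    filter_upwards [h2] with δ hδ
    rw [Set.indicator_of_mem (show y ∈ {y : ℝ | δ < |y - x|} from hδ)]

lemma trunc_mul {f : ℝ → ℂ} (hf : Integrable f) (c : ℂ) (x : ℝ) {δ : ℝ} (hδ : 0 < δ) :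
    trunc δ (fun y => ((y : ℂ) - c) * f y) x =
      ((x : ℂ) - c) * trunc δ f x - (1 / (Real.pi : ℂ)) * ∫ y in {y : ℝ | δ < |y - x|}, f y := by
  unfold trunc
  have h1 := trunc_int hf hδ x
  have h2 : ∫ y in {y : ℝ | δ < |y - x|}, ((y : ℂ) - c) * f y / ((x : ℂ) - y) =
      ∫ y in {y : ℝ | δ < |y - x|}, (((x : ℂ) - c) * (f y / ((x : ℂ) - y)) - f y) := by
    apply setIntegral_congr_fun (far_meas δ x)
    intro y hy
    have hy' : δ < |y - x| := hy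
    have hne : (x : ℂ) - y ≠ 0 := by
      intro h0
      have h3 : x - y = 0 := by exact_mod_cast h0
      have h4 : y - x = 0 := by linarith
      rw [h4, abs_zero] at hy'
      linarith
    simp only
    field_simp
    ring
  rw [h2, integral_sub (h1.const_mul _) hf.integrableOn, integral_const_mul]
  ring

theorem suff_one {p : ℝ} (hp : 1 < p) {U : ℝ → ℝ} (hU : MemAp p U) : Admissible p U := by
  obtain ⟨C, hC⟩ := Hs_bound hp hU
  refine ⟨C, fun f hf _ => ?_⟩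
  calc ∫⁻ x, ‖hilbert f x‖ₑ ^ p * ENNReal.ofReal (U x)
      ≤ ∫⁻ x, ENNReal.ofReal (U x) * Hs f x ^ p := by
        apply lintegral_mono_ae
        filter_upwards [hilbert_tendsto hf] with x hx
        rw [mul_comm]
        apply mul_le_mul' le_rfl
        apply ENNReal.rpow_le_rpow _ (by linarith)
        exact enorm_le_of_tendsto hx fun δ hδ => le_Hs f x hδ
    _ ≤ C * ∫⁻ x, ENNReal.ofReal (U x) * ‖f x‖ₑ ^ p := hC f hf.1
    _ = _ := by simp_rw [mul_comm]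

theorem suff_gen {p : ℝ} (hp : 1 < p) {U V : ℝ → ℝ} (hV : MemAp p V) (c : ℂ) (ρ : ℝ → ℝ)
    (h1 : ∀ x : ℝ, ‖(x : ℂ) - c‖ ≤ ρ x) (h2 : ∀ x : ℝ, ρ x ≤ 2 * ‖(x : ℂ) - c‖)
    (hUV : ∀ᵐ x, U x = V x * ρ x ^ p) : Admissible p U := by
  obtain ⟨C, hC⟩ := Hs_bound hp hV
  have hp0 : 0 < p := by linarith
  have hρ : ∀ x, 0 ≤ ρ x := fun x => (norm_nonneg _).trans (h1 x)
  have hUV' : ∀ᵐ x, ENNReal.ofReal (U x) = ENNReal.ofReal (V x) * ENNReal.ofReal (ρ x) ^ p := by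
    filter_upwards [hUV] with x hx
    rw [hx, ENNReal.ofReal_mul (hV.1.nonneg x), ENNReal.ofReal_rpow_of_nonneg (hρ x) hp0.le]
  have hn1 : ∀ x : ℝ, ‖(x : ℂ) - c‖ₑ ≤ ENNReal.ofReal (ρ x) := fun x => by
    rw [← ofReal_norm]; exact ENNReal.ofReal_le_ofReal (h1 x)
  have hn2 : ∀ x : ℝ, ENNReal.ofReal (ρ x) ≤ 2 * ‖(x : ℂ) - c‖ₑ := fun x => by
    rw [← ofReal_norm]
    calc ENNReal.ofReal (ρ x) ≤ ENNReal.ofReal (2 * ‖(x : ℂ) - c‖) :=
          ENNReal.ofReal_le_ofReal (h2 x)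
      _ = _ := by rw [ENNReal.ofReal_mul (by norm_num)]; norm_num
  refine ⟨(2:ℝ≥0) ^ p * C, fun f hf hf0 => ?_⟩
  set h : ℝ → ℂ := fun y => ((y : ℂ) - c) * f y with hh
  have hhm : AEStronglyMeasurable h volume :=
    (by fun_prop : Continuous fun y : ℝ => (y : ℂ) - c).aestronglyMeasurable.mul hf.1
  have key : ∀ᵐ x : ℝ, ‖((x : ℂ) - c) * hilbert f x‖ₑ ≤ Hs h x := by
    filter_upwards [hilbert_tendsto hf] with x hx
    have h3 : Tendsto (fun δ => ((x : ℂ) - c) * trunc δ f x - (1 / (Real.pi : ℂ)) *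
        ∫ y in {y : ℝ | δ < |y - x|}, f y) (𝓝[>] 0) (𝓝 (((x : ℂ) - c) * hilbert f x)) := by
      have h4 := (hx.const_mul ((x : ℂ) - c)).sub
        ((far_tendsto hf x).const_mul (1 / (Real.pi : ℂ)))
      rw [hf0, mul_zero, sub_zero] at h4
      exact h4
    apply enorm_le_of_tendsto h3
    intro δ hδ
    rw [← trunc_mul hf c x hδ]
    exact le_Hs h x hδ
  calc ∫⁻ x, ‖hilbert f x‖ₑ ^ p * ENNReal.ofReal (U x)
      ≤ ∫⁻ x, (2:ℝ≥0∞) ^ p * (ENNReal.ofReal (V x) * Hs h x ^ p) := by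
        apply lintegral_mono_ae
        filter_upwards [key, hUV'] with x hx hx2
        rw [hx2]
        calc ‖hilbert f x‖ₑ ^ p * (ENNReal.ofReal (V x) * ENNReal.ofReal (ρ x) ^ p)
            ≤ ‖hilbert f x‖ₑ ^ p * (ENNReal.ofReal (V x) * (2 * ‖(x : ℂ) - c‖ₑ) ^ p) := by
              gcongr
              exact hn2 x
          _ = (2:ℝ≥0∞) ^ p * (ENNReal.ofReal (V x) * ‖((x : ℂ) - c) * hilbert f x‖ₑ ^ p) := by
              rw [enorm_mul, ENNReal.mul_rpow_of_nonneg _ _ hp0.le,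
                ENNReal.mul_rpow_of_nonneg _ _ hp0.le]
              ring
          _ ≤ _ := by gcongr
    _ = (2:ℝ≥0∞) ^ p * ∫⁻ x, (ENNReal.ofReal (V x) * Hs h x ^ p) := by
        rw [lintegral_const_mul' _ _ (ENNReal.rpow_ne_top_of_nonneg hp0.le (by norm_num))]
    _ ≤ (2:ℝ≥0∞) ^ p * (C * ∫⁻ x, ENNReal.ofReal (V x) * ‖h x‖ₑ ^ p) := by
        gcongr
        exact hC h hhm
    _ ≤ (2:ℝ≥0∞) ^ p * (C * ∫⁻ x, ‖f x‖ₑ ^ p * ENNReal.ofReal (U x)) := by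
        apply mul_le_mul' le_rfl
        apply mul_le_mul' le_rfl
        apply lintegral_mono_ae
        filter_upwards [hUV'] with x hx2
        rw [hx2]
        simp only [hh]
        rw [enorm_mul, ENNReal.mul_rpow_of_nonneg _ _ hp0.le]
        calc ENNReal.ofReal (V x) * (‖(x : ℂ) - c‖ₑ ^ p * ‖f x‖ₑ ^ p)
            ≤ ENNReal.ofReal (V x) * (ENNReal.ofReal (ρ x) ^ p * ‖f x‖ₑ ^ p) := by
              gcongr
              exact hn1 x
          _ = _ := by ring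
    _ = _ := by
        rw [ENNReal.coe_mul, ENNReal.coe_rpow_of_nonneg _ hp0.le, mul_assoc]
        norm_num

end Pool.Agent.Y247.Hil
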